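import Pool.Agent.Lib.MP_bb6489_pr.FBound

/-!
Lower bounds for the forward first moments through Abel polynomials.
-/

open MeasureTheory intervalIntegral Set Filter Topology
open scoped Nat

namespace Pool.Agent.Lib.MP_bb6489_pr

noncomputable section

variable {f : ℕ → ℝ} {D : ℕ} {z T : ℝ}

/-- Abel polynomials for the nodes `U - r ν`. -/
def abel (U ν : ℝ) : ℕ → ℝ → ℝ
  | 0, _ => 1
  | r + 1, u => (U - (r + 1) * ν - u) * (U - u) ^ r / ((r + 1)! : ℝ)

theorem abel_end (U ν : ℝ) (r : ℕ) : abel U ν (r + 1) (U - (r + 1) * ν) = 0 := by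
  simp [abel]

theorem abel_hasDeriv (U ν : ℝ) (r : ℕ) (u : ℝ) :
    HasDerivAt (abel U ν (r + 1)) (-(abel U ν r u)) u := by
  have h1 : HasDerivAt (fun u => U - (r + 1) * ν - u) (-1) u := by
    simpa using (hasDerivAt_id u).const_sub (U - (r + 1) * ν)
  have h2 : HasDerivAt (fun u => U - u) (-1) u := by
    simpa using (hasDerivAt_id u).const_sub U
  have h3 := (h1.fun_mul (h2.fun_pow r)).div_const ((r + 1)! : ℝ)
  have e : (-1 * (U - u) ^ r + (U - (↑r + 1) * ν - u) * (↑r * (U - u) ^ (r - 1) * -1)) /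
      ((r + 1)! : ℝ) = -(abel U ν r u) := by
    cases r with
    | zero => simp [abel]
    | succ r =>
      simp only [abel, Nat.add_sub_cancel]
      rw [Nat.factorial_succ (r + 1)]
      push_cast
      have h5 : ((r + 1)! : ℝ) ≠ 0 := by positivity
      have h6 : ((r:ℝ) + 1 + 1) ≠ 0 := by positivity
      field_simp
      ring
  rw [← e]
  exact h3

theorem abel_nonneg {U ν : ℝ} (hν : 0 ≤ ν) (r : ℕ) {u : ℝ} (hu : u ≤ U - r * ν) :
    0 ≤ abel U ν r u := by
  cases r with
  | zero => simp [abel]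
  | succ r =>
    simp only [abel]
    push_cast at hu
    have h1 : 0 ≤ U - (r + 1) * ν - u := by linarith
    have h2 : 0 ≤ U - u := by
      have : 0 ≤ ((r:ℝ) + 1) * ν := by positivity
      linarith
    positivity

theorem W_abel (hf : ∀ k, 0 < f k) (hz1 : z < 1) {i h : ℕ} {U ν κ w : ℝ} (hν : 0 ≤ ν)
    (hUT : U ≤ T) (hκ : 0 ≤ κ) (hw0 : 0 ≤ w) (hw : w ≤ W f D z T i U)
    (hA : ∀ r, r < h → ∀ s, 0 ≤ s → s ≤ U - (r + 1) * ν → κ ≤ (1 - z) * A f D z (i + r) s)
    (r : ℕ) : r ≤ h → ∀ u, 0 ≤ u → u ≤ U - r * ν →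
      w * κ ^ r * (∏ j ∈ Finset.Ico i (i + r), f j) * abel U ν r u ≤ W f D z T (i + r) u := by
  induction r with
  | zero =>
    intro _ u hu hu2
    simp only [abel, pow_zero, mul_one, add_zero, Finset.Ico_self, Finset.prod_empty]
    refine hw.trans (W_anti hf hz1.le i ?_ hUT ?_)
    · simp only [Nat.cast_zero, zero_mul, sub_zero] at hu2; exact hu2.trans hUT
    · simpa using hu2
  | succ r ih =>
    intro hr u hu hu2
    set K := w * κ ^ (r + 1) * (∏ j ∈ Finset.Ico i (i + (r + 1)), f j) with hK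
    push_cast at hu2
    set b := U - (r + 1) * ν with hb
    have hb' : 0 ≤ ((r:ℝ) + 1) * ν := by positivity
    have hbT : b ≤ T := by rw [hb]; linarith
    have hbr : b ≤ U - r * ν := by rw [hb]; linarith
    have hd : ∀ x, HasDerivAt (fun x => W f D z T (i + r + 1) x - K * abel U ν (r + 1) x)
        (-((1 - z) * f (i + r) * A f D z (i + r) x * W f D z T (i + r) x) -
          K * -(abel U ν r x)) x :=
      fun x => (W_hasDeriv (i + r) x).sub ((abel_hasDeriv U ν r x).const_mul K)
    have hanti : AntitoneOn (fun x => W f D z T (i + r + 1) x - K * abel U ν (r + 1) x)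
        (Icc 0 b) := by
      apply antitoneOn_of_deriv_nonpos (convex_Icc 0 b)
      · exact fun x _ => (hd x).continuousAt.continuousWithinAt
      · exact fun x _ => (hd x).differentiableAt.differentiableWithinAt
      · intro x hx
        rw [interior_Icc] at hx
        rw [(hd x).deriv]
        have ih1 := ih (by omega) x hx.1.le (hx.2.le.trans hbr)
        have h1 := hA r (by omega) x hx.1.le hx.2.le
        have h2 := (hf (i + r))
        have h3 := abel_nonneg hν r (hx.2.le.trans hbr)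
        have h4 : 0 ≤ w * κ ^ r * (∏ j ∈ Finset.Ico i (i + r), f j) * abel U ν r x := by
          have : 0 ≤ ∏ j ∈ Finset.Ico i (i + r), f j :=
            Finset.prod_nonneg fun j _ => (hf j).le
          positivity
        have h5 : K = κ * f (i + r) * (w * κ ^ r * (∏ j ∈ Finset.Ico i (i + r), f j)) := by
          rw [hK, ← add_assoc, Finset.prod_Ico_succ_top (by omega)]; ring
        have h6 : κ * f (i + r) * (w * κ ^ r * (∏ j ∈ Finset.Ico i (i + r), f j) *
            abel U ν r x) ≤ (1 - z) * A f D z (i + r) x * f (i + r) *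
            W f D z T (i + r) x := by
          apply mul_le_mul _ ih1 h4
          · have := A_nonneg (f := f) (D := D) (z := z) (i + r) x
            have : 0 ≤ 1 - z := by linarith
            positivity
          · exact mul_le_mul_of_nonneg_right h1 h2.le
        rw [h5]
        nlinarith [h6]
    have h7 := hanti ⟨hu, hu2⟩ (right_mem_Icc.mpr (hu.trans hu2)) hu2
    simp only at h7
    have h8 : abel U ν (r + 1) b = 0 := abel_end U ν r
    rw [h8] at h7
    have h9 := W_nonneg (D := D) hf hz1.le (i + r + 1) b hbT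
    rw [← add_assoc]
    linarith

/-- Step A4. -/
theorem A4 (hf : ∀ k, 0 < f k) (hm : Monotone f) (hz1 : z < 1) {i h : ℕ} (hh : 1 ≤ h)
    (hi : i + h ≤ D) {a κ w : ℝ} (ha : 0 ≤ a) (ha1 : a ≤ 1) (hT : R f D 0 ≤ T)
    (hκ : 0 ≤ κ) (hw0 : 0 ≤ w) (hw : w ≤ W f D z T i (a * R f D i))
    (hA : ∀ k, i ≤ k → k < i + h → ∀ s, 0 ≤ s → s ≤ a * R f D k → κ ≤ (1 - z) * A f D z k s)
    (hend : 0 ≤ a * (R f D i - h / (Real.exp 1 * f i))) :
    w * κ ^ h * (∏ j ∈ Finset.Ico i (i + h), f j) *
      ((a * (R f D i - h / (Real.exp 1 * f i))) * (a * R f D i) ^ (h - 1) / (h ! : ℝ)) ≤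
      W f D z T (i + h) 0 := by
  have he := Real.exp_pos 1
  have hfi := hf i
  have hRi := R_nonneg (f := f) hf D i
  have hRT : R f D i ≤ T := (R_anti hf (Nat.zero_le i) (by omega)).trans hT
  have hν : 0 ≤ a / (Real.exp 1 * f i) := by positivity
  obtain ⟨n, rfl⟩ : ∃ n, h = n + 1 := ⟨h - 1, by omega⟩
  have key := W_abel (D := D) (T := T) hf hz1 (i := i) (h := n + 1) (U := a * R f D i)
    (ν := a / (Real.exp 1 * f i)) (κ := κ) (w := w) hν
    (le_trans (by nlinarith) hRT) hκ hw0 hw ?_ (n + 1) le_rfl 0 le_rfl ?_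
  · refine le_trans (le_of_eq ?_) key
    simp only [abel, Nat.add_sub_cancel]
    push_cast
    have : a * R f D i - (n + 1) * (a / (Real.exp 1 * f i)) - 0 =
      a * (R f D i - (n + 1) / (Real.exp 1 * f i)) := by ring
    rw [this, sub_zero]
  · intro r hr s hs hs2
    apply hA (i + r) (by omega) (by omega) s hs
    refine hs2.trans ?_
    have h1 := sum_inv_le (i := i) (n := r) hf hm
    have h2 := R_split (f := f) (i := i) (m := i + r) (q := D) (by omega) (by omega)
    have h3 : R f D i - r / (Real.exp 1 * f i) ≤ R f D (i + r) := by linarith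
    have h4 := mul_le_mul_of_nonneg_left h3 ha
    have h5 : a * R f D i - (r + 1) * (a / (Real.exp 1 * f i)) =
      a * (R f D i - r / (Real.exp 1 * f i)) - a / (Real.exp 1 * f i) := by ring
    rw [h5]; linarith
  · refine le_trans hend (le_of_eq ?_)
    push_cast; ring

end

end Pool.Agent.Lib.MP_bb6489_pr
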