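import Pool.Agent.Lib.MP_bb6489_pr.LemmaL

/-!
Elementary facts about the weight `exp (c k / log (k + 2))`.
-/

open Set Filter Topology
open scoped Nat

namespace Pool.Agent.Lib.MP_bb6489_pr

noncomputable section

/-- the exponent of the weight function -/
def phi (c : ℝ) (k : ℕ) : ℝ := c * k / Real.log (k + 2)

/-- the weight function -/
def fw (c : ℝ) (k : ℕ) : ℝ := Real.exp (phi c k)

theorem fw_pos (c : ℝ) (k : ℕ) : 0 < fw c k := Real.exp_pos _

theorem log_two_pos (k : ℕ) : 0 < Real.log (k + 2) := by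
  apply Real.log_pos
  have : (0:ℝ) ≤ k := Nat.cast_nonneg k
  linarith

theorem log_diff_le (i r : ℕ) : Real.log ((i:ℝ) + r + 2) - Real.log (i + 2) ≤ r / (i + 2) := by
  have hi : (0:ℝ) ≤ i := Nat.cast_nonneg i
  have hr : (0:ℝ) ≤ r := Nat.cast_nonneg r
  rw [← Real.log_div (by positivity) (by positivity)]
  have h := Real.log_le_sub_one_of_pos (show (0:ℝ) < ((i:ℝ) + r + 2) / (i + 2) by positivity)
  refine h.trans (le_of_eq ?_)
  field_simp; ring

theorem log_mono_aux (i r : ℕ) : Real.log ((i:ℝ) + 2) ≤ Real.log ((i:ℝ) + r + 2) := by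
  have hi : (0:ℝ) ≤ i := Nat.cast_nonneg i
  have hr : (0:ℝ) ≤ r := Nat.cast_nonneg r
  apply Real.log_le_log (by positivity)
  linarith

theorem phi_diff_le {c : ℝ} (hc : 0 < c) (i r : ℕ) :
    phi c (i + r) - phi c i ≤ c * r / Real.log (i + 2) := by
  have hi : (0:ℝ) ≤ i := Nat.cast_nonneg i
  have hr : (0:ℝ) ≤ r := Nat.cast_nonneg r
  have hx := log_two_pos i
  have hxy := log_mono_aux i r
  unfold phi
  push_cast
  have h1 : c * ((i:ℝ) + r) / Real.log ((i:ℝ) + r + 2) ≤ c * ((i:ℝ) + r) / Real.log (i + 2) :=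
    div_le_div_of_nonneg_left (by positivity) hx hxy
  have h2 : c * ((i:ℝ) + r) / Real.log (i + 2) = c * i / Real.log (i + 2) +
    c * r / Real.log (i + 2) := by ring
  linarith

theorem phi_diff_aux {c : ℝ} (hc : 0 < c) (i r : ℕ) :
    c * r / Real.log ((i:ℝ) + r + 2) * (1 - i / (i + 2) / Real.log (i + 2)) ≤
      phi c (i + r) - phi c i := by
  have hi : (0:ℝ) ≤ i := Nat.cast_nonneg i
  have hr : (0:ℝ) ≤ r := Nat.cast_nonneg r
  have hx := log_two_pos i
  have hxy := log_mono_aux i r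
  have hy : 0 < Real.log ((i:ℝ) + r + 2) := lt_of_lt_of_le hx hxy
  have hd := log_diff_le i r
  unfold phi
  push_cast
  set x := Real.log ((i:ℝ) + 2)
  set y := Real.log ((i:ℝ) + r + 2)
  have h1 : c * ((i:ℝ) + r) / y - c * i / x = c * r / y - c * i * (y - x) / (x * y) := by
    field_simp; ring
  have h2 : c * i * (y - x) / (x * y) ≤ c * i * (r / (i + 2)) / (x * y) := by
    apply div_le_div_of_nonneg_right _ (by positivity)
    apply mul_le_mul_of_nonneg_left hd (by positivity)
  have h3 : c * r / y * (1 - i / (i + 2) / x) = c * r / y -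
    c * i * (r / (i + 2)) / (x * y) := by
    field_simp
  rw [h1, h3]; linarith

theorem phi_diff_ge1 {c : ℝ} (hc : 0 < c) (i r : ℕ) :
    c * r / Real.log ((i:ℝ) + r + 2) * (1 - 1 / Real.log (i + 2)) ≤
      phi c (i + r) - phi c i := by
  refine le_trans ?_ (phi_diff_aux hc i r)
  have hi : (0:ℝ) ≤ i := Nat.cast_nonneg i
  have hr : (0:ℝ) ≤ r := Nat.cast_nonneg r
  have hx := log_two_pos i
  have hxy := log_mono_aux i r
  have hy : 0 < Real.log ((i:ℝ) + r + 2) := lt_of_lt_of_le hx hxy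
  apply mul_le_mul_of_nonneg_left _ (by positivity)
  have h1 : (i:ℝ) / (i + 2) ≤ 1 := by
    rw [div_le_one (by positivity)]; linarith
  have := div_le_div_of_nonneg_right h1 hx.le
  linarith

theorem phi_diff_ge2 {c : ℝ} (hc : 0 < c) (i r : ℕ) :
    c * r / (2 * Real.log ((i:ℝ) + r + 2)) ≤ phi c (i + r) - phi c i := by
  refine le_trans ?_ (phi_diff_aux hc i r)
  have hi : (0:ℝ) ≤ i := Nat.cast_nonneg i
  have hr : (0:ℝ) ≤ r := Nat.cast_nonneg r
  have hx := log_two_pos i
  have hxy := log_mono_aux i r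
  have hy : 0 < Real.log ((i:ℝ) + r + 2) := lt_of_lt_of_le hx hxy
  have h1 : (i:ℝ) / (i + 2) / Real.log (i + 2) ≤ 1 / 2 := by
    rw [div_div, div_le_div_iff₀ (by positivity) (by norm_num)]
    have h2 := Real.one_sub_inv_le_log_of_pos (show (0:ℝ) < ((i:ℝ) + 2) / 4 by positivity)
    rw [Real.log_div (by positivity) (by norm_num), inv_div] at h2
    have h3 : Real.log 4 = 2 * Real.log 2 := by
      rw [show (4:ℝ) = 2 ^ 2 by norm_num, Real.log_pow]; norm_num
    have h4 := Real.log_two_gt_d9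
    have h5 : 2 - 4 / ((i:ℝ) + 2) ≤ Real.log (i + 2) := by linarith
    have h6 := mul_le_mul_of_nonneg_left h5 (show (0:ℝ) ≤ (i:ℝ) + 2 by positivity)
    have h7 : ((i:ℝ) + 2) * (2 - 4 / (i + 2)) = 2 * i := by field_simp; ring
    rw [h7] at h6
    linarith
  calc c * r / (2 * Real.log ((i:ℝ) + r + 2)) = c * r / Real.log ((i:ℝ) + r + 2) * (1 / 2) := by
        field_simp
    _ ≤ _ := by
        apply mul_le_mul_of_nonneg_left _ (by positivity)
        linarith

theorem phi_mono {c : ℝ} (hc : 0 < c) : Monotone (phi c) := by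
  intro i j hij
  obtain ⟨r, rfl⟩ := Nat.exists_eq_add_of_le hij
  have h := phi_diff_ge2 hc i r
  have hxy := log_mono_aux i r
  have hy : 0 < Real.log ((i:ℝ) + r + 2) := lt_of_lt_of_le (log_two_pos i) hxy
  have : 0 ≤ c * r / (2 * Real.log ((i:ℝ) + r + 2)) := by positivity
  linarith

theorem fw_mono {c : ℝ} (hc : 0 < c) : Monotone (fw c) := fun _ _ h =>
  Real.exp_le_exp.mpr (phi_mono hc h)

/-! ### The normalised travel time -/

theorem Lam_eq (c : ℝ) (D i : ℕ) : Real.exp 1 * fw c i * R (fw c) D i =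
    ∑ j ∈ Finset.Ico i D, Real.exp (-(phi c j - phi c i)) := by
  unfold R
  rw [Finset.mul_sum]
  apply Finset.sum_congr rfl
  intro j _
  unfold fw
  have h : Real.exp (-(phi c j - phi c i)) = Real.exp (phi c i) / Real.exp (phi c j) := by
    rw [← Real.exp_sub]; congr 1; ring
  rw [h]
  have h1 := Real.exp_pos 1
  have h2 := Real.exp_pos (phi c j)
  field_simp

theorem Lam_eq' (c : ℝ) (i n : ℕ) : Real.exp 1 * fw c i * R (fw c) (i + n) i =
    ∑ r ∈ Finset.range n, Real.exp (-(phi c (i + r) - phi c i)) := by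
  rw [Lam_eq, Finset.sum_Ico_eq_sum_range]
  simp

theorem geom_le {s : ℝ} (hs : 0 < s) (n : ℕ) :
    ∑ r ∈ Finset.range n, Real.exp (-(s * r)) ≤ 1 + 1 / s := by
  have h0 : Real.exp (-s) < 1 := by rw [Real.exp_lt_one_iff]; linarith
  have h1 : ∑ r ∈ Finset.range n, Real.exp (-(s * r)) =
      ∑ r ∈ Finset.range n, (Real.exp (-s)) ^ r := by
    apply Finset.sum_congr rfl
    intro r _
    rw [← Real.exp_nat_mul]; congr 1; ring
  rw [h1]
  have h2 : ∑ r ∈ Finset.range n, (Real.exp (-s)) ^ r ≤ (1 - Real.exp (-s))⁻¹ := by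
    have h3 := geom_sum_eq h0.ne n
    rw [h3, ← neg_div_neg_eq, neg_sub, neg_sub, inv_eq_one_div]
    apply div_le_div_of_nonneg_right _ (by linarith)
    have : 0 < Real.exp (-s) ^ n := by positivity
    linarith
  refine h2.trans ?_
  have h4 : s / (1 + s) ≤ 1 - Real.exp (-s) := by
    rw [Real.exp_neg]
    have h5 : 1 + s ≤ Real.exp s := by linarith [Real.add_one_le_exp s]
    have h6 : (Real.exp s)⁻¹ ≤ (1 + s)⁻¹ := inv_anti₀ (by linarith) h5
    have h7 : s / (1 + s) = 1 - (1 + s)⁻¹ := by field_simp; ring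
    rw [h7]; linarith
  have h5 : (1 - Real.exp (-s))⁻¹ ≤ (s / (1 + s))⁻¹ := inv_anti₀ (by positivity) h4
  refine h5.trans (le_of_eq ?_)
  rw [inv_div]; field_simp; ring

theorem geom_ge {s : ℝ} (hs : 0 < s) (n : ℕ) :
    (1 - Real.exp (-(s * n))) / s ≤ ∑ r ∈ Finset.range n, Real.exp (-(s * r)) := by
  have h0 : Real.exp (-s) < 1 := by rw [Real.exp_lt_one_iff]; linarith
  have h1 : ∑ r ∈ Finset.range n, Real.exp (-(s * r)) =
      ∑ r ∈ Finset.range n, (Real.exp (-s)) ^ r := by
    apply Finset.sum_congr rfl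
    intro r _
    rw [← Real.exp_nat_mul]; congr 1; ring
  have h3 := geom_sum_eq h0.ne n
  rw [h1, h3, ← neg_div_neg_eq (_ - 1), neg_sub, neg_sub]
  have h4 : Real.exp (-(s * n)) = Real.exp (-s) ^ n := by
    rw [← Real.exp_nat_mul]; congr 1; ring
  rw [h4]
  have h5 : Real.exp (-s) ^ n ≤ 1 := pow_le_one₀ (Real.exp_pos _).le h0.le
  apply div_le_div_of_nonneg_left (by linarith) (by linarith)
  linarith [Real.add_one_le_exp (-s)]

theorem exp_neg_le {y : ℝ} (hy : 0 < y) : Real.exp (-y) ≤ 24 / y ^ 4 := by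
  have h := Real.pow_div_factorial_le_exp y hy.le 4
  have h2 : ((4 ! : ℕ) : ℝ) = 24 := by norm_num [Nat.factorial]
  rw [h2] at h
  rw [Real.exp_neg, inv_eq_one_div, div_le_div_iff₀ (Real.exp_pos _) (by positivity)]
  rw [div_le_iff₀ (by norm_num)] at h
  linarith

theorem tail_le {c : ℝ} (hc : 0 < c) (i r : ℕ) (hr : 1 ≤ r) (h : i + 2 ≤ 7 * r) :
    Real.exp (-(phi c (i + r) - phi c i)) ≤ 24 * 12 ^ 4 / c ^ 4 * (1 / (r:ℝ) ^ 2) := by
  have hrp : (0:ℝ) < r := by exact_mod_cast hr
  have h1 := phi_diff_ge2 hc i r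
  have hxy := log_mono_aux i r
  have hy : 0 < Real.log ((i:ℝ) + r + 2) := lt_of_lt_of_le (log_two_pos i) hxy
  have hsr : 0 < Real.sqrt r := Real.sqrt_pos.mpr hrp
  have hsq : Real.sqrt r * Real.sqrt r = r := Real.mul_self_sqrt hrp.le
  have h2 : Real.log ((i:ℝ) + r + 2) ≤ 6 * Real.sqrt r := by
    have h3 : ((i:ℝ) + r + 2) ≤ 8 * r := by
      have : ((i + 2 : ℕ) : ℝ) ≤ ((7 * r : ℕ) : ℝ) := by exact_mod_cast h
      push_cast at this; linarith
    have h4 : Real.log ((i:ℝ) + r + 2) ≤ Real.log (8 * r) :=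
      Real.log_le_log (by positivity) h3
    have h5 : Real.log (8 * r) ≤ 6 * Real.sqrt r := by
      have h6 : Real.log (8 * r) ≤ Real.log ((3 * Real.sqrt r) ^ 2) := by
        apply Real.log_le_log (by positivity)
        nlinarith
      rw [Real.log_pow] at h6
      have h7 := Real.log_le_sub_one_of_pos (show 0 < 3 * Real.sqrt r by positivity)
      push_cast at h6
      linarith
    linarith
  have h3 : c * Real.sqrt r / 12 ≤ phi c (i + r) - phi c i := by
    refine le_trans ?_ h1
    have h4 : c * r / (2 * (6 * Real.sqrt r)) ≤ c * r / (2 * Real.log ((i:ℝ) + r + 2)) := by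
      apply div_le_div_of_nonneg_left (by positivity) (by positivity)
      linarith
    refine le_trans (le_of_eq ?_) h4
    rw [div_eq_div_iff (by norm_num) (by positivity)]
    nlinarith
  have h4 : Real.exp (-(phi c (i + r) - phi c i)) ≤ Real.exp (-(c * Real.sqrt r / 12)) := by
    apply Real.exp_le_exp.mpr; linarith
  refine h4.trans ((exp_neg_le (by positivity)).trans (le_of_eq ?_))
  have h5 : (c * Real.sqrt r / 12) ^ 4 = c ^ 4 * r ^ 2 / 12 ^ 4 := by
    have : (Real.sqrt r) ^ 4 = (r:ℝ) ^ 2 := by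
      calc (Real.sqrt r) ^ 4 = (Real.sqrt r * Real.sqrt r) ^ 2 := by ring
        _ = _ := by rw [hsq]
    rw [div_pow, mul_pow, this]
  rw [h5]; field_simp

/-- (F3) -/
theorem Lam_le {c : ℝ} (hc : 0 < c) : ∃ C : ℝ, 0 < C ∧ ∀ D i : ℕ, i ≤ D →
    Real.exp 1 * fw c i * R (fw c) D i ≤ Real.log (i + 2) / c + C := by
  set K := 24 * 12 ^ 4 / c ^ 4 with hK
  have hKp : 0 < K := by positivity
  have hsum : Summable (fun r : ℕ => 1 / (r:ℝ) ^ 2) := Real.summable_one_div_nat_pow.mpr (by norm_num)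
  set S := ∑' r : ℕ, 1 / (r:ℝ) ^ 2 with hS
  have hS0 : 0 ≤ S := tsum_nonneg fun r => by positivity
  have hl2 := Real.log_two_gt_d9
  have hl2' := Real.log_two_lt_d9
  refine ⟨1 + 1 + 2 * (1 + Real.log 2) / c + K * S, by positivity, ?_⟩
  intro D i hi
  obtain ⟨n, rfl⟩ := Nat.exists_eq_add_of_le hi
  rw [Lam_eq']
  have hx := log_two_pos i
  rcases Nat.lt_or_ge i 6 with h6 | h6
  · -- small levels
    have h1 : ∀ r ∈ Finset.range n, Real.exp (-(phi c (i + r) - phi c i)) ≤
        (if r = 0 then 1 else 0) + K * (1 / (r:ℝ) ^ 2) := by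
      intro r _
      rcases Nat.eq_zero_or_pos r with h0 | h0
      · subst h0; simp
      · have := tail_le hc i r h0 (by omega)
        rw [← hK] at this
        rw [if_neg (by omega)]
        linarith
    refine (Finset.sum_le_sum h1).trans ?_
    rw [Finset.sum_add_distrib, ← Finset.mul_sum]
    have h2 : ∑ r ∈ Finset.range n, (if r = 0 then (1:ℝ) else 0) ≤ 1 := by
      rw [Finset.sum_ite_eq']
      split_ifs <;> norm_num
    have h3 : ∑ r ∈ Finset.range n, 1 / (r:ℝ) ^ 2 ≤ S :=
      hsum.sum_le_tsum _ (fun r _ => by positivity)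
    have h4 := mul_le_mul_of_nonneg_left h3 hKp.le
    have h5 : 0 ≤ Real.log (i + 2) / c := by positivity
    have h7 : 0 ≤ 2 * (1 + Real.log 2) / c := by positivity
    linarith
  · have hi6 : (6:ℝ) ≤ i := by exact_mod_cast h6
    have hx2 : 2 ≤ Real.log (i + 2) := by
      have h1 : Real.log 8 ≤ Real.log (i + 2) := Real.log_le_log (by norm_num) (by linarith)
      have h2 : Real.log 8 = 3 * Real.log 2 := by
        rw [show (8:ℝ) = 2 ^ 3 by norm_num, Real.log_pow]; norm_num
      linarith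
    set x := Real.log ((i:ℝ) + 2) with hxdef
    set s := c * (1 - 1 / x) / (x + Real.log 2) with hs
    have h1x : 0 < 1 - 1 / x := by
      have : 1 / x < 1 := by rw [div_lt_one hx]; linarith
      linarith
    have hsp : 0 < s := by rw [hs]; positivity
    have h1 : ∀ r ∈ Finset.range n, Real.exp (-(phi c (i + r) - phi c i)) ≤
        Real.exp (-(s * r)) + K * (1 / (r:ℝ) ^ 2) := by
      intro r _
      rcases le_or_gt r i with hri | hri
      · have h2 := phi_diff_ge1 hc i r
        have h3 : Real.log ((i:ℝ) + r + 2) ≤ x + Real.log 2 := by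
          rw [hxdef, ← Real.log_mul (by positivity) (by norm_num)]
          apply Real.log_le_log (by positivity)
          have : (r:ℝ) ≤ i := by exact_mod_cast hri
          linarith
        have hy : 0 < Real.log ((i:ℝ) + r + 2) := lt_of_lt_of_le hx (log_mono_aux i r)
        have h4 : s * r ≤ phi c (i + r) - phi c i := by
          refine le_trans ?_ h2
          have h5 : c * r / (x + Real.log 2) ≤ c * r / Real.log ((i:ℝ) + r + 2) :=
            div_le_div_of_nonneg_left (by positivity) hy h3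
          have h6 := mul_le_mul_of_nonneg_right h5 h1x.le
          refine le_trans (le_of_eq ?_) h6
          rw [hs]; ring
        have h5 : Real.exp (-(phi c (i + r) - phi c i)) ≤ Real.exp (-(s * r)) :=
          Real.exp_le_exp.mpr (by linarith)
        have h6 : 0 ≤ K * (1 / (r:ℝ) ^ 2) := by positivity
        linarith
      · have := tail_le hc i r (by omega) (by omega)
        rw [← hK] at this
        have h6 := Real.exp_pos (-(s * r))
        linarith
    refine (Finset.sum_le_sum h1).trans ?_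
    rw [Finset.sum_add_distrib, ← Finset.mul_sum]
    have h2 := geom_le hsp n
    have h3 : ∑ r ∈ Finset.range n, 1 / (r:ℝ) ^ 2 ≤ S :=
      hsum.sum_le_tsum _ (fun r _ => by positivity)
    have h4 := mul_le_mul_of_nonneg_left h3 hKp.le
    have h5 : 1 / s ≤ x / c + 2 * (1 + Real.log 2) / c := by
      have hx1 : 0 < x - 1 := by linarith
      have e1 : 1 / s = x * (x + Real.log 2) / (x - 1) / c := by
        rw [hs]
        have : 1 - 1 / x = (x - 1) / x := by field_simp
        rw [this]; field_simp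
      rw [e1, ← add_div]
      apply div_le_div_of_nonneg_right _ hc.le
      rw [div_le_iff₀ hx1]
      nlinarith
    linarith

end

end Pool.Agent.Lib.MP_bb6489_pr
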