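import Mathlib

/-!
Depth weighted trees.
-/

open scoped ENNReal

namespace Pool.Agent.Lib.MP_bb6489_pr

noncomputable section

/-- A rooted tree with vertex set `{1, …, n + 1}` in which every vertex other than the root `1`
has a smaller parent is encoded by the list of the parents of the vertices
`n + 1, n, …, 2`, in this order. `depth t v` is the distance from the root to the vertex `v`. -/
def depth : List ℕ → ℕ → ℕ
  | [], _ => 0
  | p :: t, v => if v = t.length + 2 then depth t p + 1 else depth t v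

/-- The vertex set of the tree encoded by `t`. -/
def verts (t : List ℕ) : Finset ℕ := Finset.Icc 1 (t.length + 1)

/-- The maximal distance from the root to a vertex. -/
def height (t : List ℕ) : ℕ := (verts t).sup (depth t)

/-- The total weight of the tree encoded by `t`. -/
def totalWeight (f : ℕ → ℝ) (t : List ℕ) : ℝ := ∑ j ∈ verts t, f (depth t j)

theorem one_mem_verts (t : List ℕ) : 1 ∈ verts t := by simp [verts]

theorem totalWeight_pos {f : ℕ → ℝ} (hf : ∀ k, 0 < f k) (t : List ℕ) : 0 < totalWeight f t :=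
  Finset.sum_pos (fun _ _ => hf _) ⟨1, one_mem_verts t⟩

/-- The law of the parent of the next vertex: vertex `i` is chosen with probability
`f (depth t i) / totalWeight f t`. -/
def parentLaw (f : ℕ → ℝ) (hf : ∀ k, 0 < f k) (t : List ℕ) : PMF ℕ :=
  PMF.ofFinset
    (fun i => if i ∈ verts t then ENNReal.ofReal (f (depth t i) / totalWeight f t) else 0)
    (verts t)
    (by
      rw [Finset.sum_congr rfl (g := fun i => ENNReal.ofReal
        (f (depth t i) / totalWeight f t)) (fun i hi => by rw [if_pos hi]),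
        ← ENNReal.ofReal_sum_of_nonneg (fun i _ => (div_pos (hf _)
          (totalWeight_pos hf t)).le), ← Finset.sum_div]
      have h := totalWeight_pos hf t
      rw [show (∑ i ∈ verts t, f (depth t i)) = totalWeight f t from rfl, div_self h.ne']
      simp)
    (fun i hi => by rw [if_neg hi])

/-- The law of the depth weighted tree `T_{n+1}` with weight function `f`. -/
def treeLaw (f : ℕ → ℝ) (hf : ∀ k, 0 < f k) : ℕ → PMF (List ℕ)
  | 0 => PMF.pure []
  | n + 1 => (treeLaw f hf n).bind fun t => (parentLaw f hf t).map fun i => i :: t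

/-! ### Elementary facts -/

theorem verts_cons (i : ℕ) (t : List ℕ) : verts (i :: t) = insert (t.length + 2) (verts t) := by
  ext v
  simp only [verts, List.length_cons, Finset.mem_insert, Finset.mem_Icc]
  omega

theorem not_mem_verts (t : List ℕ) : t.length + 2 ∉ verts t := by
  simp [verts]

theorem depth_cons_of_mem {i : ℕ} {t : List ℕ} {v : ℕ} (hv : v ∈ verts t) :
    depth (i :: t) v = depth t v := by
  have : v ≠ t.length + 2 := fun h => not_mem_verts t (h ▸ hv)
  simp [depth, this]

theorem depth_cons_new (i : ℕ) (t : List ℕ) :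
    depth (i :: t) (t.length + 2) = depth t i + 1 := by
  simp [depth]

theorem sum_verts_cons {M : Type*} [AddCommMonoid M] (g : ℕ → M) (i : ℕ) (t : List ℕ) :
    ∑ v ∈ verts (i :: t), g (depth (i :: t) v) = g (depth t i + 1) +
      ∑ v ∈ verts t, g (depth t v) := by
  rw [verts_cons, Finset.sum_insert (not_mem_verts t), depth_cons_new]
  congr 1
  exact Finset.sum_congr rfl fun v hv => by rw [depth_cons_of_mem hv]

theorem height_cons (i : ℕ) (t : List ℕ) :
    height (i :: t) = max (depth t i + 1) (height t) := by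
  unfold height
  rw [verts_cons, Finset.sup_insert, depth_cons_new]
  congr 1
  exact Finset.sup_congr rfl fun v hv => depth_cons_of_mem hv

theorem height_lt_iff {D : ℕ} (hD : 0 < D) (t : List ℕ) :
    height t < D ↔ ∀ v ∈ verts t, depth t v < D := by
  unfold height
  rw [Finset.sup_lt_iff]
  exact hD

/-! ### Expectations -/

/-- Expectation with respect to the law of `T_{n+1}`. -/
def EE (f : ℕ → ℝ) (hf : ∀ k, 0 < f k) (n : ℕ) (Φ : List ℕ → ℝ≥0∞) : ℝ≥0∞ :=
  ∑' t, treeLaw f hf n t * Φ t

variable {f : ℕ → ℝ} {hf : ∀ k, 0 < f k}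

theorem tsum_bind {α β : Type*} (p : PMF α) (g : α → PMF β) (Φ : β → ℝ≥0∞) :
    ∑' b, (p.bind g) b * Φ b = ∑' a, p a * ∑' b, g a b * Φ b := by
  simp only [PMF.bind_apply]
  simp_rw [← ENNReal.tsum_mul_right, ← ENNReal.tsum_mul_left]
  rw [ENNReal.tsum_comm]
  simp_rw [mul_assoc]

theorem tsum_pure {α : Type*} (a : α) (Φ : α → ℝ≥0∞) :
    ∑' b, (PMF.pure a) b * Φ b = Φ a := by
  rw [tsum_eq_single a]
  · simp
  · intro b hb
    rw [PMF.pure_apply, if_neg hb, zero_mul]

theorem tsum_map {α β : Type*} (p : PMF α) (g : α → β) (Φ : β → ℝ≥0∞) :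
    ∑' b, (p.map g) b * Φ b = ∑' a, p a * Φ (g a) := by
  unfold PMF.map
  rw [tsum_bind]
  simp only [Function.comp, tsum_pure]

theorem tsum_parent (t : List ℕ) (Φ : ℕ → ℝ≥0∞) :
    ∑' i, parentLaw f hf t i * Φ i = ∑ i ∈ verts t,
      ENNReal.ofReal (f (depth t i) / totalWeight f t) * Φ i := by
  rw [tsum_eq_sum (s := verts t)]
  · apply Finset.sum_congr rfl
    intro i hi
    simp only [parentLaw, PMF.ofFinset_apply, if_pos hi]
  · intro i hi
    simp only [parentLaw, PMF.ofFinset_apply, if_neg hi, zero_mul]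

theorem EE_zero (Φ : List ℕ → ℝ≥0∞) : EE f hf 0 Φ = Φ [] := by
  unfold EE treeLaw
  exact tsum_pure _ _

theorem EE_succ (n : ℕ) (Φ : List ℕ → ℝ≥0∞) : EE f hf (n + 1) Φ =
    EE f hf n (fun t => ∑ i ∈ verts t,
      ENNReal.ofReal (f (depth t i) / totalWeight f t) * Φ (i :: t)) := by
  unfold EE
  conv_lhs => unfold treeLaw
  rw [tsum_bind]
  congr 1; ext t
  rw [tsum_map, tsum_parent]

theorem EE_mono (n : ℕ) {Φ Ψ : List ℕ → ℝ≥0∞} (h : ∀ t, Φ t ≤ Ψ t) :
    EE f hf n Φ ≤ EE f hf n Ψ :=
  ENNReal.tsum_le_tsum fun t => mul_le_mul' le_rfl (h t)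

theorem EE_add (n : ℕ) (Φ Ψ : List ℕ → ℝ≥0∞) :
    EE f hf n (fun t => Φ t + Ψ t) = EE f hf n Φ + EE f hf n Ψ := by
  unfold EE
  rw [← ENNReal.tsum_add]
  simp_rw [mul_add]

theorem EE_const_mul (n : ℕ) (c : ℝ≥0∞) (Φ : List ℕ → ℝ≥0∞) :
    EE f hf n (fun t => c * Φ t) = c * EE f hf n Φ := by
  unfold EE
  rw [← ENNReal.tsum_mul_left]
  congr 1; ext t; ring

theorem toOuter_eq (n : ℕ) (S : Set (List ℕ)) [DecidablePred (· ∈ S)] :
    (treeLaw f hf n).toOuterMeasure S = EE f hf n (fun t => if t ∈ S then 1 else 0) := by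
  rw [PMF.toOuterMeasure_apply]
  unfold EE
  congr 1; ext t
  by_cases h : t ∈ S <;> simp [h]

end

end Pool.Agent.Lib.MP_bb6489_pr
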