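import Pool.Agent.Lib.MP_bb6489_pr.Sys
import Pool.Agent.Lib.MP_bb6489_pr.Tree

/-!
The deterministic system controls the depth of the tree.
-/

open MeasureTheory intervalIntegral Set Filter Topology
open scoped Nat ENNReal

namespace Pool.Agent.Lib.MP_bb6489_pr

noncomputable section

variable {f : ℕ → ℝ} {D : ℕ} {z T : ℝ}

/-- minus the logarithm of the survival function -/
def al (f : ℕ → ℝ) (D : ℕ) (z : ℝ) (k : ℕ) (u : ℝ) : ℝ :=
  f k * ∫ s in (0:ℝ)..u, (1 - (1 - z) * A f D z (k + 1) s)

/-- the hitting rate -/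
def aa (f : ℕ → ℝ) (D : ℕ) (z : ℝ) (k : ℕ) (u : ℝ) : ℝ := (1 - z) * f k * F f D z D (k + 1) u

theorem A_eq_exp {k : ℕ} (h : k < D) (u : ℝ) : A f D z k u = Real.exp (-al f D z k u) :=
  A_of_lt h u

theorem al_zero (k : ℕ) : al f D z k 0 = 0 := by simp [al]

theorem al_hasDeriv (k : ℕ) (u : ℝ) :
    HasDerivAt (al f D z k) (f k * (1 - (1 - z) * A f D z (k + 1) u)) u := by
  have hc : Continuous (fun s => (1 - (1 - z) * A f D z (k + 1) s)) := by
    have := A_cont (f := f) (D := D) (z := z) (k + 1)
    fun_prop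
  exact (intervalIntegral.integral_hasDerivAt_right (hc.intervalIntegrable _ _)
      hc.aestronglyMeasurable.stronglyMeasurableAtFilter hc.continuousAt).const_mul (f k)

theorem al_cont (k : ℕ) : Continuous (al f D z k) :=
  continuous_iff_continuousAt.mpr fun u => (al_hasDeriv k u).continuousAt

theorem aa_cont (k : ℕ) : Continuous (aa f D z k) := by
  have := F_cont (f := f) (D := D) (z := z) D (k + 1)
  unfold aa
  fun_prop

theorem aa_hasDeriv {k : ℕ} (h : k < D) (u : ℝ) :
    HasDerivAt (aa f D z k) ((1 - z) * f k * A f D z (k + 1) u * aa f D z (k + 1) u) u := by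
  rcases Nat.lt_or_ge (k + 1) D with h1 | h1
  · have h2 := (F_hasDeriv (f := f) (D := D) (z := z) h1 u).const_mul ((1 - z) * f k)
    have e : (1 - z) * f k * A f D z (k + 1) u * aa f D z (k + 1) u =
      (1 - z) * f k * ((1 - z) * f (k + 1) * A f D z (k + 1) u *
        F f D z D (k + 1 + 1) u) := by unfold aa; ring
    rw [e]
    exact h2
  · have h3 : k + 1 = D := by omega
    have e : aa f D z k = fun _ => (1 - z) * f k := by
      ext u
      unfold aa
      rw [h3, F_self, A_of_ge le_rfl]; ring
    rw [e, A_of_ge h1]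
    simpa using hasDerivAt_const u ((1 - z) * f k)

theorem aa_zero {k : ℕ} (h : k < D) :
    aa f D z k 0 = (1 - z) * f k * (if k + 1 = D then 1 else 0) := by
  unfold aa
  split_ifs with h1
  · rw [h1, F_self, A_of_ge le_rfl]; ring
  · rw [F_zero (show k + 1 < D by omega)]

theorem aa_nonneg (hf : ∀ k, 0 < f k) (hz : 0 ≤ z) (hz1 : z ≤ 1) {k : ℕ} (h : k < D) {u : ℝ}
    (hu : 0 ≤ u) : 0 ≤ aa f D z k u := by
  unfold aa
  have h1 := F_nonneg (D := D) hf hz hz1 D (k + 1) h u hu
  have h2 := (hf k).le
  have : 0 ≤ 1 - z := by linarith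
  positivity

theorem aa_le (hf : ∀ k, 0 < f k) (hz : 0 ≤ z) (hz1 : z ≤ 1) {k : ℕ} (h : k < D) {u : ℝ}
    (hu : 0 ≤ u) : aa f D z k u + (1 - z) * f k * A f D z (k + 1) u ≤ f k := by
  unfold aa
  have h1 := F_le (D := D) hf hz hz1 D (k + 1) le_rfl h u hu
  have h2 := (hf k).le
  have h3 : 0 ≤ 1 - z := by linarith
  have h4 : F f D z D (k + 1) u + A f D z (k + 1) u ≤ 1 := by linarith
  have h5 := mul_le_mul_of_nonneg_left h4 (mul_nonneg h3 h2)
  nlinarith

section potential

variable {ι : Type*} (s : Finset ι) (d : ι → ℕ)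

/-- total hitting rate -/
def sa (f : ℕ → ℝ) (D : ℕ) (z : ℝ) (s : Finset ι) (d : ι → ℕ) (u : ℝ) : ℝ :=
  ∑ v ∈ s, aa f D z (d v) u

/-- total survival probability -/
def se (f : ℕ → ℝ) (D : ℕ) (z : ℝ) (s : Finset ι) (d : ι → ℕ) (u : ℝ) : ℝ :=
  Real.exp (-∑ v ∈ s, al f D z (d v) u)

/-- the probability that the target is hit before time `T` and before any mark -/
def Ls (f : ℕ → ℝ) (D : ℕ) (z T : ℝ) (s : Finset ι) (d : ι → ℕ) : ℝ :=
  ∫ u in (0:ℝ)..T, sa f D z s d u * se f D z s d u

theorem sa_cont : Continuous (sa f D z s d) := by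
  unfold sa
  exact continuous_finsetSum _ fun v _ => aa_cont (d v)

theorem se_cont : Continuous (se f D z s d) := by
  unfold se
  exact Real.continuous_exp.comp (continuous_finsetSum _ fun v _ => al_cont (d v)).neg

theorem se_hasDeriv (u : ℝ) : HasDerivAt (se f D z s d)
    (-(∑ v ∈ s, f (d v) * (1 - (1 - z) * A f D z (d v + 1) u)) * se f D z s d u) u := by
  have h1 : HasDerivAt (fun u => -∑ v ∈ s, al f D z (d v) u)
      (-(∑ v ∈ s, f (d v) * (1 - (1 - z) * A f D z (d v + 1) u))) u := by
    have h2 : HasDerivAt (fun u => ∑ v ∈ s, al f D z (d v) u)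
      (∑ v ∈ s, f (d v) * (1 - (1 - z) * A f D z (d v + 1) u)) u :=
      HasDerivAt.fun_sum fun v _ => al_hasDeriv (d v) u
    exact h2.fun_neg
  have h3 := h1.exp
  rw [mul_comm] at h3
  exact h3

theorem sa_hasDeriv (hd : ∀ v ∈ s, d v < D) (u : ℝ) : HasDerivAt (sa f D z s d)
    (∑ v ∈ s, (1 - z) * f (d v) * A f D z (d v + 1) u * aa f D z (d v + 1) u) u :=
  HasDerivAt.fun_sum fun v hv => aa_hasDeriv (hd v hv) u

theorem se_zero : se f D z s d 0 = 1 := by simp [se, al_zero]

theorem se_pos (u : ℝ) : 0 < se f D z s d u := Real.exp_pos _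

theorem sa_nonneg (hf : ∀ k, 0 < f k) (hz : 0 ≤ z) (hz1 : z ≤ 1) (hd : ∀ v ∈ s, d v < D)
    {u : ℝ} (hu : 0 ≤ u) : 0 ≤ sa f D z s d u :=
  Finset.sum_nonneg fun v hv => aa_nonneg hf hz hz1 (hd v hv) hu

theorem Ls_nonneg (hf : ∀ k, 0 < f k) (hz : 0 ≤ z) (hz1 : z ≤ 1) (hd : ∀ v ∈ s, d v < D)
    (hT : 0 ≤ T) : 0 ≤ Ls f D z T s d := by
  apply intervalIntegral.integral_nonneg hT
  intro u hu
  exact mul_nonneg (sa_nonneg s d hf hz hz1 hd hu.1) (se_pos s d u).le

theorem Ls_add_se_le (hf : ∀ k, 0 < f k) (hz : 0 ≤ z) (hz1 : z ≤ 1) (hd : ∀ v ∈ s, d v < D)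
    (hT : 0 ≤ T) : Ls f D z T s d + se f D z s d T ≤ 1 := by
  have hc : Continuous (fun u => (∑ v ∈ s, f (d v) * (1 - (1 - z) * A f D z (d v + 1) u)) *
      se f D z s d u) := by
    apply Continuous.mul _ (se_cont s d)
    apply continuous_finsetSum
    intro v _
    have := A_cont (f := f) (D := D) (z := z) (d v + 1)
    fun_prop
  have h1 : ∫ u in (0:ℝ)..T, (∑ v ∈ s, f (d v) * (1 - (1 - z) * A f D z (d v + 1) u)) *
      se f D z s d u = 1 - se f D z s d T := by
    rw [intervalIntegral.integral_eq_sub_of_hasDerivAt (f := fun u => -se f D z s d u)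
      (fun x _ => ?_) (hc.intervalIntegrable _ _)]
    · rw [se_zero]; ring
    · have := (se_hasDeriv (f := f) (D := D) (z := z) s d x).fun_neg
      rw [neg_mul, neg_neg] at this
      exact this
  have h2 : Ls f D z T s d ≤ ∫ u in (0:ℝ)..T,
      (∑ v ∈ s, f (d v) * (1 - (1 - z) * A f D z (d v + 1) u)) * se f D z s d u := by
    apply intervalIntegral.integral_mono_on hT
    · exact ((sa_cont s d).mul (se_cont s d)).intervalIntegrable _ _
    · exact hc.intervalIntegrable _ _
    · intro u hu
      apply mul_le_mul_of_nonneg_right _ (se_pos s d u).le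
      apply Finset.sum_le_sum
      intro v hv
      have h3 := aa_le (D := D) hf hz hz1 (hd v hv) hu.1
      linarith
  linarith

/-- one more vertex, not at the target -/
theorem Ls_insert (k : ℕ) (hk : k < D) {κ : Type*} (s' : Finset κ) (d' : κ → ℕ)
    (h : ∀ g : ℕ → ℝ, ∑ v ∈ s', g (d' v) = g k + ∑ v ∈ s, g (d v)) :
    Ls f D z T s' d' = ∫ u in (0:ℝ)..T,
      (sa f D z s d u + aa f D z k u) * A f D z k u * se f D z s d u := by
  unfold Ls
  congr 1; ext u
  have h1 : sa f D z s' d' u = sa f D z s d u + aa f D z k u := by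
    unfold sa; rw [h (fun j => aa f D z j u)]; ring
  have h2 : se f D z s' d' u = A f D z k u * se f D z s d u := by
    unfold se
    rw [h (fun j => al f D z j u), neg_add, Real.exp_add, A_eq_exp hk]
  rw [h1, h2]; ring

theorem se_insert (k : ℕ) (hk : k < D) {κ : Type*} (s' : Finset κ) (d' : κ → ℕ)
    (h : ∀ g : ℕ → ℝ, ∑ v ∈ s', g (d' v) = g k + ∑ v ∈ s, g (d v)) (u : ℝ) :
    se f D z s' d' u = A f D z k u * se f D z s d u := by
  unfold se
  rw [h (fun j => al f D z j u), neg_add, Real.exp_add, A_eq_exp hk]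

/-- The backward identity. -/
theorem identity (hd : ∀ v ∈ s, d v < D) :
    ∑ v ∈ s, (1 - z) * f (d v) * ((if d v + 1 = D then 1 else 0) +
      ∫ u in (0:ℝ)..T, (sa f D z s d u + aa f D z (d v + 1) u) * A f D z (d v + 1) u *
        se f D z s d u) =
    (∑ v ∈ s, f (d v)) * Ls f D z T s d + sa f D z s d T * se f D z s d T := by
  have hA : ∀ v, Continuous (fun u => A f D z (d v + 1) u) := fun v => A_cont _
  have haa : ∀ v, Continuous (fun u => aa f D z (d v + 1) u) := fun v => aa_cont _
  have hsa := sa_cont (f := f) (D := D) (z := z) s d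
  have hse := se_cont (f := f) (D := D) (z := z) s d
  have hcv : ∀ v, Continuous (fun u => (sa f D z s d u + aa f D z (d v + 1) u) *
      A f D z (d v + 1) u * se f D z s d u) := fun v =>
    ((hsa.add (haa v)).mul (hA v)).mul hse
  set E' : ℝ → ℝ := fun u => (∑ v ∈ s, (1 - z) * f (d v) * A f D z (d v + 1) u *
      aa f D z (d v + 1) u) * se f D z s d u + sa f D z s d u *
      (-(∑ v ∈ s, f (d v) * (1 - (1 - z) * A f D z (d v + 1) u)) * se f D z s d u) with hE'
  have hE'c : Continuous E' := by
    rw [hE']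
    apply Continuous.add
    · apply Continuous.mul _ hse
      apply continuous_finsetSum; intro v _
      exact (continuous_const.mul (hA v)).mul (haa v)
    · apply Continuous.mul hsa
      apply Continuous.mul _ hse
      apply Continuous.neg
      apply continuous_finsetSum; intro v _
      exact continuous_const.mul (continuous_const.sub (continuous_const.mul (hA v)))
  have hint : ∫ u in (0:ℝ)..T, E' u = sa f D z s d T * se f D z s d T - sa f D z s d 0 := by
    rw [intervalIntegral.integral_eq_sub_of_hasDerivAt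
      (f := fun u => sa f D z s d u * se f D z s d u) (fun x _ => ?_)
      (hE'c.intervalIntegrable _ _)]
    · rw [se_zero, mul_one]
    · exact (sa_hasDeriv s d hd x).fun_mul (se_hasDeriv s d x)
  have h0 : sa f D z s d 0 = ∑ v ∈ s, (1 - z) * f (d v) * (if d v + 1 = D then 1 else 0) := by
    unfold sa
    exact Finset.sum_congr rfl fun v hv => aa_zero (hd v hv)
  have h1 : ∑ v ∈ s, (1 - z) * f (d v) *
      ∫ u in (0:ℝ)..T, (sa f D z s d u + aa f D z (d v + 1) u) * A f D z (d v + 1) u *
        se f D z s d u = ∫ u in (0:ℝ)..T, (E' u + (∑ v ∈ s, f (d v)) *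
        (sa f D z s d u * se f D z s d u)) := by
    simp_rw [← intervalIntegral.integral_const_mul]
    have hcv2 : ∀ v ∈ s, IntervalIntegrable (fun u => (1 - z) * f (d v) *
        ((sa f D z s d u + aa f D z (d v + 1) u) *
        A f D z (d v + 1) u * se f D z s d u)) volume 0 T := fun v _ =>
      (continuous_const.mul (hcv v)).intervalIntegrable _ _
    rw [← intervalIntegral.integral_finsetSum hcv2]
    congr 1; ext u
    have h2 : ∑ v ∈ s, (1 - z) * f (d v) * ((sa f D z s d u + aa f D z (d v + 1) u) *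
        A f D z (d v + 1) u * se f D z s d u) =
        (∑ v ∈ s, (1 - z) * f (d v) * A f D z (d v + 1) u * aa f D z (d v + 1) u) *
        se f D z s d u +
        (∑ v ∈ s, (1 - z) * f (d v) * A f D z (d v + 1) u) * (sa f D z s d u *
        se f D z s d u) := by
      rw [Finset.sum_mul, Finset.sum_mul, ← Finset.sum_add_distrib]
      exact Finset.sum_congr rfl fun v _ => by ring
    have h3 : ∑ v ∈ s, f (d v) * (1 - (1 - z) * A f D z (d v + 1) u) =
        (∑ v ∈ s, f (d v)) - ∑ v ∈ s, (1 - z) * f (d v) * A f D z (d v + 1) u := by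
      rw [← Finset.sum_sub_distrib]
      exact Finset.sum_congr rfl fun v _ => by ring
    rw [h2, hE']
    simp only
    rw [h3]; ring
  have hc3 : IntervalIntegrable (fun u => (∑ v ∈ s, f (d v)) *
      (sa f D z s d u * se f D z s d u)) volume 0 T :=
    (continuous_const.mul (hsa.mul hse)).intervalIntegrable _ _
  simp_rw [mul_add]
  rw [Finset.sum_add_distrib, h1, intervalIntegral.integral_add
    (hE'c.intervalIntegrable _ _) hc3,
    intervalIntegral.integral_const_mul, hint, h0]
  unfold Ls
  ring

end potential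

/-! ### Application to trees -/

/-- hitting probability of the marked process started from the tree `t` -/
def Lh (f : ℕ → ℝ) (D : ℕ) (z T : ℝ) (t : List ℕ) : ℝ :=
  if height t < D then Ls f D z T (verts t) (depth t) else 1

/-- survival probability started from the tree `t` -/
def Ph (f : ℕ → ℝ) (D : ℕ) (z T : ℝ) (t : List ℕ) : ℝ :=
  if height t < D then se f D z (verts t) (depth t) T else 0

theorem Lh_cons (i : ℕ) (t : List ℕ) (ht : height t < D) (hi : depth t i < D) :
    Lh f D z T (i :: t) = (if depth t i + 1 = D then 1 else 0) +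
      ∫ u in (0:ℝ)..T, (sa f D z (verts t) (depth t) u + aa f D z (depth t i + 1) u) *
        A f D z (depth t i + 1) u * se f D z (verts t) (depth t) u := by
  unfold Lh
  rw [height_cons]
  split_ifs with h1 h2 h2
  · exfalso; have := lt_of_le_of_lt (le_max_left _ _) h1; omega
  · rw [zero_add]
    exact Ls_insert (verts t) (depth t) (depth t i + 1)
      (lt_of_le_of_lt (le_max_left _ _) h1) _ _
      (fun g => sum_verts_cons g i t)
  · have : ∀ u, A f D z (depth t i + 1) u = 0 := fun u => A_of_ge (by omega) u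
    simp [this]
  · exfalso; apply h1; exact max_lt (by omega) ht

theorem Ph_cons (i : ℕ) (t : List ℕ) (ht : height t < D) :
    Ph f D z T (i :: t) ≤ A f D z (depth t i + 1) T * Ph f D z T t := by
  unfold Ph
  rw [height_cons, if_pos ht]
  split_ifs with h1
  · rw [se_insert (verts t) (depth t) (depth t i + 1)
      (lt_of_le_of_lt (le_max_left _ _) h1) _ _ (fun g => sum_verts_cons g i t)]
  · exact mul_nonneg (A_nonneg _ _) (se_pos _ _ _).le

theorem hit_cons (i : ℕ) (t : List ℕ) (ht : ¬ height t < D) : ¬ height (i :: t) < D := by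
  rw [height_cons]
  intro h; exact ht (lt_of_le_of_lt (le_max_right _ _) h)

theorem Lh_nonneg (hf : ∀ k, 0 < f k) (hz : 0 ≤ z) (hz1 : z ≤ 1) (hT : 0 ≤ T) (hD : 0 < D)
    (t : List ℕ) : 0 ≤ Lh f D z T t := by
  unfold Lh; split_ifs with h
  · exact Ls_nonneg _ _ hf hz hz1 ((height_lt_iff hD t).mp h) hT
  · exact zero_le_one

theorem Ph_nonneg (t : List ℕ) : 0 ≤ Ph f D z T t := by
  unfold Ph; split_ifs with h
  · exact (se_pos _ _ _).le
  · exact le_rfl

theorem Lh_add_Ph_le (hf : ∀ k, 0 < f k) (hz : 0 ≤ z) (hz1 : z ≤ 1) (hT : 0 ≤ T) (hD : 0 < D)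
    (t : List ℕ) : Lh f D z T t + Ph f D z T t ≤ 1 := by
  unfold Lh Ph; split_ifs with h
  · exact Ls_add_se_le _ _ hf hz hz1 ((height_lt_iff hD t).mp h) hT
  · simp

theorem Lh_nil (hD : 0 < D) : Lh f D z T [] = F f D z D 0 T := by
  have hv : verts [] = {1} := by simp [verts]
  have h0 : height [] < D := by
    rw [height_lt_iff hD]; intro v _; simpa [depth] using hD
  unfold Lh
  rw [if_pos h0, F_of_lt hD]
  unfold Ls
  congr 1; ext u
  simp only [sa, se, hv, Finset.sum_singleton, depth, aa]
  rw [← A_eq_exp hD]; ring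

theorem Ph_nil (hD : 0 < D) : Ph f D z T [] = A f D z 0 T := by
  have hv : verts [] = {1} := by simp [verts]
  have h0 : height [] < D := by
    rw [height_lt_iff hD]; intro v _; simpa [depth] using hD
  unfold Ph
  rw [if_pos h0]
  simp only [se, hv, Finset.sum_singleton, depth]
  rw [← A_eq_exp hD]

/-- one step of the chain applied to the hitting probability -/
theorem Lh_step (hf : ∀ k, 0 < f k) (hD : 0 < D) (t : List ℕ) (ht : height t < D) :
    (1 - z) * ∑ i ∈ verts t, f (depth t i) / totalWeight f t * Lh f D z T (i :: t) =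
      Lh f D z T t + sa f D z (verts t) (depth t) T * se f D z (verts t) (depth t) T /
        totalWeight f t := by
  have hd := (height_lt_iff hD t).mp ht
  have hid := identity (f := f) (D := D) (z := z) (T := T) (verts t) (depth t) hd
  have hZ := totalWeight_pos hf t
  have e1 : Lh f D z T t = Ls f D z T (verts t) (depth t) := by simp [Lh, ht]
  have e2 : (1 - z) * ∑ i ∈ verts t, f (depth t i) / totalWeight f t * Lh f D z T (i :: t) =
    (∑ v ∈ verts t, (1 - z) * f (depth t v) * ((if depth t v + 1 = D then 1 else 0) +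
      ∫ u in (0:ℝ)..T, (sa f D z (verts t) (depth t) u + aa f D z (depth t v + 1) u) *
        A f D z (depth t v + 1) u * se f D z (verts t) (depth t) u)) / totalWeight f t := by
    rw [Finset.mul_sum, Finset.sum_div]
    apply Finset.sum_congr rfl
    intro i hi
    rw [Lh_cons i t ht (hd i hi)]
    ring
  rw [e2, hid, e1]
  have e3 : (∑ v ∈ verts t, f (depth t v)) = totalWeight f t := rfl
  rw [e3]
  field_simp

theorem Mh_step (hf : ∀ k, 0 < f k) (hz : 0 ≤ z) (hz1 : z ≤ 1) (hT : 0 ≤ T) (hD : 0 < D)
    (t : List ℕ) :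
    (1 - z) * ∑ i ∈ verts t, f (depth t i) / totalWeight f t *
      (Lh f D z T (i :: t) + Ph f D z T (i :: t)) ≤ Lh f D z T t + Ph f D z T t := by
  have hZ := totalWeight_pos hf t
  by_cases ht : height t < D
  · have hd := (height_lt_iff hD t).mp ht
    have h1 := Lh_step (T := T) (z := z) hf hD t ht
    simp_rw [mul_add]
    rw [Finset.sum_add_distrib, mul_add, h1]
    have h2 : (1 - z) * ∑ i ∈ verts t, f (depth t i) / totalWeight f t *
        Ph f D z T (i :: t) ≤ (∑ i ∈ verts t, (1 - z) * f (depth t i) *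
          A f D z (depth t i + 1) T) * Ph f D z T t / totalWeight f t := by
      rw [Finset.mul_sum, Finset.sum_mul, Finset.sum_div]
      apply Finset.sum_le_sum
      intro i hi
      have h3 := Ph_cons (f := f) (z := z) (T := T) i t ht
      have h4 : 0 ≤ (1 - z) * (f (depth t i) / totalWeight f t) := by
        have := hf (depth t i)
        have : 0 ≤ 1 - z := by linarith
        positivity
      have h5 := mul_le_mul_of_nonneg_left h3 h4
      calc _ = (1 - z) * (f (depth t i) / totalWeight f t) * Ph f D z T (i :: t) := by ring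
        _ ≤ _ := h5
        _ = _ := by ring
    have h6 : Ph f D z T t = se f D z (verts t) (depth t) T := by simp [Ph, ht]
    have h7 : sa f D z (verts t) (depth t) T + (∑ i ∈ verts t, (1 - z) * f (depth t i) *
          A f D z (depth t i + 1) T) ≤ totalWeight f t := by
      unfold sa totalWeight
      rw [← Finset.sum_add_distrib]
      exact Finset.sum_le_sum fun v hv => aa_le hf hz hz1 (hd v hv) hT
    have h8 := Ph_nonneg (f := f) (D := D) (z := z) (T := T) t
    have h9 := mul_le_mul_of_nonneg_right h7 h8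
    have h10 : sa f D z (verts t) (depth t) T * se f D z (verts t) (depth t) T /
        totalWeight f t + (∑ i ∈ verts t, (1 - z) * f (depth t i) *
          A f D z (depth t i + 1) T) * Ph f D z T t / totalWeight f t ≤ Ph f D z T t := by
      rw [← h6, ← add_div, div_le_iff₀ hZ]
      linarith
    linarith
  · have h1 : ∀ i, Lh f D z T (i :: t) + Ph f D z T (i :: t) = 1 := by
      intro i
      have := hit_cons i t ht
      simp [Lh, Ph, this]
    have h2 : Lh f D z T t + Ph f D z T t = 1 := by simp [Lh, Ph, ht]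
    simp_rw [h1]
    rw [h2]
    simp only [mul_one]
    rw [← Finset.sum_div]
    have e3 : (∑ v ∈ verts t, f (depth t v)) = totalWeight f t := rfl
    rw [e3, div_self hZ.ne']
    linarith

theorem chainA (hf : ∀ k, 0 < f k) (hz : 0 ≤ z) (hz1 : z ≤ 1) (hT : 0 ≤ T) (hD : 0 < D)
    (n : ℕ) : ENNReal.ofReal ((1 - z) ^ n) * EE f hf n (fun t => if height t < D then 0 else 1) ≤
      ENNReal.ofReal (F f D z D 0 T + A f D z 0 T) := by
  have h0 : 0 ≤ 1 - z := by linarith
  have key : ∀ n, ENNReal.ofReal ((1 - z) ^ n) * EE f hf n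
      (fun t => ENNReal.ofReal (Lh f D z T t + Ph f D z T t)) ≤
      ENNReal.ofReal (F f D z D 0 T + A f D z 0 T) := by
    intro n
    induction n with
    | zero => rw [EE_zero, Lh_nil hD, Ph_nil hD]; simp
    | succ n ih =>
      refine le_trans ?_ ih
      rw [pow_succ, ENNReal.ofReal_mul (by positivity), mul_assoc]
      apply mul_le_mul' le_rfl
      rw [EE_succ, ← EE_const_mul]
      apply EE_mono
      intro t
      have hs := Mh_step (T := T) hf hz hz1 hT hD t
      refine le_trans (le_of_eq ?_) (ENNReal.ofReal_le_ofReal hs)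
      rw [ENNReal.ofReal_mul h0, ENNReal.ofReal_sum_of_nonneg]
      · congr 1
        apply Finset.sum_congr rfl
        intro i _
        rw [ENNReal.ofReal_mul (div_pos (hf _) (totalWeight_pos hf t)).le]
      · intro i _
        apply mul_nonneg (div_pos (hf _) (totalWeight_pos hf t)).le
        exact add_nonneg (Lh_nonneg hf hz hz1 hT hD _) (Ph_nonneg _)
  refine le_trans ?_ (key n)
  apply mul_le_mul' le_rfl
  apply EE_mono
  intro t
  split_ifs with h
  · simp
  · simp [Lh, Ph, h]

theorem Yh_step (hf : ∀ k, 0 < f k) (hz : 0 ≤ z) (hz1 : z ≤ 1) (hT : 0 ≤ T) (hD : 0 < D)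
    (t : List ℕ) :
    (1 - z) * (∑ i ∈ verts t, f (depth t i) / totalWeight f t * (1 - Lh f D z T (i :: t))) +
      z * (if height t < D then 1 else 0) ≤ 1 - Lh f D z T t := by
  have hZ := totalWeight_pos hf t
  have e3 : (∑ v ∈ verts t, f (depth t v)) = totalWeight f t := rfl
  by_cases ht : height t < D
  · have hd := (height_lt_iff hD t).mp ht
    have h1 := Lh_step (T := T) (z := z) hf hD t ht
    simp_rw [mul_sub, mul_one]
    rw [Finset.sum_sub_distrib, mul_sub, h1, ← Finset.sum_div, e3, div_self hZ.ne', if_pos ht]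
    have h2 : 0 ≤ sa f D z (verts t) (depth t) T * se f D z (verts t) (depth t) T /
        totalWeight f t := by
      have := sa_nonneg (verts t) (depth t) hf hz hz1 hd hT
      have := se_pos (f := f) (D := D) (z := z) (verts t) (depth t) T
      positivity
    linarith
  · have h1 : ∀ i, Lh f D z T (i :: t) = 1 := by
      intro i
      have := hit_cons i t ht
      simp [Lh, this]
    have h2 : Lh f D z T t = 1 := by simp [Lh, ht]
    simp [h1, h2, ht]

theorem chainB (hf : ∀ k, 0 < f k) (hz : 0 ≤ z) (hz1 : z ≤ 1) (hT : 0 ≤ T) (hD : 0 < D)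
    (n : ℕ) : ENNReal.ofReal (1 - (1 - z) ^ n) *
      EE f hf n (fun t => if height t < D then 1 else 0) ≤
      ENNReal.ofReal (1 - F f D z D 0 T) := by
  have h0 : 0 ≤ 1 - z := by linarith
  have hanti : ∀ n, EE f hf (n + 1) (fun t => if height t < D then 1 else 0) ≤
      EE f hf n (fun t => if height t < D then 1 else 0) := by
    intro n
    rw [EE_succ]
    apply EE_mono
    intro t
    have hZ := totalWeight_pos hf t
    have e3 : (∑ v ∈ verts t, f (depth t v)) = totalWeight f t := rfl
    split_ifs with ht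
    · calc _ ≤ ∑ i ∈ verts t, ENNReal.ofReal (f (depth t i) / totalWeight f t) * 1 := by
            apply Finset.sum_le_sum
            intro i _
            apply mul_le_mul' le_rfl
            split_ifs <;> simp
        _ = 1 := by
            simp only [mul_one]
            rw [← ENNReal.ofReal_sum_of_nonneg (fun i _ => (div_pos (hf _) hZ).le),
              ← Finset.sum_div, e3, div_self hZ.ne']
            simp
    · apply le_of_eq
      apply Finset.sum_eq_zero
      intro i _
      rw [if_neg (hit_cons i t ht), mul_zero]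
  have key : ∀ n, ENNReal.ofReal ((1 - z) ^ n) * EE f hf n
      (fun t => ENNReal.ofReal (1 - Lh f D z T t)) + ENNReal.ofReal (1 - (1 - z) ^ n) *
      EE f hf n (fun t => if height t < D then 1 else 0) ≤
      ENNReal.ofReal (1 - F f D z D 0 T) := by
    intro n
    induction n with
    | zero => rw [EE_zero, Lh_nil hD]; simp
    | succ n ih =>
      refine le_trans ?_ ih
      have hp : 0 ≤ (1 - z) ^ n := by positivity
      have hp1 : (1 - z) ^ n ≤ 1 := pow_le_one₀ h0 (by linarith)
      have e1 : ENNReal.ofReal (1 - (1 - z) ^ (n + 1)) =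
          ENNReal.ofReal ((1 - z) ^ n) * ENNReal.ofReal z + ENNReal.ofReal (1 - (1 - z) ^ n) := by
        rw [← ENNReal.ofReal_mul hp, ← ENNReal.ofReal_add (by positivity) (by linarith)]
        congr 1; rw [pow_succ]; ring
      have e2 : ENNReal.ofReal ((1 - z) ^ (n + 1)) = ENNReal.ofReal ((1 - z) ^ n) *
          ENNReal.ofReal (1 - z) := by
        rw [← ENNReal.ofReal_mul hp, pow_succ]
      calc _ ≤ ENNReal.ofReal ((1 - z) ^ n) * ENNReal.ofReal (1 - z) * EE f hf (n + 1)
            (fun t => ENNReal.ofReal (1 - Lh f D z T t)) +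
            (ENNReal.ofReal ((1 - z) ^ n) * ENNReal.ofReal z +
              ENNReal.ofReal (1 - (1 - z) ^ n)) *
            EE f hf n (fun t => if height t < D then 1 else 0) := by
            rw [e1, e2]
            exact add_le_add le_rfl (mul_le_mul' le_rfl (hanti n))
        _ = ENNReal.ofReal ((1 - z) ^ n) * (ENNReal.ofReal (1 - z) * EE f hf (n + 1)
            (fun t => ENNReal.ofReal (1 - Lh f D z T t)) + ENNReal.ofReal z *
            EE f hf n (fun t => if height t < D then 1 else 0)) +
              ENNReal.ofReal (1 - (1 - z) ^ n) *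
            EE f hf n (fun t => if height t < D then 1 else 0) := by ring
        _ ≤ _ := by
            apply add_le_add _ le_rfl
            apply mul_le_mul' le_rfl
            rw [EE_succ, ← EE_const_mul, ← EE_const_mul, ← EE_add]
            apply EE_mono
            intro t
            have hs := Yh_step (T := T) hf hz hz1 hT hD t
            refine le_trans (le_of_eq ?_) (ENNReal.ofReal_le_ofReal hs)
            have hLn : ∀ i, 0 ≤ 1 - Lh f D z T (i :: t) := by
              intro i
              have h1 := Lh_add_Ph_le hf hz hz1 hT hD (i :: t)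
              have h2 := Ph_nonneg (f := f) (D := D) (z := z) (T := T) (i :: t)
              linarith
            have hwn : ∀ i, 0 ≤ f (depth t i) / totalWeight f t :=
              fun i => (div_pos (hf _) (totalWeight_pos hf t)).le
            rw [ENNReal.ofReal_add, ENNReal.ofReal_mul h0, ENNReal.ofReal_sum_of_nonneg,
              ENNReal.ofReal_mul hz]
            · congr 1
              · congr 1
                apply Finset.sum_congr rfl
                intro i _
                rw [ENNReal.ofReal_mul (hwn i)]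
              · split_ifs <;> simp
            · intro i _; exact mul_nonneg (hwn i) (hLn i)
            · apply mul_nonneg h0
              exact Finset.sum_nonneg fun i _ => mul_nonneg (hwn i) (hLn i)
            · split_ifs <;> simp [hz]
  exact le_trans (le_add_left le_rfl) (key n)

end

end Pool.Agent.Lib.MP_bb6489_pr
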