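import Pool.Agent.Lib.MP_bb6489_pr.Sys

/-!
Duality between the forward first moments and the backward functions.
-/

open MeasureTheory intervalIntegral Set Filter Topology

namespace Pool.Agent.Lib.MP_bb6489_pr

variable {f : ℕ → ℝ} {D : ℕ} {z T : ℝ}

/-- integration by parts against `W (k+1)` for a function vanishing at zero -/
theorem parts_W (k : ℕ) {g g' : ℝ → ℝ} (hg : ∀ x, HasDerivAt g (g' x) x) (hg' : Continuous g')
    (h0 : g 0 = 0) :
    ∫ s in (0:ℝ)..T, (1 - z) * f k * A f D z k s * g s * W f D z T k s =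
      ∫ s in (0:ℝ)..T, g' s * W f D z T (k + 1) s := by
  have h := intervalIntegral.integral_mul_deriv_eq_deriv_mul
    (a := 0) (b := T) (u := g) (v := W f D z T (k + 1)) (u' := g')
    (v' := fun s => -((1 - z) * f k * A f D z k s * W f D z T k s))
    (fun x _ => hg x) (fun x _ => W_hasDeriv k x) (hg'.intervalIntegrable _ _)
    ((W_integrand_cont k).neg.intervalIntegrable _ _)
  rw [W_end, h0] at h
  have e : ∫ s in (0:ℝ)..T, (1 - z) * f k * A f D z k s * g s * W f D z T k s =
      -∫ x in (0:ℝ)..T, g x * -((1 - z) * f k * A f D z k x * W f D z T k x) := by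
    rw [← intervalIntegral.integral_neg]
    congr 1; ext s; ring
  rw [e, h]; ring

theorem J_eq {q k : ℕ} (_hq : q ≤ D) (hk : k < q) :
    ∫ s in (0:ℝ)..T, (1 - z) * f k * A f D z k s * F f D z q (k + 1) s * W f D z T k s =
      F f D z q 0 T := by
  induction k with
  | zero =>
    rw [F_of_lt hk]
    congr 1; ext s; rw [W_zero]; ring
  | succ k ih =>
    rw [← ih (by omega)]
    rw [parts_W k (fun x => F_hasDeriv hk x) (F_integrand_cont q (k+1)) (F_zero hk)]

theorem K_cont (k : ℕ) : Continuous (fun s => f k * (1 - (1 - z) * A f D z (k + 1) s) *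
    A f D z k s) := by
  have h1 := A_cont (f := f) (D := D) (z := z) (k + 1)
  have h2 := A_cont (f := f) (D := D) (z := z) k
  fun_prop

theorem K_eq {q : ℕ} (hq : q < D) :
    ∫ s in (0:ℝ)..T, f q * (1 - (1 - z) * A f D z (q + 1) s) * A f D z q s * W f D z T q s =
      F f D z q 0 T := by
  cases q with
  | zero =>
    rw [F_self]
    have : ∫ s in (0:ℝ)..T, f 0 * (1 - (1 - z) * A f D z (0 + 1) s) * A f D z 0 s *
        W f D z T 0 s = ∫ s in (0:ℝ)..T, f 0 * (1 - (1 - z) * A f D z (0 + 1) s) *
        A f D z 0 s := by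
      congr 1; ext s; rw [W_zero]; ring
    rw [this, intervalIntegral.integral_eq_sub_of_hasDerivAt
      (f := fun s => 1 - A f D z 0 s) (fun x _ => ?_) ((K_cont 0).intervalIntegrable _ _)]
    · simp [A_zero hq]
    · have := (A_hasDeriv (f := f) (z := z) hq x).const_sub 1
      rw [neg_neg] at this
      exact this
  | succ q =>
    rw [← J_eq (f := f) (z := z) (T := T) (q := q + 1) (k := q) (by omega) (by omega)]
    rw [parts_W q (g := F f D z (q+1) (q+1)) (g' := fun s => f (q+1) *
      (1 - (1 - z) * A f D z (q + 1 + 1) s) * A f D z (q+1) s) ?_ (K_cont (q+1))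
      (F_self_zero hq)]
    intro x
    have e : F f D z (q+1) (q+1) = fun u => 1 - A f D z (q+1) u := by
      ext u; exact F_self _ _
    rw [e]
    have := (A_hasDeriv (f := f) (z := z) hq x).const_sub 1
    rw [neg_neg] at this
    exact this

theorem c_step {q : ℕ} (hq : q < D) (hz1 : z < 1) :
    F f D z q 0 T = z / (1 - z) * W f D z T (q + 1) 0 + F f D z (q + 1) 0 T := by
  rw [← K_eq hq, ← J_eq (f := f) (z := z) (T := T) (q := q + 1) (k := q) (by omega) (by omega),
    W_succ, ← intervalIntegral.integral_const_mul, ← intervalIntegral.integral_add]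
  · congr 1; ext s
    rw [F_self]
    have : (1 - z) ≠ 0 := by linarith
    field_simp
    ring
  · exact ((W_integrand_cont q).const_mul _).intervalIntegrable _ _
  · have h1 := F_integrand_cont (f := f) (D := D) (z := z) (q+1) q
    have h2 := W_cont (f := f) (D := D) (z := z) (T := T) q
    exact (h1.mul h2).intervalIntegrable _ _

theorem c_zero : F f D z 0 0 T = 1 - A f D z 0 T := F_self 0 T

theorem c_sum {i q : ℕ} (hi : i ≤ q) (hq : q ≤ D) (hz1 : z < 1) :
    F f D z i 0 T = z / (1 - z) * ∑ k ∈ Finset.Ico i q, W f D z T (k + 1) 0 +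
      F f D z q 0 T := by
  induction q, hi using Nat.le_induction with
  | base => simp
  | succ q hi ih =>
    rw [ih (by omega), c_step (by omega) hz1, Finset.sum_Ico_succ_top hi]
    ring

theorem c_anti (hf : ∀ k, 0 < f k) (hz : 0 ≤ z) (hz1 : z < 1) (hT : 0 ≤ T) {i q : ℕ}
    (hi : i ≤ q) (hq : q ≤ D) : F f D z q 0 T ≤ F f D z i 0 T := by
  rw [c_sum hi hq hz1]
  have : 0 ≤ z / (1 - z) * ∑ k ∈ Finset.Ico i q, W f D z T (k + 1) 0 := by
    apply mul_nonneg (div_nonneg hz (by linarith))
    exact Finset.sum_nonneg fun k _ => W_nonneg hf hz1.le _ _ hT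
  linarith

/-- the last level: the hitting probability -/
theorem W_last (hD : 0 < D) : W f D z T D 0 = F f D z D 0 T := by
  obtain ⟨q, rfl⟩ : ∃ q, D = q + 1 := ⟨D - 1, by omega⟩
  rw [← J_eq (f := f) (z := z) (T := T) (q := q + 1) (k := q) le_rfl (by omega), W_succ]
  congr 1; ext s
  rw [F_self, A_of_ge le_rfl]; ring

theorem W_mul_le (hf : ∀ k, 0 < f k) (hz : 0 ≤ z) (hz1 : z < 1) {k : ℕ} (hk : k ≤ D)
    {s : ℝ} (hs : 0 ≤ s) (hsT : s ≤ T) :
    W f D z T k s * (1 - A f D z k s) ≤ 1 := by
  have hT : 0 ≤ T := hs.trans hsT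
  rcases hk.lt_or_eq with hk | hk
  · have h1 : F f D z k 0 T ≤ 1 := by
      refine (c_anti hf hz hz1 hT (Nat.zero_le k) hk.le).trans ?_
      rw [c_zero]
      have := A_nonneg (f := f) (D := D) (z := z) 0 T
      linarith
    rw [← K_eq hk] at h1
    refine le_trans ?_ h1
    have hc : Continuous (fun x => f k * (1 - (1 - z) * A f D z (k + 1) x) * A f D z k x *
        W f D z T k x) := (K_cont (f := f) (D := D) (z := z) k).mul
      (W_cont (f := f) (D := D) (z := z) (T := T) k)
    rw [← intervalIntegral.integral_add_adjacent_intervals (hc.intervalIntegrable 0 s)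
      (hc.intervalIntegrable s T)]
    have h2 : 0 ≤ ∫ x in s..T, f k * (1 - (1 - z) * A f D z (k + 1) x) * A f D z k x *
        W f D z T k x := by
      apply intervalIntegral.integral_nonneg hsT
      intro x hx
      exact mul_nonneg (A_rate_nonneg hf hz hz1.le k (hs.trans hx.1))
        (W_nonneg hf hz1.le k x hx.2)
    have h3 : W f D z T k s * (1 - A f D z k s) = ∫ x in (0:ℝ)..s,
        f k * (1 - (1 - z) * A f D z (k + 1) x) * A f D z k x * W f D z T k s := by
      rw [intervalIntegral.integral_mul_const,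
        intervalIntegral.integral_eq_sub_of_hasDerivAt
        (f := fun s => 1 - A f D z k s) (fun x _ => ?_) ((K_cont k).intervalIntegrable _ _)]
      · simp [A_zero hk]; ring
      · have := (A_hasDeriv (f := f) (z := z) hk x).const_sub 1
        rw [neg_neg] at this
        exact this
    have h4 : ∫ x in (0:ℝ)..s,
        f k * (1 - (1 - z) * A f D z (k + 1) x) * A f D z k x * W f D z T k s ≤
        ∫ x in (0:ℝ)..s,
        f k * (1 - (1 - z) * A f D z (k + 1) x) * A f D z k x * W f D z T k x := by
      apply intervalIntegral.integral_mono_on hs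
      · exact ((K_cont k).mul continuous_const).intervalIntegrable _ _
      · exact hc.intervalIntegrable _ _
      · intro x hx
        apply mul_le_mul_of_nonneg_left _ (A_rate_nonneg hf hz hz1.le k hx.1)
        exact W_anti hf hz1.le k (show x ≤ T from hx.2.trans hsT) hsT hx.2
    linarith
  · subst hk
    rw [A_of_ge le_rfl, sub_zero, mul_one]
    rcases Nat.eq_zero_or_pos k with h0 | h0
    · subst h0; rw [W_zero]
    · refine (W_anti hf hz1.le k (show (0:ℝ) ≤ T from hT) hsT hs).trans ?_
      rw [W_last h0]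
      exact F_le_one hf hz hz1.le k 0 le_rfl (Nat.zero_le _) hT

/-- a lone vertex of depth `k`: the first event is seldom just below -/
theorem W_mul_diff_le (hf : ∀ k, 0 < f k) (hz : 0 ≤ z) (hz1 : z < 1) {k q : ℕ} (hk : k < q)
    (hq : q ≤ D) {s : ℝ} (hs : 0 ≤ s) (hsT : s ≤ T) :
    W f D z T k s * ((1 - A f D z k s) - F f D z q k s) ≤ F f D z k 0 T - F f D z q 0 T := by
  have hT : 0 ≤ T := hs.trans hsT
  have hkD : k < D := by omega
  rw [← K_eq hkD, ← J_eq hq hk]
  have hc := (K_cont (f := f) (D := D) (z := z) k)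
  have hF := F_integrand_cont (f := f) (D := D) (z := z) q k
  have hW := (W_cont (f := f) (D := D) (z := z) (T := T) k)
  have hcF : Continuous (fun x => f k * (1 - (1 - z) * A f D z (k + 1) x) * A f D z k x -
      (1 - z) * f k * A f D z k x * F f D z q (k + 1) x) := hc.sub hF
  have hcW : Continuous (fun x => f k * (1 - (1 - z) * A f D z (k + 1) x) * A f D z k x *
        W f D z T k x) := hc.mul hW
  have hFW : Continuous (fun x => (1 - z) * f k * A f D z k x * F f D z q (k + 1) x *
        W f D z T k x) := hF.mul hW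
  rw [← intervalIntegral.integral_sub (hcW.intervalIntegrable _ _)
    (hFW.intervalIntegrable _ _)]
  have hpt : ∀ x, 0 ≤ x → 0 ≤ f k * (1 - (1 - z) * A f D z (k + 1) x) * A f D z k x -
      (1 - z) * f k * A f D z k x * F f D z q (k + 1) x := by
    intro x hx
    have h1 := F_le (D := D) hf hz hz1.le q (k+1) hq (by omega) x hx
    have h2 := A_nonneg (f := f) (D := D) (z := z) k x
    have h3 := (hf k).le
    have h4 : 0 ≤ 1 - z := by linarith
    have h5 : 0 ≤ (1 - (1 - z) * A f D z (k+1) x) - (1 - z) * F f D z q (k+1) x := by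
      nlinarith
    have := mul_nonneg (mul_nonneg h3 h2) h5
    nlinarith [this]
  have hc2 : Continuous (fun x => f k * (1 - (1 - z) * A f D z (k + 1) x) * A f D z k x *
        W f D z T k x - (1 - z) * f k * A f D z k x * F f D z q (k + 1) x *
        W f D z T k x) := hcW.sub hFW
  rw [← intervalIntegral.integral_add_adjacent_intervals (hc2.intervalIntegrable 0 s)
      (hc2.intervalIntegrable s T)]
  have h2 : 0 ≤ ∫ x in s..T, f k * (1 - (1 - z) * A f D z (k + 1) x) * A f D z k x *
        W f D z T k x - (1 - z) * f k * A f D z k x * F f D z q (k + 1) x * W f D z T k x := by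
    apply intervalIntegral.integral_nonneg hsT
    intro x hx
    have := mul_nonneg (hpt x (hs.trans hx.1)) (W_nonneg (D := D) hf hz1.le k x hx.2)
    nlinarith [this]
  have h3 : W f D z T k s * ((1 - A f D z k s) - F f D z q k s) = ∫ x in (0:ℝ)..s,
        (f k * (1 - (1 - z) * A f D z (k + 1) x) * A f D z k x -
        (1 - z) * f k * A f D z k x * F f D z q (k + 1) x) * W f D z T k s := by
    rw [intervalIntegral.integral_mul_const,
        intervalIntegral.integral_eq_sub_of_hasDerivAt
        (f := fun s => (1 - A f D z k s) - F f D z q k s) (fun x _ => ?_)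
        (hcF.intervalIntegrable _ _)]
    · simp [A_zero hkD, F_zero hk]; ring
    · have := ((A_hasDeriv (f := f) (D := D) (z := z) hkD x).const_sub 1).sub
        (F_hasDeriv (f := f) (D := D) (z := z) hk x)
      rw [neg_neg] at this
      exact this
  have h4 : ∫ x in (0:ℝ)..s,
        (f k * (1 - (1 - z) * A f D z (k + 1) x) * A f D z k x -
        (1 - z) * f k * A f D z k x * F f D z q (k + 1) x) * W f D z T k s ≤
        ∫ x in (0:ℝ)..s, (f k * (1 - (1 - z) * A f D z (k + 1) x) * A f D z k x *
        W f D z T k x - (1 - z) * f k * A f D z k x * F f D z q (k + 1) x *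
        W f D z T k x) := by
    apply intervalIntegral.integral_mono_on hs
    · exact (hcF.mul continuous_const).intervalIntegrable _ _
    · exact hc2.intervalIntegrable _ _
    · intro x hx
      have := mul_le_mul_of_nonneg_left (W_anti (D := D) hf hz1.le k
        (show x ≤ T from hx.2.trans hsT) hsT hx.2) (hpt x hx.1)
      nlinarith [this]
  rw [h3]
  exact le_trans h4 (by linarith)

/-- splitting the hitting probability at remaining time `U` -/
theorem hit_le (hf : ∀ k, 0 < f k) (hz : 0 ≤ z) (hz1 : z < 1) {i : ℕ} (hi : i < D)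
    {U : ℝ} (hU : 0 ≤ U) (hUT : U ≤ T) :
    F f D z D 0 T ≤ (∫ s in (0:ℝ)..U, (1 - z) * f i * A f D z i s * F f D z D (i + 1) s *
      W f D z T i s) + W f D z T i U := by
  rw [← J_eq le_rfl hi]
  have hF := F_integrand_cont (f := f) (D := D) (z := z) D i
  have hW := (W_cont (f := f) (D := D) (z := z) (T := T) i)
  have hFW : Continuous (fun x => (1 - z) * f i * A f D z i x * F f D z D (i + 1) x *
      W f D z T i x) := hF.mul hW
  rw [← intervalIntegral.integral_add_adjacent_intervals (hFW.intervalIntegrable 0 U)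
      (hFW.intervalIntegrable U T)]
  have h1 : ∫ x in U..T, (1 - z) * f i * A f D z i x * F f D z D (i + 1) x *
      W f D z T i x ≤ ∫ x in U..T, (1 - z) * f i * A f D z i x * F f D z D (i + 1) x *
      W f D z T i U := by
    apply intervalIntegral.integral_mono_on hUT
    · exact hFW.intervalIntegrable _ _
    · exact (hF.mul continuous_const).intervalIntegrable _ _
    · intro x hx
      have hx0 : 0 ≤ x := hU.trans hx.1
      have h2 := F_nonneg (D := D) hf hz hz1.le D (i+1) (by omega) x hx0
      have h3 := A_nonneg (f := f) (D := D) (z := z) i x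
      have h4 : 0 ≤ 1 - z := by linarith
      have h5 := (hf i).le
      apply mul_le_mul_of_nonneg_left _ (by positivity)
      exact W_anti hf hz1.le i (show U ≤ T from hUT) (show x ≤ T from hx.2) hx.1
  rw [intervalIntegral.integral_mul_const,
    intervalIntegral.integral_eq_sub_of_hasDerivAt
    (f := fun s => F f D z D i s) (fun x _ => F_hasDeriv hi x)
    (hF.intervalIntegrable _ _)] at h1
  have h2 := F_nonneg (D := D) hf hz hz1.le D i hi.le U hU
  have h3 := F_le_one (D := D) hf hz hz1.le D i le_rfl hi.le (hU.trans hUT)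
  have h4 := W_nonneg (D := D) hf hz1.le i U hUT
  have h5 : (F f D z D i T - F f D z D i U) * W f D z T i U ≤ 1 * W f D z T i U := by
    apply mul_le_mul_of_nonneg_right _ h4
    linarith
  linarith

end Pool.Agent.Lib.MP_bb6489_pr
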