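import Pool.Agent.Lib.MP_bb6489_pr.WBound

/-!
Upper bounds for the backward functions.
-/

open MeasureTheory intervalIntegral Set Filter Topology
open scoped Nat

namespace Pool.Agent.Lib.MP_bb6489_pr

variable {f : ℕ → ℝ} {D : ℕ} {z T : ℝ}

theorem F_step_le (hf : ∀ k, 0 < f k) (hz : 0 ≤ z) (hz1 : z ≤ 1) {q k : ℕ} (hq : q ≤ D)
    (hk : k < q) {K lam ρ : ℝ} (hlam : 0 < lam)
    (hb : ∀ s, 0 ≤ s → F f D z q (k + 1) s ≤ K * Real.exp (-lam * (ρ - s))) {u : ℝ}
    (hu : 0 ≤ u) :
    F f D z q k u ≤ f k * K / lam * (Real.exp (-lam * (ρ - u)) - Real.exp (-lam * ρ)) := by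
  have hc := F_integrand_cont (f := f) (D := D) (z := z) q k
  rw [F_of_lt hk]
  have h1 : ∫ s in (0:ℝ)..u, (1 - z) * f k * A f D z k s * F f D z q (k + 1) s ≤
      ∫ s in (0:ℝ)..u, (f k * K) * Real.exp (-lam * (ρ - s)) := by
    apply intervalIntegral.integral_mono_on hu
    · exact hc.intervalIntegrable _ _
    · apply Continuous.intervalIntegrable; fun_prop
    · intro s hs
      have h2 := hb s hs.1
      have h3 := F_nonneg (D := D) hf hz hz1 q (k+1) hk s hs.1
      have h4 := A_nonneg (f := f) (D := D) (z := z) k s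
      have h5 := A_le_one (D := D) hf hz hz1 k hs.1
      have h6 := (hf k).le
      have h7 : (1 - z) * f k * A f D z k s ≤ f k := by
        have h8 : (1 - z) * A f D z k s ≤ 1 := by nlinarith
        nlinarith
      calc (1 - z) * f k * A f D z k s * F f D z q (k+1) s ≤ f k * F f D z q (k+1) s :=
            mul_le_mul_of_nonneg_right h7 h3
        _ ≤ f k * (K * Real.exp (-lam * (ρ - s))) := mul_le_mul_of_nonneg_left h2 h6
        _ = _ := by ring
  rw [integral_exp_aux _ _ _ _ _ (neg_ne_zero.mpr hlam.ne')] at h1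
  refine h1.trans (le_of_eq ?_)
  rw [sub_zero, div_neg]; ring

theorem F_bound (hf : ∀ k, 0 < f k) (hm : Monotone f) (hz : 0 ≤ z) (hz1 : z ≤ 1) {q k : ℕ}
    (hq : q ≤ D) (hk : k ≤ q) : ∀ u, 0 ≤ u →
    F f D z q k u ≤ Real.exp (-(Real.exp 1 * f k) * (R f q k - u)) := by
  have he := Real.exp_pos 1
  induction hk using Nat.decreasingInduction with
  | self =>
    intro u hu
    rw [R_self]
    refine (F_le_one hf hz hz1 q q hq le_rfl hu).trans ?_
    apply Real.one_le_exp
    have := hf q
    nlinarith [mul_nonneg (mul_pos he this).le hu]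
  | of_succ k hk ih =>
    intro u hu
    have hfk := hf k
    have hfk1 := hf (k + 1)
    have hb : ∀ s, 0 ≤ s → F f D z q (k + 1) s ≤ 1 *
        Real.exp (-(Real.exp 1 * f k) * (R f q (k + 1) - s)) := by
      intro s hs
      rw [one_mul]
      rcases le_or_gt s (R f q (k + 1)) with h | h
      · refine (ih s hs).trans ?_
        apply Real.exp_le_exp.mpr
        have h6 : f k ≤ f (k + 1) := hm (Nat.le_succ k)
        have h7 : f k * (R f q (k+1) - s) ≤ f (k+1) * (R f q (k+1) - s) :=
          mul_le_mul_of_nonneg_right h6 (by linarith)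
        nlinarith [mul_le_mul_of_nonneg_left h7 he.le]
      · refine (F_le_one hf hz hz1 q (k + 1) hq hk hs).trans ?_
        apply Real.one_le_exp
        have h8 : 0 ≤ s - R f q (k + 1) := by linarith
        nlinarith [mul_nonneg (mul_pos he hfk).le h8]
    have h1 := F_step_le hf hz hz1 hq hk (K := 1) (lam := Real.exp 1 * f k)
      (by positivity) hb hu
    refine h1.trans ?_
    have h2 : f k * 1 / (Real.exp 1 * f k) = (Real.exp 1)⁻¹ := by field_simp
    rw [h2, R_succ hk, ← Real.exp_neg]
    have h3 : Real.exp (-(Real.exp 1 * f k) * (1 / (Real.exp 1 * f k) + R f q (k + 1) - u)) =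
        Real.exp (-1) * Real.exp (-(Real.exp 1 * f k) * (R f q (k + 1) - u)) := by
      rw [← Real.exp_add]; congr 1; field_simp; ring
    rw [h3]
    apply mul_le_mul_of_nonneg_left _ (Real.exp_pos _).le
    linarith [Real.exp_pos (-(Real.exp 1 * f k) * R f q (k + 1))]

theorem F_boundQ (hf : ∀ k, 0 < f k) (hz : 0 ≤ z) (hz1 : z ≤ 1) {q K k : ℕ}
    (hq : q ≤ D) (hK : K ≤ q) (hk : k ≤ K) {lam ρ : ℝ} (hlam : 0 < lam)
    (hb : ∀ s, 0 ≤ s → F f D z q K s ≤ Real.exp (-lam * (ρ - s))) : ∀ u, 0 ≤ u →
    F f D z q k u ≤ (∏ j ∈ Finset.Ico k K, f j / lam) * Real.exp (-lam * (ρ - u)) := by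
  induction hk using Nat.decreasingInduction with
  | self => intro u hu; simpa using hb u hu
  | of_succ k hk ih =>
    intro u hu
    have h1 := F_step_le hf hz hz1 hq (lt_of_lt_of_le hk hK) hlam ih hu
    refine h1.trans ?_
    rw [Finset.prod_eq_prod_Ico_succ_bot hk]
    have h2 : 0 ≤ f k * (∏ j ∈ Finset.Ico (k + 1) K, f j / lam) / lam := by
      have := hf k
      have : 0 ≤ ∏ j ∈ Finset.Ico (k + 1) K, f j / lam :=
        Finset.prod_nonneg fun j _ => by have := hf j; positivity
      positivity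
    have h3 := Real.exp_pos (-lam * ρ)
    calc f k * (∏ j ∈ Finset.Ico (k + 1) K, f j / lam) / lam *
        (Real.exp (-lam * (ρ - u)) - Real.exp (-lam * ρ)) ≤
        f k * (∏ j ∈ Finset.Ico (k + 1) K, f j / lam) / lam *
        (Real.exp (-lam * (ρ - u))) := mul_le_mul_of_nonneg_left (by linarith) h2
      _ = _ := by ring

theorem x_le_exp {μ x lam : ℝ} (hμ : 0 < μ) (h1 : μ ≤ x) (h2 : x ≤ lam) :
    x / lam * Real.exp (μ / x) ≤ Real.exp (μ / lam) := by
  have hx : 0 < x := hμ.trans_le h1
  have hl : 0 < lam := hx.trans_le h2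
  have h3 : x / lam ≤ Real.exp (μ / lam - μ / x) := by
    have h4 := Real.add_one_le_exp (x / lam - 1)
    rw [sub_add_cancel] at h4
    refine h4.trans (Real.exp_le_exp.mpr ?_)
    have h5 : μ / x - μ / lam = (μ / x) * (1 - x / lam) := by field_simp
    have h6 : μ / x ≤ 1 := by rw [div_le_one hx]; exact h1
    have h7 : 0 ≤ 1 - x / lam := by
      have : x / lam ≤ 1 := by rw [div_le_one hl]; exact h2
      linarith
    nlinarith [mul_le_mul_of_nonneg_right h6 h7]
  rw [Real.exp_sub, le_div_iff₀ (Real.exp_pos _)] at h3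
  exact h3

theorem prod_exp_le (hf : ∀ k, 0 < f k) (hm : Monotone f) (i n m : ℕ) (h : i + n ≤ m) :
    (∏ j ∈ Finset.Ico i (i + n), f j / (Real.exp 1 * f m)) *
      Real.exp (Real.exp 1 * f i * ∑ j ∈ Finset.Ico i (i + n), 1 / (Real.exp 1 * f j)) ≤
      Real.exp (-(Real.exp 1 * f m - Real.exp 1 * f i) * (n / (Real.exp 1 * f m))) := by
  have he := Real.exp_pos 1
  induction n with
  | zero => simp
  | succ n ih =>
    have hfi := hf i
    have hfm := hf m
    have hfn := hf (i + n)
    rw [← add_assoc, Finset.prod_Ico_succ_top (by omega), Finset.sum_Ico_succ_top (by omega),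
      mul_add, Real.exp_add]
    have h1 := x_le_exp (μ := Real.exp 1 * f i) (x := Real.exp 1 * f (i + n))
      (lam := Real.exp 1 * f m) (by positivity)
      (mul_le_mul_of_nonneg_left (hm (by omega)) he.le)
      (mul_le_mul_of_nonneg_left (hm (by omega)) he.le)
    have h2 : f (i + n) / (Real.exp 1 * f m) * Real.exp (Real.exp 1 * f i *
        (1 / (Real.exp 1 * f (i + n)))) ≤ Real.exp (-(Real.exp 1 * f m - Real.exp 1 * f i) *
        (1 / (Real.exp 1 * f m))) := by
      have h3 : -(Real.exp 1 * f m - Real.exp 1 * f i) * (1 / (Real.exp 1 * f m)) =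
          Real.exp 1 * f i / (Real.exp 1 * f m) - 1 := by field_simp; ring
      rw [h3, Real.exp_sub, le_div_iff₀ he]
      refine le_trans (le_of_eq ?_) h1
      rw [mul_one_div]
      field_simp
    have h3 : -(Real.exp 1 * f m - Real.exp 1 * f i) * ((n + 1 : ℕ) / (Real.exp 1 * f m)) =
      -(Real.exp 1 * f m - Real.exp 1 * f i) * (n / (Real.exp 1 * f m)) +
      -(Real.exp 1 * f m - Real.exp 1 * f i) * (1 / (Real.exp 1 * f m)) := by
      push_cast; ring
    rw [h3, Real.exp_add]
    calc _ = ((∏ j ∈ Finset.Ico i (i + n), f j / (Real.exp 1 * f m)) *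
      Real.exp (Real.exp 1 * f i * ∑ j ∈ Finset.Ico i (i + n), 1 / (Real.exp 1 * f j))) *
      (f (i + n) / (Real.exp 1 * f m) * Real.exp (Real.exp 1 * f i *
        (1 / (Real.exp 1 * f (i + n))))) := by ring
      _ ≤ _ := mul_le_mul (ih (by omega)) h2 (by positivity) (Real.exp_pos _).le

/-- Step A1: hitting ancestors of depth `i` are old. -/
theorem A1 (hf : ∀ k, 0 < f k) (hm : Monotone f) (hz : 0 ≤ z) (hz1 : z < 1) {C : ℝ}
    (hC0 : 0 < C)
    (hC : ∀ i, i ≤ D → Real.exp 1 / C ≤ 1 - A f D z i (R f D i)) (hT : R f D 0 ≤ T)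
    {i m : ℕ} (hm1 : 1 ≤ m) (him : i + m ≤ D) {U : ℝ} (hU : 0 ≤ U) (hU2 : U ≤ R f D i) :
    ∫ s in (0:ℝ)..U, (1 - z) * f i * A f D z i s * F f D z D (i + 1) s * W f D z T i s ≤
      U * (Real.exp 1 * f (i + m) * C * Real.exp (-(Real.exp 1 * f (i + m) - Real.exp 1 * f i) *
        (m / (Real.exp 1 * f (i + m)) + R f D (i + m) - U))) := by
  have he := Real.exp_pos 1
  have hfi := hf i
  have hfm := hf (i + m)
  have hRT : R f D i ≤ T := (R_anti hf (Nat.zero_le i) (by omega)).trans hT
  have hFW : Continuous (fun x => (1 - z) * f i * A f D z i x * F f D z D (i + 1) x *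
      W f D z T i x) := (F_integrand_cont (f := f) (D := D) (z := z) D i).mul
      (W_cont (f := f) (D := D) (z := z) (T := T) i)
  set M := Real.exp 1 * f (i + m) * C * Real.exp (-(Real.exp 1 * f (i + m) - Real.exp 1 * f i) *
        (m / (Real.exp 1 * f (i + m)) + R f D (i + m) - U)) with hM
  have hconst : ∫ s in (0:ℝ)..U, M = U * M := by
    rw [intervalIntegral.integral_const]; simp
  rw [← hconst]
  apply intervalIntegral.integral_mono_on hU
  · exact hFW.intervalIntegrable _ _
  · exact continuous_const.intervalIntegrable _ _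
  · intro s hs
    have hs0 := hs.1
    have hsR : s ≤ R f D i := hs.2.trans hU2
    have hF0 := F_nonneg (D := D) hf hz hz1.le D (i+1) (by omega) s hs0
    have hW0 := W_nonneg (D := D) hf hz1.le i s (hsR.trans hRT)
    have hA0 := A_nonneg (f := f) (D := D) (z := z) i s
    have hA1 := A_le_one (D := D) hf hz hz1.le i hs0
    have hFb := F_boundQ (D := D) hf hz hz1.le le_rfl him (show i + 1 ≤ i + m by omega)
      (lam := Real.exp 1 * f (i + m)) (ρ := R f D (i + m)) (by positivity)
      (F_bound hf hm hz hz1.le le_rfl him) s hs0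
    have hWb := W_bound hf hm hz hz1 hC0 hC hT (i := i) (by omega) s hs0 hsR
    have h7 : (1 - z) * f i * A f D z i s ≤ f i := by
      have h8 : (1 - z) * A f D z i s ≤ 1 := by nlinarith
      nlinarith
    have h9 : (1 - z) * f i * A f D z i s * F f D z D (i + 1) s * W f D z T i s ≤
        f i * ((∏ j ∈ Finset.Ico (i + 1) (i + m), f j / (Real.exp 1 * f (i + m))) *
        Real.exp (-(Real.exp 1 * f (i + m)) * (R f D (i + m) - s))) *
        (C * Real.exp (Real.exp 1 * f i * (R f D i - s))) := by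
      apply mul_le_mul _ hWb hW0
      · apply mul_nonneg hfi.le
        exact hF0.trans hFb
      · exact mul_le_mul h7 hFb hF0 hfi.le
    refine h9.trans ?_
    have hprod : f i * ∏ j ∈ Finset.Ico (i + 1) (i + m), f j / (Real.exp 1 * f (i + m)) =
        Real.exp 1 * f (i + m) * ∏ j ∈ Finset.Ico i (i + m), f j / (Real.exp 1 * f (i + m)) := by
      rw [Finset.prod_eq_prod_Ico_succ_bot (show i < i + m by omega)]
      field_simp
    have hpl := prod_exp_le hf hm i m (i + m) le_rfl
    have hR := R_split (f := f) (i := i) (m := i + m) (q := D) (by omega) him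
    calc f i * ((∏ j ∈ Finset.Ico (i + 1) (i + m), f j / (Real.exp 1 * f (i + m))) *
        Real.exp (-(Real.exp 1 * f (i + m)) * (R f D (i + m) - s))) *
        (C * Real.exp (Real.exp 1 * f i * (R f D i - s)))
        = (f i * ∏ j ∈ Finset.Ico (i + 1) (i + m), f j / (Real.exp 1 * f (i + m))) * C *
          (Real.exp (-(Real.exp 1 * f (i + m)) * (R f D (i + m) - s)) *
          Real.exp (Real.exp 1 * f i * (R f D i - s))) := by ring
      _ = Real.exp 1 * f (i + m) * C * (((∏ j ∈ Finset.Ico i (i + m),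
          f j / (Real.exp 1 * f (i + m))) * Real.exp (Real.exp 1 * f i *
          ∑ j ∈ Finset.Ico i (i + m), 1 / (Real.exp 1 * f j))) *
          Real.exp (-(Real.exp 1 * f (i + m) - Real.exp 1 * f i) * (R f D (i + m) - s))) := by
          rw [hprod]
          have : Real.exp (-(Real.exp 1 * f (i + m)) * (R f D (i + m) - s)) *
            Real.exp (Real.exp 1 * f i * (R f D i - s)) =
            Real.exp (Real.exp 1 * f i *
            ∑ j ∈ Finset.Ico i (i + m), 1 / (Real.exp 1 * f j)) *
            Real.exp (-(Real.exp 1 * f (i + m) - Real.exp 1 * f i) *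
              (R f D (i + m) - s)) := by
            rw [← Real.exp_add, ← Real.exp_add, hR]; congr 1; ring
          rw [this]; ring
      _ ≤ Real.exp 1 * f (i + m) * C * (Real.exp (-(Real.exp 1 * f (i + m) -
          Real.exp 1 * f i) * (m / (Real.exp 1 * f (i + m)))) *
          Real.exp (-(Real.exp 1 * f (i + m) - Real.exp 1 * f i) * (R f D (i + m) - s))) := by
          apply mul_le_mul_of_nonneg_left _ (by positivity)
          exact mul_le_mul_of_nonneg_right hpl (Real.exp_pos _).le
      _ ≤ M := by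
          rw [hM, ← Real.exp_add]
          apply mul_le_mul_of_nonneg_left _ (by positivity)
          apply Real.exp_le_exp.mpr
          have h10 : 0 ≤ Real.exp 1 * f (i + m) - Real.exp 1 * f i := by
            have := mul_le_mul_of_nonneg_left (hm (show i ≤ i + m by omega)) he.le
            linarith
          nlinarith [mul_le_mul_of_nonneg_left hs.2 h10]

end Pool.Agent.Lib.MP_bb6489_pr
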