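import Pool.Agent.Lib.MP_bb6489_pr.PartA2

/-!
The polynomial depth of the tree.
-/

open MeasureTheory Set Filter Topology
open scoped Nat ENNReal

namespace Pool.Agent.Lib.MP_bb6489_pr

noncomputable section

theorem tendsto_XXD {c : ℝ} (hc : 0 < c) {δ : ℝ} (hδ1 : δ ≤ 1 / 2) :
    Tendsto (zz c δ) atTop (𝓝 0) := by
  unfold zz
  apply Real.tendsto_exp_neg_atTop_nhds_zero.comp
  apply Tendsto.const_mul_atTop
  · have : 0 < 1 / (2 * c) := by positivity
    linarith
  · exact Real.tendsto_log_atTop.comp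
      (tendsto_atTop_add_const_right _ _ tendsto_natCast_atTop_atTop)

theorem treeA {c : ℝ} (hc : 0 < c) {δ : ℝ} (hδ : 0 < δ) (hδ1 : δ ≤ 1 / 2) {ε : ℝ}
    (hε : 0 < ε) : ∀ᶠ D : ℕ in atTop, ∀ n : ℕ, (n:ℝ) * zz c δ D ≤ 1 →
      EE (fw c) (fw_pos c) n (fun t => if height t < D then 0 else 1) ≤ ENNReal.ofReal ε := by
  have he2 := Real.exp_pos 2
  set ε' := ε * Real.exp (-2) / 2 with hε'
  have hε'p : 0 < ε' := by positivity
  have h1 := partA hc hδ hδ1 hε'p
  have h2 : ∀ᶠ D : ℕ in atTop, zz c δ D ≤ 1 / 2 :=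
    (tendsto_XXD hc hδ1).eventually_le_const (by norm_num)
  filter_upwards [h1, h2, eventually_ge_atTop 1] with D hD hD2 hD1 n hn
  set z := zz c δ D with hz
  have hz0 : 0 < z := Real.exp_pos _
  set T := max (R (fw c) D 0) (1 / (z * ε')) with hT
  have hT1 : R (fw c) D 0 ≤ T := le_max_left _ _
  have hT2 : 1 / (z * ε') ≤ T := le_max_right _ _
  have hT0 : 0 ≤ T := (R_nonneg (fw_pos c) _ _).trans hT1
  have hF := hD T hT1
  have hA : A (fw c) D z 0 T ≤ ε' := by
    refine (A_zero_le (fw_pos c) hz0.le (by linarith) hD1 hT0).trans ?_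
    have h0 : fw c 0 = 1 := by simp [fw, phi]
    rw [h0, one_mul]
    have e1 : 1 / ε' ≤ T * z := by
      have := mul_le_mul_of_nonneg_right hT2 hz0.le
      refine le_trans (le_of_eq ?_) this
      field_simp
    have e2 : Real.exp (-(T * z)) ≤ Real.exp (-(1 / ε')) := Real.exp_le_exp.mpr (by linarith)
    refine e2.trans ((exp_inv_le (by positivity)).trans (le_of_eq ?_))
    rw [one_div_one_div]
  have hch := chainA (f := fw c) (T := T) (fw_pos c) hz0.le (by linarith : z ≤ 1) hT0 hD1 n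
  have hpow : Real.exp (-2) ≤ (1 - z) ^ n := by
    have e1 := one_sub_ge_exp hz0.le hD2
    calc Real.exp (-2) ≤ Real.exp (n * -(2 * z)) := by
          apply Real.exp_le_exp.mpr; nlinarith
      _ = Real.exp (-(2 * z)) ^ n := by rw [Real.exp_nat_mul]
      _ ≤ _ := pow_le_pow_left₀ (Real.exp_pos _).le e1 n
  have h3 : ENNReal.ofReal (Real.exp (-2)) * EE (fw c) (fw_pos c) n
      (fun t => if height t < D then 0 else 1) ≤ ENNReal.ofReal (ε * Real.exp (-2)) := by
    refine (mul_le_mul' (ENNReal.ofReal_le_ofReal hpow) le_rfl).trans (hch.trans ?_)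
    apply ENNReal.ofReal_le_ofReal
    rw [hε'] at hF hA
    linarith
  have h4 : EE (fw c) (fw_pos c) n (fun t => if height t < D then 0 else 1) =
      ENNReal.ofReal (Real.exp 2) * (ENNReal.ofReal (Real.exp (-2)) * EE (fw c) (fw_pos c) n
      (fun t => if height t < D then 0 else 1)) := by
    rw [← mul_assoc, ← ENNReal.ofReal_mul he2.le, ← Real.exp_add]
    norm_num
  rw [h4]
  refine (mul_le_mul' le_rfl h3).trans ?_
  rw [← ENNReal.ofReal_mul he2.le]
  apply ENNReal.ofReal_le_ofReal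
  have : Real.exp 2 * (ε * Real.exp (-2)) = ε * (Real.exp 2 * Real.exp (-2)) := by ring
  rw [this, ← Real.exp_add]; norm_num

theorem EE_one {f : ℕ → ℝ} {hf : ∀ k, 0 < f k} (n : ℕ) : EE f hf n (fun _ => 1) = 1 := by
  unfold EE
  simp only [mul_one]
  exact PMF.tsum_coe _

/-- the exponent -/
theorem inv_beta {c : ℝ} (hc : 0 < c) : 1 + 1 / (2 * c) = 1 / (2 * c / (1 + 2 * c)) := by
  field_simp
  ring

theorem low_tail {c : ℝ} (hc : 0 < c) {b ε : ℝ} (hb : b = 2 * c / (1 + 2 * c)) (hε : 0 < ε)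
    (hεb : ε < b) :
    Tendsto (fun n : ℕ => EE (fw c) (fw_pos c) n
      (fun t => if (height t : ℝ) < ((n:ℝ) + 1) ^ (b - ε) then 1 else 0)) atTop (𝓝 0) := by
  have hb0 : 0 < b := by rw [hb]; positivity
  have hib : 1 + 1 / (2 * c) = 1 / b := by rw [hb]; exact inv_beta hc
  set η := ε / (2 * b) with hη
  have hηp : 0 < η := by positivity
  set δ := η / b with hδ
  have hδp : 0 < δ := by positivity
  obtain ⟨K, hK, hB⟩ := treeB hc hδp
  set K' := K * Real.exp ((1 / b + δ) * Real.log 4) with hK'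
  have hK'p : 0 < K' := by positivity
  have hbound : ∀ n : ℕ, 1 ≤ n → EE (fw c) (fw_pos c) n
      (fun t => if (height t : ℝ) < ((n:ℝ) + 1) ^ (b - ε) then 1 else 0) ≤
      ENNReal.ofReal (2 * K' * ((n:ℝ) + 1) ^ (-η)) := by
    intro n hn
    have hn1 : (1:ℝ) ≤ n := by exact_mod_cast hn
    have hN : (1:ℝ) ≤ (n:ℝ) + 1 := by linarith
    have hN0 : (0:ℝ) < (n:ℝ) + 1 := by linarith
    set M := ((n:ℝ) + 1) ^ (b - ε) with hM
    have hM1 : 1 ≤ M := Real.one_le_rpow hN (by linarith)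
    set D := ⌈M⌉₊ with hD
    have hD1 : 0 < D := Nat.ceil_pos.mpr (by linarith)
    have hDM : M ≤ D := Nat.le_ceil M
    have hDM2 : (D:ℝ) + 2 ≤ 4 * M := by
      have := Nat.ceil_lt_add_one (show 0 ≤ M by linarith)
      rw [← hD] at this
      linarith
    have h1 := hB D n hD1 hn
    refine le_trans (EE_mono n fun t => ?_) (h1.trans (ENNReal.ofReal_le_ofReal ?_))
    · by_cases h : (height t : ℝ) < M
      · have : height t < D := by
          have : (height t : ℝ) < D := lt_of_lt_of_le h hDM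
          exact_mod_cast this
        rw [if_pos h, if_pos this]
      · rw [if_neg h]; exact zero_le
    · rw [hib]
      have e1 : Real.log ((D:ℝ) + 2) ≤ Real.log 4 + (b - ε) * Real.log ((n:ℝ) + 1) := by
        rw [← Real.log_rpow hN0, ← Real.log_mul (by norm_num) (by positivity)]
        exact Real.log_le_log (by positivity) hDM2
      have hlN : 0 ≤ Real.log ((n:ℝ) + 1) := Real.log_nonneg hN
      have e2 : (1 / b + δ) * Real.log ((D:ℝ) + 2) ≤ (1 / b + δ) * Real.log 4 +
          (1 - η) * Real.log ((n:ℝ) + 1) := by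
        have e3 := mul_le_mul_of_nonneg_left e1 (show 0 ≤ 1 / b + δ by positivity)
        refine e3.trans ?_
        have e4 : (1 / b + δ) * (b - ε) ≤ 1 - η := by
          have e5 : (1 / b + δ) * (b - ε) = 1 - ε / b + δ * (b - ε) := by field_simp
          have e6 : δ * (b - ε) ≤ δ * b := by nlinarith
          have e7 : δ * b = η := by rw [hδ]; field_simp
          have e8 : ε / b = 2 * η := by rw [hη]; field_simp
          rw [e5, e8]; linarith
        have e5 := mul_le_mul_of_nonneg_right e4 hlN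
        nlinarith [e5]
      have e3 : Real.exp ((1 / b + δ) * Real.log ((D:ℝ) + 2)) ≤
          Real.exp ((1 / b + δ) * Real.log 4) * (((n:ℝ) + 1) * ((n:ℝ) + 1) ^ (-η)) := by
        refine (Real.exp_le_exp.mpr e2).trans (le_of_eq ?_)
        rw [Real.exp_add]
        congr 1
        have e4 : ((n:ℝ) + 1) * ((n:ℝ) + 1) ^ (-η) = ((n:ℝ) + 1) ^ (1 - η) := by
          rw [sub_eq_add_neg, Real.rpow_add hN0, Real.rpow_one]
        rw [e4, Real.rpow_def_of_pos hN0]
        congr 1; ring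
      rw [div_le_iff₀ (by linarith)]
      calc K * Real.exp ((1 / b + δ) * Real.log ((D:ℝ) + 2))
          ≤ K * (Real.exp ((1 / b + δ) * Real.log 4) * (((n:ℝ) + 1) *
            ((n:ℝ) + 1) ^ (-η))) := mul_le_mul_of_nonneg_left e3 hK.le
        _ = K' * ((n:ℝ) + 1) ^ (-η) * ((n:ℝ) + 1) := by rw [hK']; ring
        _ ≤ K' * ((n:ℝ) + 1) ^ (-η) * (2 * n) := by
            apply mul_le_mul_of_nonneg_left _ (by positivity); linarith
        _ = _ := by ring
  have hlim : Tendsto (fun n : ℕ => ENNReal.ofReal (2 * K' * ((n:ℝ) + 1) ^ (-η))) atTop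
      (𝓝 0) := by
    have h1 : Tendsto (fun n : ℕ => ((n:ℝ) + 1)) atTop atTop :=
      tendsto_atTop_add_const_right _ _ tendsto_natCast_atTop_atTop
    have h2 := ((tendsto_rpow_neg_atTop hηp).comp h1).const_mul (2 * K')
    rw [mul_zero] at h2
    have h3 := (ENNReal.continuous_ofReal.tendsto 0).comp h2
    rw [ENNReal.ofReal_zero] at h3
    exact h3
  refine tendsto_of_tendsto_of_tendsto_of_le_of_le' tendsto_const_nhds hlim
    (Eventually.of_forall fun _ => zero_le) ?_
  filter_upwards [eventually_ge_atTop 1] with n hn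
  exact hbound n hn

theorem upp_tail {c : ℝ} (hc : 0 < c) {b ε : ℝ} (hb : b = 2 * c / (1 + 2 * c)) (hε : 0 < ε) :
    Tendsto (fun n : ℕ => EE (fw c) (fw_pos c) n
      (fun t => if ((n:ℝ) + 1) ^ (b + ε) < (height t : ℝ) then 1 else 0)) atTop (𝓝 0) := by
  have hb0 : 0 < b := by rw [hb]; positivity
  have hib : 1 + 1 / (2 * c) = 1 / b := by rw [hb]; exact inv_beta hc
  set δ := min (1 / 2) (ε / (b * (b + ε))) with hδ
  have hδp : 0 < δ := lt_min (by norm_num) (by positivity)
  have hδ1 : δ ≤ 1 / 2 := min_le_left _ _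
  have hδ2 : δ ≤ ε / (b * (b + ε)) := min_le_right _ _
  have hib1 : 1 / 2 ≤ 1 / b - δ := by
    have : 0 < 1 / (2 * c) := by positivity
    rw [← hib]; linarith
  rw [ENNReal.tendsto_nhds_zero]
  intro x hx
  -- a real number below `x`
  obtain ⟨r, hr0, hrx⟩ : ∃ r : ℝ, 0 < r ∧ ENNReal.ofReal r ≤ x := by
    rcases eq_or_ne x ⊤ with h | h
    · exact ⟨1, one_pos, by rw [h]; exact le_top⟩
    · exact ⟨x.toReal, ENNReal.toReal_pos hx.ne' h, by rw [ENNReal.ofReal_toReal h]⟩
  have hA := treeA hc hδp hδ1 hr0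
  have hDt : Tendsto (fun n : ℕ => ⌊((n:ℝ) + 1) ^ (b + ε)⌋₊ + 1) atTop atTop := by
    refine tendsto_atTop_mono (fun n => Nat.le_succ ⌊((n:ℝ) + 1) ^ (b + ε)⌋₊) ?_
    apply tendsto_nat_floor_atTop.comp
    apply (tendsto_rpow_atTop (show 0 < b + ε by linarith)).comp
    exact tendsto_atTop_add_const_right _ _ tendsto_natCast_atTop_atTop
  filter_upwards [hDt.eventually hA] with n hn
  have hN0 : (0:ℝ) < (n:ℝ) + 1 := by positivity
  have hN : (1:ℝ) ≤ (n:ℝ) + 1 := by
    have : (0:ℝ) ≤ n := Nat.cast_nonneg n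
    linarith
  set M := ((n:ℝ) + 1) ^ (b + ε) with hM
  have hM0 : 0 < M := Real.rpow_pos_of_pos hN0 _
  set D := ⌊M⌋₊ + 1 with hD
  have hDM : M ≤ (D:ℝ) + 2 := by
    have := Nat.lt_floor_add_one M
    rw [hD]; push_cast; linarith
  have hz : (n:ℝ) * zz c δ D ≤ 1 := by
    have e1 : (b + ε) * Real.log ((n:ℝ) + 1) ≤ Real.log ((D:ℝ) + 2) := by
      rw [← Real.log_rpow hN0]
      exact Real.log_le_log hM0 hDM
    have hlN : 0 ≤ Real.log ((n:ℝ) + 1) := Real.log_nonneg hN
    have e2 : 1 ≤ (1 / b - δ) * (b + ε) := by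
      rw [le_div_iff₀ (by positivity)] at hδ2
      have e3 : (1 / b - δ) * (b + ε) = 1 + (ε - δ * (b * (b + ε))) / b := by
        field_simp; ring
      rw [e3]
      have : 0 ≤ (ε - δ * (b * (b + ε))) / b := div_nonneg (by linarith) hb0.le
      linarith
    have e3 : Real.log ((n:ℝ) + 1) ≤ (1 / b - δ) * Real.log ((D:ℝ) + 2) := by
      have e4 := mul_le_mul_of_nonneg_left e1 (show 0 ≤ 1 / b - δ by linarith)
      have e5 := mul_le_mul_of_nonneg_right e2 hlN
      linarith
    have e4 : zz c δ D ≤ 1 / ((n:ℝ) + 1) := by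
      unfold zz
      rw [hib]
      calc Real.exp (-((1 / b - δ) * Real.log ((D:ℝ) + 2))) ≤
            Real.exp (-Real.log ((n:ℝ) + 1)) := Real.exp_le_exp.mpr (by linarith)
        _ = 1 / ((n:ℝ) + 1) := by rw [Real.exp_neg, Real.exp_log hN0, one_div]
    calc (n:ℝ) * zz c δ D ≤ n * (1 / ((n:ℝ) + 1)) :=
          mul_le_mul_of_nonneg_left e4 (Nat.cast_nonneg n)
      _ ≤ 1 := by rw [mul_one_div, div_le_one hN0]; linarith
  refine (EE_mono n fun t => ?_).trans ((hn n hz).trans hrx)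
  by_cases h : M < (height t : ℝ)
  · have : ¬ height t < D := by
      have h1 : ⌊M⌋₊ < height t := by
        have h2 : ((⌊M⌋₊ : ℕ) : ℝ) ≤ M := Nat.floor_le hM0.le
        have h3 : ((⌊M⌋₊ : ℕ) : ℝ) < height t := lt_of_le_of_lt h2 h
        exact_mod_cast h3
      omega
    rw [if_pos h, if_neg this]
  · rw [if_neg h]; exact zero_le

theorem main {c : ℝ} (hc : 0 < c) {b ε : ℝ} (hb : b = 2 * c / (1 + 2 * c)) (hε : 0 < ε) :
    Tendsto (fun n : ℕ => (treeLaw (fw c) (fw_pos c) n).toOuterMeasure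
      {t | ((n:ℝ) + 1) ^ (b - ε) ≤ (height t : ℝ) ∧
        (height t : ℝ) ≤ ((n:ℝ) + 1) ^ (b + ε)}) atTop (𝓝 1) := by
  classical
  have hb0 : 0 < b := by rw [hb]; positivity
  set ε' := min ε (b / 2) with hε'
  have hε'p : 0 < ε' := lt_min hε (by positivity)
  have hε'1 : ε' ≤ ε := min_le_left _ _
  have hε'2 : ε' ≤ b / 2 := min_le_right _ _
  have h1 := low_tail hc hb hε'p (by linarith)
  have h2 := upp_tail hc hb hε'p
  have h3 : Tendsto (fun n : ℕ => 1 - (EE (fw c) (fw_pos c) n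
      (fun t => if (height t : ℝ) < ((n:ℝ) + 1) ^ (b - ε') then 1 else 0) +
      EE (fw c) (fw_pos c) n
      (fun t => if ((n:ℝ) + 1) ^ (b + ε') < (height t : ℝ) then 1 else 0))) atTop (𝓝 1) := by
    have h4 := ENNReal.Tendsto.sub (tendsto_const_nhds (x := (1:ℝ≥0∞))) (h1.add h2)
      (Or.inl ENNReal.one_ne_top)
    simpa using h4
  refine tendsto_of_tendsto_of_tendsto_of_le_of_le h3 tendsto_const_nhds ?_ ?_
  · intro n
    simp only
    rw [tsub_le_iff_right, toOuter_eq, ← EE_add, ← EE_add]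
    have hN : (1:ℝ) ≤ (n:ℝ) + 1 := by
      have : (0:ℝ) ≤ n := Nat.cast_nonneg n
      linarith
    calc (1:ℝ≥0∞) = EE (fw c) (fw_pos c) n (fun _ => 1) := (EE_one n).symm
      _ ≤ _ := by
        apply EE_mono
        intro t
        by_cases ha : (height t : ℝ) < ((n:ℝ) + 1) ^ (b - ε')
        · rw [if_pos ha]
          exact le_add_left (le_add_right le_rfl)
        · by_cases hb : ((n:ℝ) + 1) ^ (b + ε') < (height t : ℝ)
          · rw [if_pos hb]
            exact le_add_left (le_add_left le_rfl)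
          · push Not at ha hb
            have h5 : ((n:ℝ) + 1) ^ (b - ε) ≤ ((n:ℝ) + 1) ^ (b - ε') :=
              Real.rpow_le_rpow_of_exponent_le hN (by linarith)
            have h6 : ((n:ℝ) + 1) ^ (b + ε') ≤ ((n:ℝ) + 1) ^ (b + ε) :=
              Real.rpow_le_rpow_of_exponent_le hN (by linarith)
            rw [if_pos (show t ∈ {t | ((n:ℝ) + 1) ^ (b - ε) ≤ (height t : ℝ) ∧
              (height t : ℝ) ≤ ((n:ℝ) + 1) ^ (b + ε)} from ⟨h5.trans ha, hb.trans h6⟩)]
            exact le_add_right le_rfl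
  · intro n
    simp only
    rw [toOuter_eq]
    calc _ ≤ EE (fw c) (fw_pos c) n (fun _ => 1) := by
          apply EE_mono
          intro t
          split_ifs
          · exact le_rfl
          · exact zero_le
      _ = 1 := EE_one n

end

end Pool.Agent.Lib.MP_bb6489_pr
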