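import Pool.Agent.Lib.MP_bb6489_pr.Dual

/-!
Lower bounds for the probability that a lone vertex of depth `k` has an event soon.
-/

open MeasureTheory intervalIntegral Set Filter Topology
open scoped Nat

namespace Pool.Agent.Lib.MP_bb6489_pr

noncomputable section

/-- the travel time from depth `i` to depth `q` -/
def R (f : ℕ → ℝ) (q i : ℕ) : ℝ := ∑ k ∈ Finset.Ico i q, 1 / (Real.exp 1 * f k)

variable {f : ℕ → ℝ} {D : ℕ} {z T : ℝ}

theorem R_nonneg (hf : ∀ k, 0 < f k) (q i : ℕ) : 0 ≤ R f q i := by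
  unfold R
  apply Finset.sum_nonneg
  intro k _
  have := hf k
  positivity

theorem R_self (q : ℕ) : R f q q = 0 := by simp [R]

theorem R_split {i m q : ℕ} (h1 : i ≤ m) (h2 : m ≤ q) :
    R f q i = (∑ k ∈ Finset.Ico i m, 1 / (Real.exp 1 * f k)) + R f q m := by
  unfold R
  rw [Finset.sum_Ico_consecutive _ h1 h2]

theorem R_anti (hf : ∀ k, 0 < f k) {i m q : ℕ} (h1 : i ≤ m) (h2 : m ≤ q) :
    R f q m ≤ R f q i := by
  rw [R_split h1 h2]
  have : 0 ≤ ∑ k ∈ Finset.Ico i m, 1 / (Real.exp 1 * f k) := by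
    apply Finset.sum_nonneg
    intro k _
    have := hf k
    positivity
  linarith

theorem R_succ {i q : ℕ} (h1 : i < q) : R f q i = 1 / (Real.exp 1 * f i) + R f q (i + 1) := by
  rw [R_split (Nat.le_succ i) h1]; simp

/-- `1/(e f k)` sums are at least the number of terms times the last one -/
theorem sum_inv_ge (hf : ∀ k, 0 < f k) (hm : Monotone f) {i n m : ℕ} (h : i + n ≤ m + 1) :
    n / (Real.exp 1 * f m) ≤ ∑ k ∈ Finset.Ico i (i + n), 1 / (Real.exp 1 * f k) := by
  have : ∑ k ∈ Finset.Ico i (i + n), 1 / (Real.exp 1 * f m) = n / (Real.exp 1 * f m) := by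
    rw [Finset.sum_const, Nat.card_Ico, nsmul_eq_mul]
    simp only [add_tsub_cancel_left]
    ring
  rw [← this]
  apply Finset.sum_le_sum
  intro k hk
  rw [Finset.mem_Ico] at hk
  have h1 := hf k
  have h2 : f k ≤ f m := hm (by omega)
  apply one_div_le_one_div_of_le (by positivity)
  exact mul_le_mul_of_nonneg_left h2 (Real.exp_pos 1).le

theorem sum_inv_le (hf : ∀ k, 0 < f k) (hm : Monotone f) {i n : ℕ} :
    ∑ k ∈ Finset.Ico i (i + n), 1 / (Real.exp 1 * f k) ≤ n / (Real.exp 1 * f i) := by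
  have : ∑ k ∈ Finset.Ico i (i + n), 1 / (Real.exp 1 * f i) = n / (Real.exp 1 * f i) := by
    rw [Finset.sum_const, Nat.card_Ico, nsmul_eq_mul]
    simp only [add_tsub_cancel_left]
    ring
  rw [← this]
  apply Finset.sum_le_sum
  intro k hk
  rw [Finset.mem_Ico] at hk
  have h1 := hf i
  have h2 : f i ≤ f k := hm (by omega)
  apply one_div_le_one_div_of_le (by positivity)
  exact mul_le_mul_of_nonneg_left h2 (Real.exp_pos 1).le

theorem hasDeriv_pow_fact (a : ℝ) (l : ℕ) (s : ℝ) :
    HasDerivAt (fun s => (a * s) ^ (l + 1) / ((l + 1)! : ℝ)) (a * ((a * s) ^ l / (l ! : ℝ))) s := by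
  have h0 : HasDerivAt (fun s => a * s) a s := by
    simpa using (hasDerivAt_id s).const_mul a
  have h := (h0.fun_pow (l + 1)).div_const ((l + 1)! : ℝ)
  have e : ((l + 1 : ℕ) : ℝ) * (a * s) ^ (l + 1 - 1) * a / ((l + 1)! : ℝ) =
      a * ((a * s) ^ l / (l ! : ℝ)) := by
    rw [Nat.factorial_succ, Nat.add_sub_cancel]
    push_cast
    have : (l ! : ℝ) ≠ 0 := by positivity
    field_simp
  rw [← e]
  exact h

theorem block_inner (hf : ∀ k, 0 < f k) (hm : Monotone f) (hz : 0 ≤ z) (hz1 : z ≤ 1)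
    {j b : ℕ} {S X κ η : ℝ} (hS : 0 ≤ S) (hκ : 0 ≤ κ) (hη : 0 ≤ η) (hη1 : η ≤ 1)
    (hκη : κ * Real.exp (f j * X) ≤ η) (h0 : κ ≤ 1 - A f D z (j + b) S) (l : ℕ) :
    ∀ k, j ≤ k → k + l = j + b → ∀ x, 0 ≤ x → x ≤ X →
      κ * ((1 - η) ^ l * ((f j * x) ^ l / (l ! : ℝ))) ≤ 1 - A f D z k (S + x) := by
  have hle : ∀ n : ℕ, ∀ x, 0 ≤ x → x ≤ X →
      κ * ((1 - η) ^ n * ((f j * x) ^ n / (n ! : ℝ))) ≤ η := by
    intro n x hx hxX
    refine le_trans ?_ hκη
    apply mul_le_mul_of_nonneg_left _ hκ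
    have h1 : (1 - η) ^ n ≤ 1 := pow_le_one₀ (by linarith) (by linarith)
    have hfx : 0 ≤ f j * x := mul_nonneg (hf j).le hx
    have h2 : (f j * x) ^ n / (n ! : ℝ) ≤ Real.exp (f j * x) :=
      Real.pow_div_factorial_le_exp _ hfx n
    have h3 : Real.exp (f j * x) ≤ Real.exp (f j * X) := by
      apply Real.exp_le_exp.mpr
      exact mul_le_mul_of_nonneg_left hxX (hf j).le
    have h4 : 0 ≤ (f j * x) ^ n / (n ! : ℝ) := by positivity
    calc (1 - η) ^ n * ((f j * x) ^ n / (n ! : ℝ)) ≤ 1 * ((f j * x) ^ n / (n ! : ℝ)) :=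
          mul_le_mul_of_nonneg_right h1 h4
      _ ≤ Real.exp (f j * X) := by rw [one_mul]; exact h2.trans h3
  induction l with
  | zero =>
    intro k hk hkl x hx hxX
    have : k = j + b := by omega
    subst this
    have h1 := A_anti (D := D) hf hz hz1 (j + b) (show (0:ℝ) ≤ S from hS)
      (show (0:ℝ) ≤ S + x by linarith) (show S ≤ S + x by linarith)
    simp
    linarith
  | succ l ih =>
    intro k hk hkl x hx hxX
    rcases le_or_gt D k with hD | hD
    · rw [A_of_ge hD]
      have := hle (l + 1) x hx hxX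
      linarith
    · by_cases hy : η ≤ 1 - A f D z k (S + x)
      · exact (hle (l + 1) x hx hxX).trans hy
      · push Not at hy
        have hd1 : ∀ s, HasDerivAt (fun s => κ * ((1 - η) ^ (l+1) *
            ((f j * s) ^ (l + 1) / ((l + 1)! : ℝ)))) (κ * ((1 - η) ^ (l+1) *
            (f j * ((f j * s) ^ l / (l ! : ℝ))))) s := fun s =>
          ((hasDeriv_pow_fact (f j) l s).const_mul _).const_mul _
        have hd2 : ∀ s, HasDerivAt (fun s => 1 - A f D z k (S + s))
            (f k * (1 - (1 - z) * A f D z (k + 1) (S + s)) * A f D z k (S + s)) s := by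
          intro s
          have h1 := (A_hasDeriv (f := f) (z := z) hD (S + s)).comp_const_add S s
          have h2 := h1.const_sub 1
          rw [neg_neg] at h2
          exact h2
        refine le_of_deriv_le hx hd1 hd2 ?_ ?_
        · simp
          exact A_le_one hf hz hz1 k hS
        · intro s hs hsx
          have ih1 := ih (k + 1) (by omega) (by omega) s hs.le (by linarith)
          have hSs : 0 ≤ S + s := by linarith
          have hA1 := A_nonneg (f := f) (D := D) (z := z) (k + 1) (S + s)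
          have h1 : κ * ((1 - η) ^ l * ((f j * s) ^ l / (l ! : ℝ))) ≤
              1 - (1 - z) * A f D z (k + 1) (S + s) := by nlinarith
          have h2 : 1 - η ≤ A f D z k (S + s) := by
            have := A_anti (D := D) hf hz hz1 k (show (0:ℝ) ≤ S + s from hSs)
              (show (0:ℝ) ≤ S + x by linarith) (show S + s ≤ S + x by linarith)
            linarith
          have h3 : f j ≤ f k := hm hk
          have hfj := (hf j).le
          have h4 : 0 ≤ κ * ((1 - η) ^ l * ((f j * s) ^ l / (l ! : ℝ))) := by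
            have : 0 ≤ 1 - η := by linarith
            positivity
          have h5 : f j * (κ * ((1 - η) ^ l * ((f j * s) ^ l / (l ! : ℝ)))) ≤
              f k * (1 - (1 - z) * A f D z (k + 1) (S + s)) :=
            mul_le_mul h3 h1 h4 (hfj.trans h3)
          have h6 := mul_le_mul h5 h2 (by linarith) ((mul_nonneg hfj h4).trans h5)
          calc κ * ((1 - η) ^ (l+1) * (f j * ((f j * s) ^ l / (l ! : ℝ)))) =
              f j * (κ * ((1 - η) ^ l * ((f j * s) ^ l / (l ! : ℝ)))) * (1 - η) := by ring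
            _ ≤ _ := h6

theorem block (hf : ∀ k, 0 < f k) (hm : Monotone f) (hz : 0 ≤ z) (hz1 : z ≤ 1)
    {j b : ℕ} {S β η : ℝ} (hS : 0 ≤ S) (hβ : 0 ≤ β) (hη : 0 ≤ η) (hη1 : η ≤ 1)
    (hb : 1 ≤ (1 - η) ^ b * (β ^ b / (b ! : ℝ)))
    (h0 : η * Real.exp (-β) ≤ 1 - A f D z (j + b) S) :
    η * Real.exp (-β) ≤ 1 - A f D z j (S + β / f j) := by
  have hfj := hf j
  have h1 := block_inner (X := β / f j) (κ := η * Real.exp (-β)) hf hm hz hz1 hS
    (by positivity) hη hη1 (by
      rw [mul_div_cancel₀ _ hfj.ne', mul_assoc, ← Real.exp_add]; simp) h0 b j le_rfl rfl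
      (β / f j) (by positivity) le_rfl
  rw [mul_div_cancel₀ _ hfj.ne'] at h1
  refine le_trans ?_ h1
  exact le_mul_of_one_le_right (by positivity) hb

theorem L1 (hf : ∀ k, 0 < f k) (hm : Monotone f) (hz : 0 ≤ z) (hz1 : z ≤ 1)
    {b : ℕ} {δ η : ℝ} (hδ : 0 ≤ δ) (hη : 0 ≤ η) (hη1 : η ≤ 1)
    (hb : 1 ≤ (1 - η) ^ b * (((1 + δ) * b / Real.exp 1) ^ b / (b ! : ℝ))) (hb0 : 0 < b) :
    ∀ n j, D - j ≤ n → j < D → η * Real.exp (-((1 + δ) * b / Real.exp 1)) ≤
      1 - A f D z j ((1 + δ) * R f D (j + 1) + ((1 + δ) * b / Real.exp 1) / f j) := by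
  intro n
  induction n with
  | zero => intro j h1 h2; omega
  | succ n ih =>
    intro j h1 h2
    have hβ : 0 ≤ (1 + δ) * b / Real.exp 1 := by positivity
    have hR := R_nonneg (f := f) hf D (j+1)
    have hδ' : 0 ≤ 1 + δ := by linarith
    rcases le_or_gt D (j + b) with hD | hD
    · have h3 := block (D := D) (j := j) (S := 0) hf hm hz hz1 le_rfl hβ hη hη1 hb (by
        rw [A_of_ge hD, sub_zero]
        calc η * Real.exp (-((1 + δ) * b / Real.exp 1)) ≤ 1 * 1 := by
              apply mul_le_mul hη1 _ (Real.exp_pos _).le zero_le_one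
              rw [Real.exp_le_one_iff]; linarith
          _ = 1 := one_mul 1)
      refine h3.trans ?_
      have hfj := hf j
      have h4 := A_anti (D := D) hf hz hz1 j (show (0:ℝ) ≤ 0 + ((1 + δ) * b / Real.exp 1) / f j by
          positivity)
        (show (0:ℝ) ≤ (1 + δ) * R f D (j + 1) + ((1 + δ) * b / Real.exp 1) / f j by positivity)
        (by have : 0 ≤ (1 + δ) * R f D (j + 1) := by positivity
            linarith)
      linarith
    · have ih1 := ih (j + b) (by omega) hD
      have hR2 := R_nonneg (f := f) hf D (j+b+1)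
      have hfb := hf (j + b)
      have h3 := block (D := D) (j := j)
        (S := (1 + δ) * R f D (j + b + 1) + ((1 + δ) * b / Real.exp 1) / f (j + b))
        hf hm hz hz1 (by positivity) hβ hη hη1 hb ih1
      refine h3.trans ?_
      have hfj := hf j
      have h5 : R f D (j + 1) ≥ b / (Real.exp 1 * f (j + b)) + R f D (j + b + 1) := by
        rw [R_split (show j + 1 ≤ j + 1 + b by omega) (show j + 1 + b ≤ D by omega)]
        have := sum_inv_ge (i := j + 1) (n := b) (m := j + b) hf hm (by omega)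
        have e : j + 1 + b = j + b + 1 := by omega
        rw [e] at this ⊢
        linarith
      have h6 : ((1 + δ) * b / Real.exp 1) / f (j + b) =
          (1 + δ) * (b / (Real.exp 1 * f (j + b))) := by
        field_simp
      have h7 := mul_le_mul_of_nonneg_left h5 hδ'
      have h4 := A_anti (D := D) hf hz hz1 j
        (show (0:ℝ) ≤ (1 + δ) * R f D (j + b + 1) + ((1 + δ) * b / Real.exp 1) / f (j + b) +
          ((1 + δ) * b / Real.exp 1) / f j by positivity)
        (show (0:ℝ) ≤ (1 + δ) * R f D (j + 1) + ((1 + δ) * b / Real.exp 1) / f j by positivity)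
        (by rw [h6]; linarith)
      linarith

theorem single (hf : ∀ k, 0 < f k) (hz : 0 ≤ z) (hz1 : z ≤ 1) {k : ℕ} (hk : k < D)
    {s : ℝ} (hs : 0 ≤ s) :
    (1 - A f D z (k + 1) s) / (4 * Real.exp 1) ≤
      1 - A f D z k (s + 1 / (2 * Real.exp 1 * f k)) := by
  have hfk := hf k
  set x := 1 / (2 * Real.exp 1 * f k) with hx
  have hx0 : 0 ≤ x := by positivity
  have he : 1 ≤ Real.exp 1 := Real.one_le_exp zero_le_one
  set g := 1 - A f D z (k + 1) s with hg
  have hg0 : 0 ≤ g := by have := A_le_one (D := D) hf hz hz1 (k+1) hs; linarith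
  have hg1 : g ≤ 1 := by have := A_nonneg (f := f) (D := D) (z := z) (k+1) s; linarith
  have hc : Continuous (fun s => (1 - (1 - z) * A f D z (k + 1) s)) := by
    have := A_cont (f := f) (D := D) (z := z) (k + 1)
    fun_prop
  have h1 : x * g ≤ ∫ t in (0:ℝ)..(s + x), (1 - (1 - z) * A f D z (k + 1) t) := by
    rw [← intervalIntegral.integral_add_adjacent_intervals (hc.intervalIntegrable 0 s)
      (hc.intervalIntegrable s (s + x))]
    have h2 : 0 ≤ ∫ t in (0:ℝ)..s, (1 - (1 - z) * A f D z (k + 1) t) := by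
      apply intervalIntegral.integral_nonneg hs
      intro t ht
      have h3 := A_nonneg (f := f) (D := D) (z := z) (k+1) t
      have h4 := A_le_one (D := D) hf hz hz1 (k+1) ht.1
      nlinarith
    have h3 : ∫ t in s..(s + x), g ≤ ∫ t in s..(s + x), (1 - (1 - z) * A f D z (k + 1) t) := by
      apply intervalIntegral.integral_mono_on (by linarith)
      · exact continuous_const.intervalIntegrable _ _
      · exact hc.intervalIntegrable _ _
      · intro t ht
        have h4 := A_anti (D := D) hf hz hz1 (k+1) (show (0:ℝ) ≤ s from hs)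
          (show (0:ℝ) ≤ t from hs.trans ht.1) ht.1
        have h5 := A_nonneg (f := f) (D := D) (z := z) (k+1) t
        nlinarith
    rw [intervalIntegral.integral_const] at h3
    simp only [add_sub_cancel_left, smul_eq_mul] at h3
    linarith
  have h2 : A f D z k (s + x) ≤ Real.exp (-(g / (2 * Real.exp 1))) := by
    rw [A_of_lt hk]
    apply Real.exp_le_exp.mpr
    have h3 := mul_le_mul_of_nonneg_left h1 hfk.le
    have h4 : f k * (x * g) = g / (2 * Real.exp 1) := by
      rw [hx]; field_simp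
    linarith
  set y := g / (2 * Real.exp 1) with hy
  have hy0 : 0 ≤ y := by positivity
  have hy1 : y ≤ 1 := by
    rw [hy, div_le_one (by positivity)]; linarith
  have h3 : Real.exp (-y) ≤ 1 - y / 2 := by
    rw [Real.exp_neg]
    have h4 : 1 + y ≤ Real.exp y := by linarith [Real.add_one_le_exp y]
    have h5 : (Real.exp y)⁻¹ ≤ (1 + y)⁻¹ := inv_anti₀ (by linarith) h4
    have h6 : (1 + y)⁻¹ ≤ 1 - y / 2 := by
      rw [inv_le_iff_one_le_mul₀ (by linarith)]
      nlinarith
    linarith
  have h4 : g / (4 * Real.exp 1) = y / 2 := by rw [hy]; field_simp; norm_num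
  rw [h4]; linarith

theorem multi (hf : ∀ k, 0 < f k) (hz : 0 ≤ z) (hz1 : z ≤ 1) {i : ℕ} (h : ℕ) :
    i + h ≤ D → ∀ s, 0 ≤ s → (1 - A f D z (i + h) s) / (4 * Real.exp 1) ^ h ≤
      1 - A f D z i (s + ∑ k ∈ Finset.Ico i (i + h), 1 / (2 * Real.exp 1 * f k)) := by
  induction h with
  | zero => intro _ s _; simp
  | succ h ih =>
    intro hD s hs
    have hfk := hf (i + h)
    have h1 := single (D := D) hf hz hz1 (show i + h < D by omega) hs
    have h2 := ih (by omega) (s + 1 / (2 * Real.exp 1 * f (i + h))) (by positivity)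
    rw [← add_assoc i h 1, Finset.sum_Ico_succ_top (by omega)]
    have e : s + 1 / (2 * Real.exp 1 * f (i + h)) +
      ∑ k ∈ Finset.Ico i (i + h), 1 / (2 * Real.exp 1 * f k) =
      s + (∑ k ∈ Finset.Ico i (i + h), 1 / (2 * Real.exp 1 * f k) +
        1 / (2 * Real.exp 1 * f (i + h))) := by ring
    rw [e] at h2
    refine le_trans ?_ h2
    rw [pow_succ, mul_comm ((4 * Real.exp 1) ^ h), ← div_div]
    exact div_le_div_of_nonneg_right h1 (by positivity)

theorem lemmaL (hf : ∀ k, 0 < f k) (hm : Monotone f) (hz : 0 ≤ z) (hz1 : z ≤ 1)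
    {b : ℕ} {δ η Λ : ℝ} (hδ : 0 ≤ δ) (hη : 0 ≤ η) (hη1 : η ≤ 1)
    (hb : 1 ≤ (1 - η) ^ b * (((1 + δ) * b / Real.exp 1) ^ b / (b ! : ℝ))) (hb0 : 0 < b)
    (hΛ : ∀ i, i < D → Real.exp 1 * f i * R f D i ≤ Λ)
    {h : ℕ} (hh : δ * Λ + (1 + δ) * b ≤ h / 2) {i : ℕ} (hi : i ≤ D) :
    η * Real.exp (-((1 + δ) * b / Real.exp 1)) / (4 * Real.exp 1) ^ h ≤
      1 - A f D z i (R f D i) := by
  have hbp : (0:ℝ) < b := by exact_mod_cast hb0
  have he := Real.exp_pos 1
  have he1 : 1 ≤ Real.exp 1 := Real.one_le_exp zero_le_one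
  rcases le_or_gt D (i + h) with hD | hD
  · obtain ⟨h', rfl⟩ : ∃ h', D = i + h' := ⟨D - i, by omega⟩
    have h1 := multi (f := f) (D := i + h') hf hz hz1 (i := i) h' le_rfl 0 le_rfl
    rw [A_of_ge le_rfl, sub_zero, zero_add] at h1
    have h2 : η * Real.exp (-((1 + δ) * b / Real.exp 1)) / (4 * Real.exp 1) ^ h ≤
        1 / (4 * Real.exp 1) ^ h' := by
      have h3 : η * Real.exp (-((1 + δ) * b / Real.exp 1)) ≤ 1 := by
        calc η * Real.exp (-((1 + δ) * b / Real.exp 1)) ≤ 1 * 1 := by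
              apply mul_le_mul hη1 _ (Real.exp_pos _).le zero_le_one
              rw [Real.exp_le_one_iff]
              have : 0 ≤ (1 + δ) * b / Real.exp 1 := by positivity
              linarith
          _ = 1 := one_mul 1
      have h4 : (4 * Real.exp 1) ^ h' ≤ (4 * Real.exp 1) ^ h :=
        pow_le_pow_right₀ (by linarith) (by omega)
      exact div_le_div₀ zero_le_one h3 (by positivity) h4
    refine h2.trans (h1.trans ?_)
    have h5 : ∑ k ∈ Finset.Ico i (i + h'), 1 / (2 * Real.exp 1 * f k) ≤ R f (i + h') i := by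
      unfold R
      apply Finset.sum_le_sum
      intro k _
      have := hf k
      apply one_div_le_one_div_of_le (by positivity)
      nlinarith [mul_pos he this]
    have h6 : 0 ≤ ∑ k ∈ Finset.Ico i (i + h'), 1 / (2 * Real.exp 1 * f k) := by
      apply Finset.sum_nonneg; intro k _; have := hf k; positivity
    have h7 := A_anti (D := i + h') hf hz hz1 i h6 (h6.trans h5) h5
    linarith
  · have hfh := hf (i + h)
    have hR := R_nonneg (f := f) hf D (i + h + 1)
    set s := (1 + δ) * R f D (i + h + 1) + ((1 + δ) * b / Real.exp 1) / f (i + h) with hs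
    have hs0 : 0 ≤ s := by positivity
    have h1 := L1 (D := D) (b := b) hf hm hz hz1 hδ hη hη1 hb hb0 (D - (i + h)) (i + h) le_rfl hD
    have h2 := multi (f := f) (D := D) hf hz hz1 (i := i) h hD.le s hs0
    refine le_trans (div_le_div_of_nonneg_right h1 (by positivity)) (h2.trans ?_)
    have h5 : s + ∑ k ∈ Finset.Ico i (i + h), 1 / (2 * Real.exp 1 * f k) ≤ R f D i := by
      rw [R_split (show i ≤ i + h by omega) hD.le, R_succ hD]
      have e1 : ∑ k ∈ Finset.Ico i (i + h), 1 / (2 * Real.exp 1 * f k) =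
          (1 / 2) * ∑ k ∈ Finset.Ico i (i + h), 1 / (Real.exp 1 * f k) := by
        rw [Finset.mul_sum]
        apply Finset.sum_congr rfl
        intro k _
        have := hf k
        field_simp
      have e2 := sum_inv_ge (i := i) (n := h) (m := i + h) hf hm (by omega)
      have e3 := hΛ (i + h) hD
      rw [R_succ hD] at e3
      have e4 : δ * R f D (i + h + 1) + ((1 + δ) * b / Real.exp 1) / f (i + h) ≤
          (1 / 2) * (h / (Real.exp 1 * f (i + h))) := by
        have hp : 0 < Real.exp 1 * f (i + h) := by positivity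
        have e5 : δ * R f D (i + h + 1) + ((1 + δ) * b / Real.exp 1) / f (i + h) =
            (δ * (Real.exp 1 * f (i + h) * R f D (i + h + 1)) + (1 + δ) * b) /
            (Real.exp 1 * f (i + h)) := by
          field_simp
        have e6 : (1 / 2) * (h / (Real.exp 1 * f (i + h))) = (h / 2) /
            (Real.exp 1 * f (i + h)) := by ring
        rw [e5, e6]
        apply div_le_div_of_nonneg_right _ hp.le
        have e7 : Real.exp 1 * f (i + h) * R f D (i + h + 1) ≤ Λ := by
          have : 0 ≤ Real.exp 1 * f (i + h) * (1 / (Real.exp 1 * f (i + h))) := by positivity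
          nlinarith
        have := mul_le_mul_of_nonneg_left e7 hδ
        linarith
      have e8 : 0 ≤ 1 / (Real.exp 1 * f (i + h)) := by positivity
      rw [e1]
      have e9 : (0:ℝ) ≤ (1/2) * (h / (Real.exp 1 * f (i + h))) := by positivity
      linarith
    have h6 : 0 ≤ s + ∑ k ∈ Finset.Ico i (i + h), 1 / (2 * Real.exp 1 * f k) := by
      have : 0 ≤ ∑ k ∈ Finset.Ico i (i + h), 1 / (2 * Real.exp 1 * f k) := by
        apply Finset.sum_nonneg; intro k _; have := hf k; positivity
      linarith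
    have h7 := A_anti (D := D) hf hz hz1 i h6 (h6.trans h5) h5
    linarith

/-! ### A suitable block length -/

theorem fact_le (n : ℕ) (hn : 1 ≤ n) : (n ! : ℝ) ≤ Real.exp 1 * n * (n / Real.exp 1) ^ n := by
  induction n, hn using Nat.le_induction with
  | base => simp
  | succ n hn ih =>
    have hnp : (0:ℝ) < n := by exact_mod_cast hn
    have he := Real.exp_pos 1
    rw [Nat.factorial_succ]
    push_cast
    have h1 : Real.exp (1 / ((n:ℝ) + 1)) ≤ (n + 1) / n := by
      have h2 := Real.add_one_le_exp (-(1 / ((n:ℝ) + 1)))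
      rw [Real.exp_neg] at h2
      have h3 : (n:ℝ) / (n + 1) ≤ (Real.exp (1 / ((n:ℝ) + 1)))⁻¹ := by
        refine le_trans (le_of_eq ?_) h2
        field_simp; ring
      have h4 := inv_anti₀ (by positivity) h3
      rw [inv_inv, inv_div] at h4
      exact h4
    have h2 : Real.exp 1 ≤ ((n + 1) / n : ℝ) ^ (n + 1) := by
      calc Real.exp 1 = Real.exp (1 / ((n:ℝ) + 1)) ^ (n + 1) := by
            rw [← Real.exp_nat_mul]; congr 1; push_cast; field_simp
        _ ≤ _ := pow_le_pow_left₀ (Real.exp_pos _).le h1 _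
    have h3 : (n:ℝ) * (n / Real.exp 1) ^ n ≤ ((n + 1) / Real.exp 1) ^ (n + 1) := by
      rw [div_pow] at h2
      rw [le_div_iff₀ (by positivity)] at h2
      rw [div_pow, div_pow, mul_div_assoc', div_le_div_iff₀ (by positivity) (by positivity)]
      calc (n:ℝ) * n ^ n * Real.exp 1 ^ (n + 1) = (Real.exp 1 * n ^ (n+1)) * Real.exp 1 ^ n := by
            ring
        _ ≤ (n + 1) ^ (n + 1) * Real.exp 1 ^ n := by
            apply mul_le_mul_of_nonneg_right h2 (by positivity)
    calc ((n:ℝ) + 1) * (n ! : ℝ) ≤ (n + 1) * (Real.exp 1 * n * (n / Real.exp 1) ^ n) := by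
          apply mul_le_mul_of_nonneg_left ih (by positivity)
      _ = Real.exp 1 * (n + 1) * (n * (n / Real.exp 1) ^ n) := by ring
      _ ≤ _ := by apply mul_le_mul_of_nonneg_left h3 (by positivity)

theorem exists_block {δ : ℝ} (hδ : 0 < δ) (hδ1 : δ ≤ 1) : ∃ b : ℕ, 0 < b ∧
    1 ≤ (1 - δ / 4) ^ b * (((1 + δ) * b / Real.exp 1) ^ b / (b ! : ℝ)) := by
  have h1 : (1:ℝ) < 1 + δ / 2 := by linarith
  have h2 := tendsto_pow_const_div_const_pow_of_one_lt 1 h1
  have h3 : ∀ᶠ n : ℕ in atTop, (n:ℝ) ^ 1 / (1 + δ / 2) ^ n < 1 / Real.exp 1 :=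
    h2.eventually (gt_mem_nhds (by positivity))
  obtain ⟨b, hb, hb1⟩ := (h3.and (eventually_ge_atTop 1)).exists
  refine ⟨b, hb1, ?_⟩
  have hbp : (0:ℝ) < b := by exact_mod_cast hb1
  have he := Real.exp_pos 1
  have h4 := fact_le b hb1
  rw [pow_one, div_lt_div_iff₀ (by positivity) (by positivity)] at hb
  rw [mul_div_assoc', le_div_iff₀ (by positivity), one_mul]
  refine h4.trans ?_
  calc Real.exp 1 * b * (b / Real.exp 1) ^ b ≤ (1 + δ / 2) ^ b * (b / Real.exp 1) ^ b := by
        apply mul_le_mul_of_nonneg_right _ (by positivity)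
        linarith
    _ ≤ ((1 - δ / 4) * (1 + δ)) ^ b * (b / Real.exp 1) ^ b := by
        apply mul_le_mul_of_nonneg_right _ (by positivity)
        apply pow_le_pow_left₀ (by positivity)
        nlinarith
    _ = _ := by
        rw [← mul_pow, ← mul_pow]; congr 1; ring

end

end Pool.Agent.Lib.MP_bb6489_pr
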