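import Pool.Agent.Lib.MP_bb6489_pr.PartB
import Pool.Agent.Lib.MP_bb6489_pr.Abel

/-!
The upper bound for the depth of the tree.
-/

open MeasureTheory intervalIntegral Set Filter Topology
open scoped Nat ENNReal

namespace Pool.Agent.Lib.MP_bb6489_pr

noncomputable section

/-- the natural length scale -/
def XX (c : ℝ) (D : ℕ) : ℝ := Real.log (D + 2) / c

/-- the window length -/
def hp (c t : ℝ) (D : ℕ) : ℕ := ⌈16 * XX c D / t ^ 2⌉₊

/-- local regularity of the weight function near the target -/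
structure Loc (c t C : ℝ) (D : ℕ) : Prop where
  up : ∀ i r : ℕ, D ≤ 2 * i → i + r ≤ D →
    phi c (i + r) - phi c i ≤ (1 + t ^ 2 / 8) / XX c D * r
  lo : ∀ i r : ℕ, D ≤ 2 * i → i + r ≤ D →
    (1 - t ^ 2 / 8) / XX c D * r ≤ phi c (i + r) - phi c i
  Lup : ∀ i, i ≤ D → Real.exp 1 * fw c i * R (fw c) D i ≤ XX c D + C
  Llo : ∀ i, D ≤ 2 * i → i + hp c t D ≤ D →
    (1 - t ^ 2 / 4) * XX c D ≤ Real.exp 1 * fw c i * R (fw c) D i

theorem XX_pos {c : ℝ} (hc : 0 < c) (D : ℕ) : 0 < XX c D := div_pos (log_two_pos D) hc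

theorem tendsto_XX {c : ℝ} (hc : 0 < c) : Tendsto (XX c) atTop atTop := by
  unfold XX
  apply Tendsto.atTop_div_const hc
  apply Real.tendsto_log_atTop.comp
  exact tendsto_atTop_add_const_right _ _ tendsto_natCast_atTop_atTop

theorem exp_inv_le {x : ℝ} (hx : 0 < x) : Real.exp (-x) ≤ 1 / x := by
  rw [Real.exp_neg, inv_eq_one_div]
  apply one_div_le_one_div_of_le hx
  linarith [Real.add_one_le_exp x]

theorem exists_Loc {c : ℝ} (hc : 0 < c) {t : ℝ} (ht : 0 < t) (ht1 : t ≤ 1 / 2) :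
    ∃ C : ℝ, 0 < C ∧ ∀ᶠ D : ℕ in atTop, Loc c t C D := by
  obtain ⟨C, hC0, hC⟩ := Lam_le hc
  refine ⟨C, hC0, ?_⟩
  set η := t ^ 2 / 8 with hη
  have hηp : 0 < η := by positivity
  have hη1 : η ≤ 1 / 32 := by rw [hη]; nlinarith
  have hl2 := Real.log_two_gt_d9
  have hl2' := Real.log_two_lt_d9
  filter_upwards [(tendsto_XX hc).eventually_ge_atTop (3 / (η * c))] with D hD
  have hXp := XX_pos hc D
  set X := XX c D with hX
  have hl : Real.log ((D:ℝ) + 2) = c * X := by
    rw [hX]; unfold XX; field_simp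
  have hcX : 3 / η ≤ c * X := by
    have := mul_le_mul_of_nonneg_left hD hc.le
    refine le_trans (le_of_eq ?_) this
    field_simp
  have h3 : 96 ≤ 3 / η := by
    rw [le_div_iff₀ hηp]; linarith
  have hlog : ∀ i : ℕ, D ≤ 2 * i → c * X - Real.log 2 ≤ Real.log ((i:ℝ) + 2) := by
    intro i hi
    rw [← hl, ← Real.log_div (by positivity) (by norm_num)]
    apply Real.log_le_log (by positivity)
    have : (D:ℝ) ≤ 2 * i := by exact_mod_cast hi
    linarith
  have hlogu : ∀ i : ℕ, i ≤ D → Real.log ((i:ℝ) + 2) ≤ c * X := by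
    intro i hi
    rw [← hl]
    apply Real.log_le_log (by positivity)
    have : (i:ℝ) ≤ D := by exact_mod_cast hi
    linarith
  have hηc : 3 ≤ η * (c * X) := by
    rw [div_le_iff₀ hηp] at hcX; linarith
  have hup : ∀ i r : ℕ, D ≤ 2 * i → i + r ≤ D →
      phi c (i + r) - phi c i ≤ (1 + η) / X * r := by
    intro i r hi hr
    refine (phi_diff_le hc i r).trans ?_
    have h1 := hlog i hi
    have h2 : 0 < c * X - Real.log 2 := by linarith
    have h4 : c * r / Real.log (i + 2) ≤ c * r / (c * X - Real.log 2) :=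
      div_le_div_of_nonneg_left (by positivity) h2 h1
    refine h4.trans ?_
    rw [div_le_iff₀ h2]
    have h5 : c * X ≤ (1 + η) * (c * X - Real.log 2) := by nlinarith
    have hr0 : (0:ℝ) ≤ r := Nat.cast_nonneg r
    have h6 : (1 + η) / X * r * (c * X - Real.log 2) =
      ((1 + η) * (c * X - Real.log 2)) * (r / X) := by ring
    rw [h6]
    have h7 := mul_le_mul_of_nonneg_right h5 (show 0 ≤ (r:ℝ) / X by positivity)
    refine le_trans (le_of_eq ?_) h7
    field_simp
  refine ⟨hup, ?_, ?_, ?_⟩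
  · intro i r hi hr
    refine le_trans ?_ (phi_diff_ge1 hc i r)
    have h1 := hlog i hi
    have h2 : 0 < c * X - Real.log 2 := by linarith
    have h3' : Real.log ((i:ℝ) + r + 2) ≤ c * X := by
      have := hlogu (i + r) hr
      push_cast at this; exact this
    have hy : 0 < Real.log ((i:ℝ) + r + 2) := lt_of_lt_of_le (log_two_pos i) (log_mono_aux i r)
    have h4 : 1 / Real.log ((i:ℝ) + 2) ≤ η := by
      have h5 : 1 / Real.log ((i:ℝ) + 2) ≤ 1 / (c * X - Real.log 2) :=
        one_div_le_one_div_of_le h2 h1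
      refine h5.trans ?_
      rw [div_le_iff₀ h2]
      nlinarith
    have h5 : r / X ≤ c * r / Real.log ((i:ℝ) + r + 2) := by
      rw [div_le_div_iff₀ hXp hy]
      have hr0 : (0:ℝ) ≤ r := Nat.cast_nonneg r
      nlinarith [mul_le_mul_of_nonneg_left h3' hr0]
    calc (1 - η) / X * r = r / X * (1 - η) := by ring
      _ ≤ c * r / Real.log ((i:ℝ) + r + 2) * (1 - 1 / Real.log (i + 2)) := by
          apply mul_le_mul h5 (by linarith) (by linarith)
          positivity
  · intro i hi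
    refine (hC D i hi).trans ?_
    have h1 := div_le_div_of_nonneg_right (hlogu i hi) hc.le
    have h2 : c * X / c = X := by field_simp
    linarith
  · intro i hi hih
    obtain ⟨n, hn⟩ := Nat.exists_eq_add_of_le (show i ≤ D by omega)
    have hhp : hp c t D ≤ n := by omega
    have h1 : Real.exp 1 * fw c i * R (fw c) D i =
        ∑ r ∈ Finset.range n, Real.exp (-(phi c (i + r) - phi c i)) := by
      conv_lhs => rw [hn]
      rw [Lam_eq']
    rw [h1]
    set s := (1 + η) / X with hs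
    have hsp : 0 < s := by rw [hs]; positivity
    have h2 : ∑ r ∈ Finset.range n, Real.exp (-(s * r)) ≤
        ∑ r ∈ Finset.range n, Real.exp (-(phi c (i + r) - phi c i)) := by
      apply Finset.sum_le_sum
      intro r hr
      rw [Finset.mem_range] at hr
      apply Real.exp_le_exp.mpr
      have := hup i r hi (by omega)
      linarith
    refine le_trans ?_ ((geom_ge hsp n).trans h2)
    have h4 : 16 / t ^ 2 ≤ s * n := by
      have h5 : 16 * X / t ^ 2 ≤ (n:ℝ) := by
        have h6 := Nat.le_ceil (16 * XX c D / t ^ 2)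
        have h7 : ((hp c t D : ℕ) : ℝ) ≤ n := by exact_mod_cast hhp
        exact h6.trans h7
      have h6 := mul_le_mul_of_nonneg_left h5 hsp.le
      refine le_trans ?_ h6
      rw [hs]
      have h7 : (1 + η) / X * (16 * X / t ^ 2) = (1 + η) * (16 / t ^ 2) := by field_simp
      rw [h7]
      have h8 : 0 < 16 / t ^ 2 := by positivity
      nlinarith
    have h5 : Real.exp (-(s * n)) ≤ η := by
      have h6 : Real.exp (-(s * n)) ≤ Real.exp (-(16 / t ^ 2)) :=
        Real.exp_le_exp.mpr (by linarith)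
      refine h6.trans ((exp_inv_le (by positivity)).trans ?_)
      rw [hη, one_div_div]
      apply div_le_div_of_nonneg_left (by positivity) (by norm_num) (by norm_num)
    rw [le_div_iff₀ hsp, hs]
    have h6 : (1 - t ^ 2 / 4) * X * ((1 + η) / X) = (1 - 2 * η) * (1 + η) := by
      rw [hη]; field_simp; ring
    rw [h6]
    nlinarith

/-! ### Old ancestors -/

theorem stepA2 {c : ℝ} {t : ℝ} (ht : 0 < t) (ht1 : t ≤ 1 / 2) {C : ℝ}
    (hC0 : 0 < C) {D : ℕ} (hL : Loc c t C D) (hX : 12 / t ≤ XX c D) (hc : 0 < c) {z T CC ε : ℝ}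
    (hz : 0 ≤ z) (hz1 : z < 1) (hCC : 0 < CC)
    (hCCb : ∀ i, i ≤ D → Real.exp 1 / CC ≤ 1 - A (fw c) D z i (R (fw c) D i))
    (hT : R (fw c) D 0 ≤ T) {i : ℕ} (hi : D ≤ 2 * i) (hih : i + hp c t D ≤ D)
    (hε : 4 * (XX c D + C) * CC * Real.exp (-(t ^ 3 * XX c D / 8)) ≤ ε)
    (hF : ε ≤ F (fw c) D z D 0 T) :
    ε / 2 ≤ W (fw c) D z T i ((1 - t ^ 2) * R (fw c) D i) := by
  set X := XX c D with hXdef
  have hXp : 0 < X := XX_pos hc D
  have ht2 : t ^ 2 ≤ 1 / 4 := by nlinarith only [ht, ht1]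
  have ht2p : 0 < t ^ 2 := by positivity
  have he := Real.exp_pos 1
  have hfi := fw_pos c i
  -- the number of levels
  set m := ⌊t * X / 2⌋₊ with hm
  have htX : 12 ≤ t * X := by
    rw [div_le_iff₀ ht] at hX; linarith
  have hm1 : (m:ℝ) ≤ t * X / 2 := Nat.floor_le (by positivity)
  have hm2 : t * X / 2 - 1 ≤ m := by
    have := Nat.lt_floor_add_one (t * X / 2)
    rw [← hm] at this; linarith
  have hm5 : (1:ℝ) ≤ m := by linarith
  have hm1' : 1 ≤ m := by exact_mod_cast hm5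
  have hmhp : m ≤ hp c t D := by
    have h1 := Nat.le_ceil (16 * XX c D / t ^ 2)
    have h2 : (m:ℝ) ≤ (hp c t D : ℕ) := by
      refine hm1.trans (le_trans ?_ h1)
      rw [← hXdef, le_div_iff₀ ht2p]
      have e1 : t * X / 2 * t ^ 2 = X * (t * t ^ 2 / 2) := by ring
      have e2 : t * t ^ 2 / 2 ≤ 16 := by nlinarith only [ht, ht1, ht2, ht2p]
      rw [e1]
      nlinarith only [e2, hXp]
    exact_mod_cast h2
  have him : i + m ≤ D := by omega
  have hR0 : 0 ≤ R (fw c) D i := R_nonneg (fw_pos c) D i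
  set U := (1 - t ^ 2) * R (fw c) D i with hU
  have hU0 : 0 ≤ U := mul_nonneg (by linarith) hR0
  have hU2 : U ≤ R (fw c) D i := by rw [hU]; nlinarith only [hR0, ht2p]
  have hRT : R (fw c) D i ≤ T := (R_anti (fw_pos c) (Nat.zero_le i) (by omega)).trans hT
  have h1 := hit_le (f := fw c) (D := D) (z := z) (T := T) (fw_pos c) hz hz1 (i := i)
    (by omega) hU0 (hU2.trans hRT)
  have h2 := A1 (f := fw c) (D := D) (fw_pos c) (fw_mono hc) hz hz1 hCC hCCb hT hm1' him hU0 hU2
  -- estimates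
  set Δ := phi c (i + m) - phi c i with hΔ
  have hΔ1 := hL.up i m hi him
  have hΔ2 := hL.lo i m hi him
  rw [← hXdef, ← hΔ] at hΔ1 hΔ2
  have hmX : (m:ℝ) / X ≤ t / 2 := by
    rw [div_le_iff₀ hXp]; linarith
  have hmX2 : 5 * t / 12 ≤ (m:ℝ) / X := by
    rw [le_div_iff₀ hXp]; linarith
  have hΔ3 : Δ ≤ 33 / 32 * (m / X) := by
    refine hΔ1.trans ?_
    have : (1 + t ^ 2 / 8) / X * m = (1 + t ^ 2 / 8) * (m / X) := by ring
    rw [this]
    apply mul_le_mul_of_nonneg_right _ (by positivity)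
    linarith
  have hΔ4 : t / 4 ≤ Δ := by
    refine le_trans ?_ hΔ2
    have : (1 - t ^ 2 / 8) / X * m = (1 - t ^ 2 / 8) * (m / X) := by ring
    rw [this]
    nlinarith only [ht, ht2, ht2p, hmX2]
  have hΔ0 : 0 ≤ Δ := by linarith only [hΔ4, ht]
  set μ := Real.exp 1 * fw c i with hμ
  have hμp : 0 < μ := by positivity
  have hlam : Real.exp 1 * fw c (i + m) = μ * Real.exp Δ := by
    have e1 : fw c (i + m) = fw c i * Real.exp Δ := by
      unfold fw; rw [← Real.exp_add]; congr 1; rw [hΔ]; ring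
    rw [hμ, e1]; ring
  rw [hlam] at h2
  have hΛ1 := hL.Lup i (by omega)
  have hΛ2 := hL.Llo i hi hih
  rw [← hXdef, ← hμ] at hΛ1 hΛ2
  set Λ := μ * R (fw c) D i with hΛ
  have hΛ3 : 15 / 16 * X ≤ Λ := by nlinarith only [hΛ2, ht2, hXp]
  have hRim : R (fw c) D i - m / μ ≤ R (fw c) D (i + m) := by
    have e1 := R_split (f := fw c) (i := i) (m := i + m) (q := D) (by omega) him
    have e2 := sum_inv_le (f := fw c) (i := i) (n := m) (fw_pos c) (fw_mono hc)
    rw [← hμ] at e2
    linarith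
  have hexpΔ : 1 - Real.exp (-Δ) ≤ Δ := by linarith [Real.add_one_le_exp (-Δ)]
  have hbr : t ^ 2 * X / (2 * μ) ≤ m / (μ * Real.exp Δ) + R (fw c) D (i + m) - U := by
    have e1 : (m:ℝ) / (μ * Real.exp Δ) = m / μ - m / μ * (1 - Real.exp (-Δ)) := by
      rw [Real.exp_neg]; field_simp; ring
    have e2 : (m:ℝ) / μ * (1 - Real.exp (-Δ)) ≤ m / μ * (33 / 32 * (m / X)) := by
      apply mul_le_mul_of_nonneg_left (hexpΔ.trans hΔ3) (by positivity)
    have e3 : (m:ℝ) / μ * (33 / 32 * (m / X)) ≤ (33 / 128 * t ^ 2 * X) / μ := by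
      have : (m:ℝ) / μ * (33 / 32 * (m / X)) = (33 / 32 * (m * (m / X))) / μ := by ring
      rw [this]
      apply div_le_div_of_nonneg_right _ hμp.le
      have e4 : (m:ℝ) * (m / X) ≤ (t * X / 2) * (t / 2) :=
        mul_le_mul hm1 hmX (by positivity) (by positivity)
      nlinarith only [e4]
    have e4 : t ^ 2 * R (fw c) D i = t ^ 2 * Λ / μ := by
      rw [hΛ]; field_simp
    have e5 : t ^ 2 * (15 / 16 * X) / μ ≤ t ^ 2 * Λ / μ := by
      apply div_le_div_of_nonneg_right _ hμp.le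
      exact mul_le_mul_of_nonneg_left hΛ3 ht2p.le
    have e6 : t ^ 2 * X / (2 * μ) ≤ t ^ 2 * (15 / 16 * X) / μ - (33 / 128 * t ^ 2 * X) / μ := by
      rw [← sub_div, ← div_div]
      apply div_le_div_of_nonneg_right _ hμp.le
      nlinarith only [mul_pos ht2p hXp]
    have e7 : R (fw c) D i - U = t ^ 2 * R (fw c) D i := by rw [hU]; ring
    linarith only [e1, e2, e3, e4, e5, e6, e7, hRim]
  have hlm : μ * (t / 4) ≤ μ * Real.exp Δ - μ := by
    have : 1 + Δ ≤ Real.exp Δ := by linarith only [Real.add_one_le_exp Δ]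
    nlinarith only [this, hΔ4, hμp]
  have hexp : Real.exp (-(μ * Real.exp Δ - μ) *
      (m / (μ * Real.exp Δ) + R (fw c) D (i + m) - U)) ≤ Real.exp (-(t ^ 3 * X / 8)) := by
    apply Real.exp_le_exp.mpr
    have e1 := mul_le_mul hlm hbr (by positivity) (by linarith only [hlm, mul_pos hμp ht])
    have e2 : μ * (t / 4) * (t ^ 2 * X / (2 * μ)) = t ^ 3 * X / 8 := by
      field_simp; ring
    rw [e2] at e1
    linarith
  have hUlam : U * (μ * Real.exp Δ) ≤ 2 * (X + C) := by
    have e1 : Real.exp Δ ≤ 2 := by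
      have e2 : Δ ≤ 1 / 2 := by linarith
      have e3 : Real.exp Δ ≤ Real.exp (1 / 2) := Real.exp_le_exp.mpr e2
      have e4 : Real.exp (1 / 2) ^ 2 = Real.exp 1 := by
        rw [← Real.exp_nat_mul]; congr 1; norm_num
      have e5 := Real.exp_one_lt_d9
      have e6 : Real.exp (1 / 2) ≤ 2 := by
        by_contra h
        push Not at h
        nlinarith only [h, e4, e5]
      exact e3.trans e6
    have e2 : U * (μ * Real.exp Δ) ≤ Λ * Real.exp Δ := by
      have : U * (μ * Real.exp Δ) = (U * μ) * Real.exp Δ := by ring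
      rw [this]
      apply mul_le_mul_of_nonneg_right _ (Real.exp_pos _).le
      rw [hΛ]; nlinarith only [hU2, hμp]
    have e3 : 0 ≤ Λ := by positivity
    nlinarith only [e1, e2, e3, hΛ1]
  have h3 : ∫ s in (0:ℝ)..U, (1 - z) * fw c i * A (fw c) D z i s * F (fw c) D z D (i + 1) s *
      W (fw c) D z T i s ≤ ε / 2 := by
    refine h2.trans ?_
    calc U * (μ * Real.exp Δ * CC * Real.exp (-(μ * Real.exp Δ - μ) *
          (m / (μ * Real.exp Δ) + R (fw c) D (i + m) - U)))
        = (U * (μ * Real.exp Δ)) * CC * Real.exp (-(μ * Real.exp Δ - μ) *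
          (m / (μ * Real.exp Δ) + R (fw c) D (i + m) - U)) := by ring
      _ ≤ (2 * (X + C)) * CC * Real.exp (-(t ^ 3 * X / 8)) := by
          apply mul_le_mul _ hexp (Real.exp_pos _).le (by positivity)
          exact mul_le_mul_of_nonneg_right hUlam hCC.le
      _ ≤ ε / 2 := by linarith only [hε]
  linarith only [h1, h3, hF]

/-! ### Survival of lone vertices -/

theorem stepA3 {c : ℝ} {t : ℝ} (ht : 0 < t) (ht1 : t ≤ 1 / 2) {C : ℝ}
    {D : ℕ} (hL : Loc c t C D) (hXC : C ≤ XX c D) (hc : 0 < c) {z T CW ε : ℝ}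
    (hz : 0 ≤ z) (hz1 : z ≤ 1 / 2) (hε : 0 < ε)
    (hCW : ∀ k, k ≤ D → W (fw c) D z T k 0 ≤ CW)
    (hT : R (fw c) D 0 ≤ T) {i : ℕ} (hi : D ≤ 2 * i) (hih : i + hp c t D ≤ D)
    (hW : ε / 2 ≤ W (fw c) D z T i ((1 - t ^ 2) * R (fw c) D i)) {s : ℝ} (hs : 0 ≤ s)
    (hs2 : s ≤ (1 - t ^ 2) * R (fw c) D i) :
    1 - A (fw c) D z i s ≤ Real.exp (-(t ^ 2 * XX c D / 2)) +
      4 * z * (hp c t D) * CW / ε := by
  set X := XX c D with hXdef
  have hXp : 0 < X := XX_pos hc D
  have ht2 : t ^ 2 ≤ 1 / 4 := by nlinarith only [ht, ht1]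
  have ht2p : 0 < t ^ 2 := by positivity
  have he := Real.exp_pos 1
  have hfi := fw_pos c i
  have hR0 : 0 ≤ R (fw c) D i := R_nonneg (fw_pos c) D i
  have hRT : R (fw c) D i ≤ T := (R_anti (fw_pos c) (Nat.zero_le i) (by omega)).trans hT
  have haR : (1 - t ^ 2) * R (fw c) D i ≤ T :=
    le_trans (by nlinarith only [hR0, ht2p]) hRT
  have hsT : s ≤ T := hs2.trans haR
  set q := i + hp c t D with hq
  have hhp1 : 16 * X / t ^ 2 ≤ (hp c t D : ℕ) := Nat.le_ceil _
  have hhp0 : 0 < hp c t D := by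
    have : (0:ℝ) < (hp c t D : ℕ) := lt_of_lt_of_le (by positivity) hhp1
    exact_mod_cast this
  have hiq : i < q := by omega
  have hWs : ε / 2 ≤ W (fw c) D z T i s :=
    hW.trans (W_anti (fw_pos c) (by linarith) i (show s ≤ T from hsT) haR hs2)
  -- the event below the window
  have hFb := F_bound (f := fw c) (D := D) (z := z) (fw_pos c) (fw_mono hc) hz
    (by linarith) hih hiq.le s hs
  set μ := Real.exp 1 * fw c i with hμ
  have hμp : 0 < μ := by positivity
  have hΛ2 := hL.Llo i hi hih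
  rw [← hXdef, ← hμ] at hΛ2
  have hΛq := hL.Lup q hih
  rw [← hXdef] at hΛq
  set Δ := phi c q - phi c i with hΔ
  have hΔ2 := hL.lo i (hp c t D) hi hih
  rw [← hXdef, ← hq, ← hΔ] at hΔ2
  have hΔ4 : 15 / t ^ 2 ≤ Δ := by
    refine le_trans ?_ hΔ2
    have e1 : (1 - t ^ 2 / 8) / X * (16 * X / t ^ 2) ≤ (1 - t ^ 2 / 8) / X * (hp c t D : ℕ) := by
      apply mul_le_mul_of_nonneg_left hhp1
      apply div_nonneg _ hXp.le
      linarith
    refine le_trans ?_ e1
    have e2 : (1 - t ^ 2 / 8) / X * (16 * X / t ^ 2) = (1 - t ^ 2 / 8) * 16 / t ^ 2 := by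
      field_simp
    rw [e2]
    apply div_le_div_of_nonneg_right _ ht2p.le
    linarith
  have hexpΔ : Real.exp (-Δ) ≤ t ^ 2 / 15 := by
    have e1 : Real.exp (-Δ) ≤ Real.exp (-(15 / t ^ 2)) := Real.exp_le_exp.mpr (by linarith)
    refine e1.trans ((exp_inv_le (by positivity)).trans (le_of_eq ?_))
    rw [one_div_div]
  have hμR : μ * R (fw c) D q ≤ t ^ 2 / 4 * X := by
    have e1 : μ * R (fw c) D q = Real.exp (-Δ) * (Real.exp 1 * fw c q * R (fw c) D q) := by
      have : fw c i = Real.exp (-Δ) * fw c q := by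
        unfold fw; rw [← Real.exp_add]; congr 1; rw [hΔ]; ring
      rw [hμ, this]; ring
    rw [e1]
    have e2 : 0 ≤ Real.exp 1 * fw c q * R (fw c) D q := by
      have := fw_pos c q
      have := R_nonneg (f := fw c) (fw_pos c) D q
      positivity
    have e3 : t ^ 2 / 15 * (X + C) ≤ t ^ 2 / 4 * X := by
      have e4 := mul_nonneg ht2p.le (sub_nonneg.mpr hXC)
      have e5 := mul_pos ht2p hXp
      nlinarith only [e4, e5]
    exact (mul_le_mul hexpΔ hΛq e2 (by positivity)).trans e3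
  have hRq : R (fw c) D i = R (fw c) q i + R (fw c) D q := by
    rw [R_split (f := fw c) (i := i) (m := q) (q := D) hiq.le hih]; rfl
  have hF1 : F (fw c) D z q i s ≤ Real.exp (-(t ^ 2 * X / 2)) := by
    refine hFb.trans ?_
    apply Real.exp_le_exp.mpr
    have e1 : μ * s ≤ (1 - t ^ 2) * (μ * R (fw c) D i) := by
      have := mul_le_mul_of_nonneg_left hs2 hμp.le
      linarith
    have e2 : μ * R (fw c) D i = μ * R (fw c) q i + μ * R (fw c) D q := by rw [hRq]; ring
    have e3 : t ^ 2 * (15 / 16 * X) ≤ t ^ 2 * (μ * R (fw c) D i) := by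
      apply mul_le_mul_of_nonneg_left _ ht2p.le
      nlinarith only [hΛ2, ht2, hXp]
    have e4 := mul_pos ht2p hXp
    nlinarith only [e1, e2, e3, e4, hμR]
  -- marks in the window
  have hd := W_mul_diff_le (f := fw c) (D := D) (z := z) (T := T) (fw_pos c) hz (by linarith)
    hiq hih hs hsT
  have hcs := c_sum (f := fw c) (D := D) (z := z) (T := T) hiq.le hih (by linarith)
  have hsum : ∑ k ∈ Finset.Ico i q, W (fw c) D z T (k + 1) 0 ≤ (hp c t D) * CW := by
    have : ∑ k ∈ Finset.Ico i q, CW = (hp c t D) * CW := by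
      rw [Finset.sum_const, Nat.card_Ico, nsmul_eq_mul]; congr 2; omega
    rw [← this]
    apply Finset.sum_le_sum
    intro k hk
    rw [Finset.mem_Ico] at hk
    exact hCW (k + 1) (by omega)
  have hT0 : 0 ≤ T := hs.trans hsT
  have hsum0 : 0 ≤ ∑ k ∈ Finset.Ico i q, W (fw c) D z T (k + 1) 0 :=
    Finset.sum_nonneg fun k _ => W_nonneg (fw_pos c) (by linarith) _ _ hT0
  have hz3 : z / (1 - z) ≤ 2 * z := by
    rw [div_le_iff₀ (by linarith only [hz1])]; nlinarith only [hz, hz1]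
  have h5 : z / (1 - z) * ∑ k ∈ Finset.Ico i q, W (fw c) D z T (k + 1) 0 ≤
      2 * z * ((hp c t D) * CW) :=
    mul_le_mul hz3 hsum hsum0 (by positivity)
  have h6 : W (fw c) D z T i s * ((1 - A (fw c) D z i s) - F (fw c) D z q i s) ≤
      2 * z * ((hp c t D) * CW) := by linarith
  have h7 : (1 - A (fw c) D z i s) - F (fw c) D z q i s ≤ 4 * z * (hp c t D) * CW / ε := by
    rw [le_div_iff₀ hε]
    rcases le_or_gt ((1 - A (fw c) D z i s) - F (fw c) D z q i s) 0 with h | h
    · have : 0 ≤ 2 * z * ((hp c t D) * CW) := by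
        have h8 : 0 ≤ z / (1 - z) := div_nonneg hz (by linarith)
        exact le_trans (mul_nonneg h8 hsum0) h5
      have h9 : ((1 - A (fw c) D z i s) - F (fw c) D z q i s) * ε ≤ 0 :=
        mul_nonpos_of_nonpos_of_nonneg h hε.le
      linarith only [this, h9]
    · have h9 := mul_le_mul_of_nonneg_right hWs h.le
      linarith only [h9, h6]
  linarith only [h7, hF1]

end

end Pool.Agent.Lib.MP_bb6489_pr
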