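import Pool.Agent.Lib.MP_bb6489_pr.PartA

/-!
The upper bound for the depth of the tree, continued.
-/

open MeasureTheory intervalIntegral Set Filter Topology
open scoped Nat ENNReal

namespace Pool.Agent.Lib.MP_bb6489_pr

noncomputable section

theorem prod_ge_aux {c s : ℝ} (i h : ℕ) : (∀ r, r < h → s * r ≤ phi c (i + r) - phi c i) →
    (fw c i) ^ h * Real.exp (s * (h * (h - 1) / 2)) ≤ ∏ j ∈ Finset.Ico i (i + h), fw c j := by
  induction h with
  | zero => intro _; simp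
  | succ h ih =>
    intro hr
    rw [← add_assoc, Finset.prod_Ico_succ_top (by omega)]
    have h1 := ih (fun r hr' => hr r (by omega))
    have h2 := hr h (by omega)
    have h3 : fw c i * Real.exp (s * h) ≤ fw c (i + h) := by
      unfold fw
      rw [← Real.exp_add]
      apply Real.exp_le_exp.mpr; linarith
    have h4 : (fw c i) ^ (h + 1) * Real.exp (s * ((h + 1 : ℕ) * ((h + 1 : ℕ) - 1) / 2)) =
        ((fw c i) ^ h * Real.exp (s * (h * (h - 1) / 2))) * (fw c i * Real.exp (s * h)) := by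
      have : s * (((h + 1 : ℕ) : ℝ) * (((h + 1 : ℕ) : ℝ) - 1) / 2) =
        s * (h * (h - 1) / 2) + s * h := by push_cast; ring
      rw [this, Real.exp_add]; ring
    rw [h4]
    have := fw_pos c i
    exact mul_le_mul h1 h3 (by positivity) (Finset.prod_nonneg fun j _ => (fw_pos c j).le)

theorem fact_aux {F0 R0 a : ℝ} (hF0 : 0 < F0) (n : ℕ)
    (h1 : ((n + 1 : ℕ) : ℝ) ≤ a * (Real.exp 1 * F0 * R0))
    (h2 : ((n + 1 : ℕ) : ℝ) ≤ Real.exp 1 * F0 * R0) :
    (Real.exp 1 * F0 * R0 - (n + 1 : ℕ)) / (Real.exp 1 * F0 * R0) /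
      (Real.exp 1 * (n + 1 : ℕ)) ≤
    F0 ^ (n + 1) * ((a * (R0 - (n + 1 : ℕ) / (Real.exp 1 * F0))) * (a * R0) ^ n /
      ((n + 1)! : ℝ)) := by
  have he := Real.exp_pos 1
  set Λ := Real.exp 1 * F0 * R0 with hΛ
  have hnp : (0:ℝ) < ((n + 1 : ℕ) : ℝ) := by positivity
  have hΛp : 0 < Λ := lt_of_lt_of_le hnp h2
  have hR0 : R0 = Λ / (Real.exp 1 * F0) := by rw [hΛ]; field_simp
  have e1 : F0 ^ (n + 1) * ((a * (R0 - (n + 1 : ℕ) / (Real.exp 1 * F0))) * (a * R0) ^ n /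
      ((n + 1)! : ℝ)) = (Λ - (n + 1 : ℕ)) / Λ * ((a * Λ / Real.exp 1) ^ (n + 1) /
      ((n + 1)! : ℝ)) := by
    have hfac : (((n + 1)! : ℕ) : ℝ) ≠ 0 := by positivity
    have e2 : a * R0 = a * Λ / (Real.exp 1 * F0) := by rw [hR0]; ring
    have e3 : R0 - ((n + 1 : ℕ) : ℝ) / (Real.exp 1 * F0) =
      (Λ - ((n + 1 : ℕ) : ℝ)) / (Real.exp 1 * F0) := by rw [hR0]; ring
    rw [e2, e3, div_pow, div_pow, mul_pow (Real.exp 1) F0]
    generalize (((n + 1 : ℕ) : ℝ)) = N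
    field_simp
    ring
  rw [e1]
  have e2 : 1 / (Real.exp 1 * (n + 1 : ℕ)) ≤ (a * Λ / Real.exp 1) ^ (n + 1) /
      ((n + 1)! : ℝ) := by
    rw [div_le_div_iff₀ (by positivity) (by positivity), one_mul]
    refine (fact_le (n + 1) (by omega)).trans ?_
    rw [mul_comm]
    apply mul_le_mul_of_nonneg_right _ (by positivity)
    apply pow_le_pow_left₀ (by positivity)
    exact div_le_div_of_nonneg_right h1 he.le
  have e3 : 0 ≤ (Λ - ((n + 1 : ℕ) : ℝ)) / Λ := div_nonneg (by linarith) hΛp.le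
  calc _ = (Λ - (n + 1 : ℕ)) / Λ * (1 / (Real.exp 1 * (n + 1 : ℕ))) := by ring
    _ ≤ _ := mul_le_mul_of_nonneg_left e2 e3

theorem stepA4 {c : ℝ} {t : ℝ} (ht : 0 < t) (ht1 : t ≤ 1 / 2) {C : ℝ}
    {D : ℕ} (hL : Loc c t C D) (hXC : C ≤ XX c D) (hX4 : 4 ≤ XX c D) (hc : 0 < c) {z T ε κ : ℝ}
    (hz1 : z < 1) (hε : 0 < ε) (hκ : 0 ≤ κ)
    (hT : R (fw c) D 0 ≤ T) {i h : ℕ} (hh : h = ⌊(1 - 2 * t ^ 2) * XX c D⌋₊)
    (hi : D ≤ 2 * i) (hih : i + h + hp c t D ≤ D)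
    (hW : ε / 2 ≤ W (fw c) D z T i ((1 - t ^ 2) * R (fw c) D i))
    (hA : ∀ k, i ≤ k → k < i + h → ∀ s, 0 ≤ s → s ≤ (1 - t ^ 2) * R (fw c) D k →
      κ ≤ (1 - z) * A (fw c) D z k s) :
    ε / 2 * κ ^ h * Real.exp ((1 - t ^ 2 / 8) / XX c D * (h * (h - 1) / 2)) *
      (t ^ 2 / 2 / (Real.exp 1 * h)) ≤ W (fw c) D z T (i + h) 0 := by
  set X := XX c D with hXdef
  have hXp : 0 < X := by linarith
  have ht2 : t ^ 2 ≤ 1 / 4 := by nlinarith only [ht, ht1]
  have ht2p : 0 < t ^ 2 := by positivity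
  have he := Real.exp_pos 1
  have hfi := fw_pos c i
  have hh1 : (h:ℝ) ≤ (1 - 2 * t ^ 2) * X := by
    rw [hh]; apply Nat.floor_le; nlinarith only [ht2, hXp]
  have hh2 : 1 ≤ h := by
    rw [hh]; apply Nat.le_floor; push_cast; nlinarith only [ht2, hX4]
  have hLup := hL.Lup i (by omega)
  have hLlo := hL.Llo i hi (by omega)
  rw [← hXdef] at hLup hLlo
  set Λ := Real.exp 1 * fw c i * R (fw c) D i with hΛ
  have hR0 : 0 ≤ R (fw c) D i := R_nonneg (fw_pos c) D i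
  have ha0 : 0 ≤ 1 - t ^ 2 := by linarith
  have hhΛ : (h:ℝ) ≤ (1 - t ^ 2) * Λ := by
    have e1 : (1 - t ^ 2) * ((1 - t ^ 2 / 4) * X) ≤ (1 - t ^ 2) * Λ :=
      mul_le_mul_of_nonneg_left hLlo ha0
    have e2 : (1 - 2 * t ^ 2) * X ≤ (1 - t ^ 2) * ((1 - t ^ 2 / 4) * X) := by
      rw [← mul_assoc]
      apply mul_le_mul_of_nonneg_right _ hXp.le
      nlinarith only [ht2p]
    linarith only [e1, e2, hh1]
  have hΛ0 : 0 < Λ := by nlinarith only [hLlo, ht2, hXp]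
  have hhΛ2 : (h:ℝ) ≤ Λ := by nlinarith only [hhΛ, ht2p, hΛ0]
  have hgap : t ^ 2 / 2 ≤ (Λ - h) / Λ := by
    rw [le_div_iff₀ hΛ0]
    have e1 : 7 / 4 * t ^ 2 * X ≤ Λ - h := by nlinarith only [hLlo, hh1]
    have e2 : t ^ 2 / 2 * Λ ≤ t ^ 2 / 2 * (X + X) := by
      apply mul_le_mul_of_nonneg_left _ (by positivity)
      linarith only [hLup, hXC]
    nlinarith only [e1, e2, mul_pos ht2p hXp]
  have key := A4 (f := fw c) (D := D) (z := z) (T := T) (fw_pos c) (fw_mono hc) hz1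
    (i := i) (h := h) hh2 (by omega) (a := 1 - t ^ 2) (κ := κ) (w := ε / 2) ha0 (by linarith) hT hκ
    (by positivity) hW hA (by
      apply mul_nonneg ha0
      rw [sub_nonneg, div_le_iff₀ (by positivity)]
      rw [hΛ] at hhΛ2; linarith only [hhΛ2])
  refine le_trans ?_ key
  obtain ⟨n, rfl⟩ : ∃ n, h = n + 1 := ⟨h - 1, by omega⟩
  have hfa := fact_aux (R0 := R (fw c) D i) hfi n (by rw [← hΛ]; exact hhΛ)
    (by rw [← hΛ]; exact hhΛ2)
  rw [← hΛ] at hfa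
  have hpr := prod_ge_aux (c := c) (s := (1 - t ^ 2 / 8) / X) i (n + 1) (fun r hr => by
    have := hL.lo i r hi (by omega)
    rw [← hXdef] at this; exact this)
  rw [Nat.add_sub_cancel]
  have hQ0 : 0 ≤ (1 - t ^ 2) * (R (fw c) D i - ((n + 1 : ℕ) : ℝ) / (Real.exp 1 * fw c i)) *
      ((1 - t ^ 2) * R (fw c) D i) ^ n / ((n + 1)! : ℝ) := by
    apply div_nonneg _ (by positivity)
    apply mul_nonneg _ (by positivity)
    apply mul_nonneg ha0
    rw [sub_nonneg, div_le_iff₀ (by positivity)]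
    rw [hΛ] at hhΛ2; linarith only [hhΛ2]
  set Q := (1 - t ^ 2) * (R (fw c) D i - ((n + 1 : ℕ) : ℝ) / (Real.exp 1 * fw c i)) *
      ((1 - t ^ 2) * R (fw c) D i) ^ n / ((n + 1)! : ℝ) with hQ
  set E := Real.exp ((1 - t ^ 2 / 8) / X * (((n + 1 : ℕ) : ℝ) * (((n + 1 : ℕ) : ℝ) - 1) / 2))
    with hE
  have hE0 : 0 < E := Real.exp_pos _
  have hκn : 0 ≤ κ ^ (n + 1) := by positivity
  have h1 : t ^ 2 / 2 / (Real.exp 1 * ((n + 1 : ℕ) : ℝ)) ≤ fw c i ^ (n + 1) * Q := by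
    refine le_trans ?_ hfa
    exact div_le_div_of_nonneg_right hgap (by positivity)
  calc ε / 2 * κ ^ (n + 1) * E * (t ^ 2 / 2 / (Real.exp 1 * ((n + 1 : ℕ) : ℝ)))
      ≤ ε / 2 * κ ^ (n + 1) * E * (fw c i ^ (n + 1) * Q) :=
        mul_le_mul_of_nonneg_left h1 (by positivity)
    _ = ε / 2 * κ ^ (n + 1) * (fw c i ^ (n + 1) * E) * Q := by ring
    _ ≤ _ := by
        apply mul_le_mul_of_nonneg_right _ hQ0
        exact mul_le_mul_of_nonneg_left hpr (by positivity)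

/-! ### Assembly -/

theorem ev_exp {a : ℝ} (ha : 0 < a) (P Q : ℝ) {ε : ℝ} (hε : 0 < ε) :
    ∀ᶠ x : ℝ in atTop, (P * x + Q) * Real.exp (-(a * x)) ≤ ε := by
  have h1 : Tendsto (fun x : ℝ => a * x) atTop atTop := tendsto_id.const_mul_atTop ha
  have h2 := (Real.tendsto_pow_mul_exp_neg_atTop_nhds_zero 1).comp h1
  have h3 := (Real.tendsto_pow_mul_exp_neg_atTop_nhds_zero 0).comp h1
  have h4 : Tendsto (fun x : ℝ => (P * x + Q) * Real.exp (-(a * x))) atTop (𝓝 0) := by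
    have h5 := (h2.const_mul (P / a)).add (h3.const_mul Q)
    simp only [mul_zero, add_zero] at h5
    refine h5.congr fun x => ?_
    simp only [Function.comp, pow_one, pow_zero]
    field_simp
  exact h4.eventually_le_const hε

theorem one_sub_ge_exp {x : ℝ} (hx : 0 ≤ x) (hx1 : x ≤ 1 / 2) : Real.exp (-(2 * x)) ≤ 1 - x := by
  rw [Real.exp_neg]
  have h5 : 1 + 2 * x ≤ Real.exp (2 * x) := by linarith [Real.add_one_le_exp (2 * x)]
  have h6 : (Real.exp (2 * x))⁻¹ ≤ (1 + 2 * x)⁻¹ := inv_anti₀ (by linarith) h5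
  refine h6.trans ?_
  rw [inv_le_iff_one_le_mul₀ (by linarith)]
  nlinarith

/-- the marking probability used for the upper bound -/
def zz (c δ : ℝ) (D : ℕ) : ℝ := Real.exp (-((1 + 1 / (2 * c) - δ) * Real.log (D + 2)))

theorem final_exponent {c δ t X : ℝ} (hX4 : 4 ≤ X) (ht : 0 < t)
    (ht1 : t ≤ 1 / 2) (ht2 : t ≤ δ * c / 6) {h : ℕ} (hh : h = ⌊(1 - 2 * t ^ 2) * X⌋₊)
    {ε κ z D4 : ℝ} (hε : 0 < ε) (hκ : Real.exp (-(t ^ 2 / 2)) ≤ κ)
    (hz : z = Real.exp (-((c + 1 / 2 - δ * c) * X))) (hD4 : Real.exp (c * X) / 16 ≤ D4)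
    (hfin : (64 * Real.exp (5 / 2) / (ε * t ^ 2) * X + 0) * Real.exp (-(3 / 4 * δ * c * X))
      ≤ 1 / 2) :
    1 < z * (D4 * (ε / 2 * κ ^ h * Real.exp ((1 - t ^ 2 / 8) / X * (h * (h - 1) / 2)) *
      (t ^ 2 / 2 / (Real.exp 1 * h)))) := by
  have hXp : 0 < X := by linarith
  have ht2' : t ^ 2 ≤ 1 / 4 := by nlinarith only [ht, ht1]
  have ht2p : 0 < t ^ 2 := by positivity
  have he := Real.exp_pos 1
  have ht3 : 3 * t ^ 2 ≤ δ * c / 4 := by nlinarith only [ht, ht1, ht2]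
  have hg0 : 0 ≤ (1 - 2 * t ^ 2) * X := by nlinarith only [ht2', hXp]
  have hh1 : (h:ℝ) ≤ (1 - 2 * t ^ 2) * X := by
    rw [hh]; exact Nat.floor_le hg0
  have hh2 : (1 - 2 * t ^ 2) * X - 1 ≤ (h:ℝ) := by
    have := Nat.lt_floor_add_one ((1 - 2 * t ^ 2) * X)
    rw [← hh] at this; linarith
  have hh3 : (1:ℝ) ≤ h := by nlinarith only [hh2, ht2', hX4]
  have hhX : (h:ℝ) ≤ X := by nlinarith only [hh1, ht2p, hXp]
  -- the main exponent
  have h1 : (1 - 5 * t ^ 2) * X / 2 - 3 / 2 ≤ (1 - t ^ 2 / 8) / X * (h * (h - 1) / 2) := by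
    have e1 : ((1 - 4 * t ^ 2) * X - 3) * X ≤ h * (h - 1) := by
      have e2 : ((1 - 2 * t ^ 2) * X - 1) * ((1 - 2 * t ^ 2) * X - 1 - 1) ≤ h * (h - 1) := by
        apply mul_le_mul hh2 (by linarith) _ (by linarith)
        nlinarith only [ht2', hX4]
      refine le_trans ?_ e2
      have e3 : 0 ≤ t ^ 2 * X := by positivity
      nlinarith only [e3, mul_nonneg e3 e3]
    have e2 : (1 - t ^ 2 / 8) / X * (h * (h - 1) / 2) = (1 - t ^ 2 / 8) * (h * (h - 1) / X) / 2 := by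
      ring
    have e3 : (1 - 4 * t ^ 2) * X - 3 ≤ h * (h - 1) / X := by
      rw [le_div_iff₀ hXp]; exact e1
    rw [e2]
    have e4 : (1 - t ^ 2 / 8) * ((1 - 4 * t ^ 2) * X - 3) ≤
        (1 - t ^ 2 / 8) * (h * (h - 1) / X) := by
      apply mul_le_mul_of_nonneg_left e3; linarith
    have e5 : (1 - 5 * t ^ 2) * X - 3 ≤ (1 - t ^ 2 / 8) * ((1 - 4 * t ^ 2) * X - 3) := by
      have e6 : 0 ≤ t ^ 2 * X := by positivity
      nlinarith only [e6, ht2p, mul_nonneg ht2p.le e6]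
    linarith
  have h2 : Real.exp (-(t ^ 2 * X / 2)) ≤ κ ^ h := by
    calc Real.exp (-(t ^ 2 * X / 2)) ≤ Real.exp (h * -(t ^ 2 / 2)) := by
          apply Real.exp_le_exp.mpr; nlinarith only [hhX, ht2p]
      _ = Real.exp (-(t ^ 2 / 2)) ^ h := by rw [Real.exp_nat_mul]
      _ ≤ κ ^ h := pow_le_pow_left₀ (Real.exp_pos _).le hκ h
  have h3 : t ^ 2 / 2 / (Real.exp 1 * X) ≤ t ^ 2 / 2 / (Real.exp 1 * h) := by
    apply div_le_div_of_nonneg_left (by positivity) (by positivity)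
    exact mul_le_mul_of_nonneg_left hhX he.le
  have h4 : Real.exp (-((c + 1 / 2 - δ * c) * X)) * (Real.exp (c * X) / 16 *
      (ε / 2 * Real.exp (-(t ^ 2 * X / 2)) * Real.exp ((1 - 5 * t ^ 2) * X / 2 - 3 / 2) *
      (t ^ 2 / 2 / (Real.exp 1 * X)))) ≤ z * (D4 * (ε / 2 * κ ^ h *
      Real.exp ((1 - t ^ 2 / 8) / X * (h * (h - 1) / 2)) *
      (t ^ 2 / 2 / (Real.exp 1 * h)))) := by
    rw [hz]
    have hκ0 : 0 ≤ κ ^ h := (Real.exp_pos _).le.trans h2
    have hD40 : 0 ≤ D4 := le_trans (by positivity) hD4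
    apply mul_le_mul_of_nonneg_left _ (Real.exp_pos _).le
    apply mul_le_mul hD4 _ (by positivity) hD40
    apply mul_le_mul _ h3 (by positivity) (by positivity)
    apply mul_le_mul _ (Real.exp_le_exp.mpr h1) (Real.exp_pos _).le (by positivity)
    exact mul_le_mul_of_nonneg_left h2 (by positivity)
  refine lt_of_lt_of_le ?_ h4
  have h5 : Real.exp (-((c + 1 / 2 - δ * c) * X)) * (Real.exp (c * X) / 16 *
      (ε / 2 * Real.exp (-(t ^ 2 * X / 2)) * Real.exp ((1 - 5 * t ^ 2) * X / 2 - 3 / 2) *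
      (t ^ 2 / 2 / (Real.exp 1 * X)))) =
      ε * t ^ 2 / (64 * X) * Real.exp (-(5/2)) * Real.exp ((δ * c - 3 * t ^ 2) * X) := by
    have e1 : Real.exp (-((c + 1 / 2 - δ * c) * X)) * (Real.exp (c * X) / 16 *
      (ε / 2 * Real.exp (-(t ^ 2 * X / 2)) * Real.exp ((1 - 5 * t ^ 2) * X / 2 - 3 / 2) *
      (t ^ 2 / 2 / (Real.exp 1 * X)))) = ε * t ^ 2 / (64 * X) *
      (Real.exp (-((c + 1 / 2 - δ * c) * X)) * Real.exp (c * X) *
        Real.exp (-(t ^ 2 * X / 2)) * Real.exp ((1 - 5 * t ^ 2) * X / 2 - 3 / 2) *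
        Real.exp (-1)) := by
      rw [Real.exp_neg 1]; field_simp; norm_num
    rw [e1, ← Real.exp_add, ← Real.exp_add, ← Real.exp_add, ← Real.exp_add, mul_assoc,
      ← Real.exp_add]
    congr 2
    ring
  rw [h5]
  have h6 : Real.exp (3 / 4 * δ * c * X) ≤ Real.exp ((δ * c - 3 * t ^ 2) * X) := by
    apply Real.exp_le_exp.mpr
    nlinarith only [ht3, hXp]
  have h7 : 2 ≤ ε * t ^ 2 / (64 * X) * Real.exp (-(5/2)) * Real.exp (3 / 4 * δ * c * X) := by
    rw [add_zero, Real.exp_neg] at hfin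
    rw [Real.exp_neg (5/2)]
    set E1 := Real.exp (3 / 4 * δ * c * X)
    set E2 := Real.exp (5 / 2)
    have hE1 : 0 < E1 := Real.exp_pos _
    have hE2 : 0 < E2 := Real.exp_pos _
    have e1 : 64 * E2 / (ε * t ^ 2) * X * E1⁻¹ = (64 * E2 * X) / (ε * t ^ 2 * E1) := by
      field_simp
    rw [e1, div_le_div_iff₀ (by positivity) (by norm_num)] at hfin
    have e2 : ε * t ^ 2 / (64 * X) * E2⁻¹ * E1 = (ε * t ^ 2 * E1) / (64 * X * E2) := by
      field_simp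
    rw [e2, le_div_iff₀ (by positivity)]
    linarith
  have h8 : ε * t ^ 2 / (64 * X) * Real.exp (-(5/2)) * Real.exp (3 / 4 * δ * c * X) ≤
      ε * t ^ 2 / (64 * X) * Real.exp (-(5/2)) * Real.exp ((δ * c - 3 * t ^ 2) * X) :=
    mul_le_mul_of_nonneg_left h6 (by positivity)
  linarith

theorem partA {c : ℝ} (hc : 0 < c) {δ : ℝ} (hδ : 0 < δ) (hδ1 : δ ≤ 1 / 2) {ε : ℝ}
    (hε : 0 < ε) : ∀ᶠ D : ℕ in atTop, ∀ T : ℝ, R (fw c) D 0 ≤ T →
      F (fw c) D (zz c δ D) D 0 T ≤ ε := by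
  set t := min (1 / 2) (δ * c / 6) with htdef
  have ht : 0 < t := lt_min (by norm_num) (by positivity)
  have ht1 : t ≤ 1 / 2 := min_le_left _ _
  have ht2 : t ≤ δ * c / 6 := min_le_right _ _
  have htt : t ^ 2 ≤ 1 / 4 := by nlinarith only [ht, ht1]
  have http : 0 < t ^ 2 := by positivity
  obtain ⟨C, hC0, hLoc⟩ := exists_Loc hc ht ht1
  obtain ⟨K1, hK1, hCC⟩ := exists_CC hc (show 0 < t ^ 3 / (16 * c) by positivity)
  obtain ⟨K2, hK2, hCW⟩ := W0_bound' hc (show (0:ℝ) < 1 / 4 by norm_num)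
  have hXX := tendsto_XX hc
  have v1 := hXX.eventually (eventually_ge_atTop (12 / t))
  have v2 := hXX.eventually (eventually_ge_atTop C)
  have v3 := hXX.eventually (eventually_ge_atTop 4)
  have v4 := hXX.eventually (ev_exp (show 0 < t ^ 3 / 16 by positivity) (4 * K1) (4 * C * K1) hε)
  have v5 := hXX.eventually (ev_exp (show 0 < t ^ 2 / 2 by positivity) 0 1
    (show 0 < t ^ 2 / 16 by positivity))
  have v6 := hXX.eventually (ev_exp (show 0 < c / 4 by positivity) (4 * 16 / t ^ 2 * K2 / ε)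
    (4 * K2 / ε) (show 0 < t ^ 2 / 16 by positivity))
  have v7 := hXX.eventually (ev_exp (show (0:ℝ) < 1 / 2 by norm_num) 0 1
    (show 0 < t ^ 2 / 8 by positivity))
  have v8 := hXX.eventually (ev_exp hc (4 + 64 / t ^ 2) 8 one_pos)
  have v9 := hXX.eventually (ev_exp (show 0 < 3 / 4 * δ * c by positivity)
    (64 * Real.exp (5 / 2) / (ε * t ^ 2)) 0 (show (0:ℝ) < 1 / 2 by norm_num))
  filter_upwards [hLoc, v1, v2, v3, v4, v5, v6, v7, v8, v9, eventually_ge_atTop 1] with D hL w1 w2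
    w3 w4 w5 w6 w7 w8 w9 hD1 T hT
  by_contra hcon
  push Not at hcon
  set X := XX c D with hX
  have hXp : 0 < X := by linarith
  have hl : Real.log ((D:ℝ) + 2) = c * X := by
    rw [hX]; unfold XX; field_simp
  have hexpcX : Real.exp (c * X) = (D:ℝ) + 2 := by
    rw [← hl, Real.exp_log (by positivity)]
  set z := zz c δ D with hzdef
  have hz : z = Real.exp (-((c + 1 / 2 - δ * c) * X)) := by
    rw [hzdef]; unfold zz; rw [hl]; congr 1; field_simp
  have hz0 : 0 < z := by rw [hz]; exact Real.exp_pos _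
  have hz1 : z ≤ t ^ 2 / 8 := by
    have e1 : z ≤ Real.exp (-(1 / 2 * X)) := by
      rw [hz]; apply Real.exp_le_exp.mpr
      have : δ * c ≤ c := by nlinarith only [hδ1, hc]
      nlinarith only [this, hXp]
    refine e1.trans ?_
    have := w7
    simpa using this
  have hz2 : z ≤ 1 / 32 := by linarith only [hz1, htt]
  have hz3 : z < 1 := by linarith only [hz2]
  -- constants
  set CC := K1 * Real.exp (t ^ 3 / (16 * c) * Real.log ((D:ℝ) + 2)) with hCCdef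
  have hCC0 : 0 < CC := by positivity
  have hCCe : CC = K1 * Real.exp (t ^ 3 / 16 * X) := by
    rw [hCCdef, hl]; congr 2; field_simp
  have hCCb := hCC D z hz0.le hz3.le
  set CW := K2 * Real.exp ((1 / (2 * c) + 1 / 4) * Real.log ((D:ℝ) + 2)) with hCWdef
  have hCWb := hCW D z T hz0.le hz3 hT
  -- step A2
  have hA2 : ∀ i, D ≤ 2 * i → i + hp c t D ≤ D →
      ε / 2 ≤ W (fw c) D z T i ((1 - t ^ 2) * R (fw c) D i) := by
    intro i hi hih
    apply stepA2 ht ht1 hC0 hL w1 hc hz0.le hz3 hCC0 hCCb hT hi hih _ hcon.le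
    rw [← hX, hCCe]
    have e1 : Real.exp (t ^ 3 / 16 * X) * Real.exp (-(t ^ 3 * X / 8)) =
        Real.exp (-(t ^ 3 / 16 * X)) := by
      rw [← Real.exp_add]; congr 1; ring
    calc 4 * (X + C) * (K1 * Real.exp (t ^ 3 / 16 * X)) * Real.exp (-(t ^ 3 * X / 8)) =
        (4 * K1 * X + 4 * C * K1) * (Real.exp (t ^ 3 / 16 * X) *
          Real.exp (-(t ^ 3 * X / 8))) := by ring
      _ = (4 * K1 * X + 4 * C * K1) * Real.exp (-(t ^ 3 / 16 * X)) := by rw [e1]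
      _ ≤ ε := w4
  -- step A3
  have hA3 : ∀ i, D ≤ 2 * i → i + hp c t D ≤ D → ∀ s, 0 ≤ s →
      s ≤ (1 - t ^ 2) * R (fw c) D i → 1 - t ^ 2 / 8 ≤ A (fw c) D z i s := by
    intro i hi hih s hs hs2
    have e1 := stepA3 ht ht1 hL w2 hc hz0.le (by linarith only [hz2]) hε hCWb hT hi hih
      (hA2 i hi hih) hs hs2
    have e2 : Real.exp (-(t ^ 2 * XX c D / 2)) ≤ t ^ 2 / 16 := by
      rw [← hX]
      have : -(t ^ 2 * X / 2) = -(t ^ 2 / 2 * X) := by ring
      rw [this]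
      simpa using w5
    have e3 : 4 * z * (hp c t D) * CW / ε ≤ t ^ 2 / 16 := by
      refine le_trans ?_ w6
      have e4 : ((hp c t D : ℕ) : ℝ) ≤ 16 * X / t ^ 2 + 1 := by
        have := Nat.ceil_lt_add_one (show 0 ≤ 16 * XX c D / t ^ 2 by rw [← hX]; positivity)
        rw [← hX] at this
        unfold hp
        rw [← hX]; linarith only [this]
      have e5 : z * CW ≤ K2 * Real.exp (-(c / 4 * X)) := by
        rw [hz, hCWdef, hl]
        have e6 : Real.exp (-((c + 1 / 2 - δ * c) * X)) *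
          (K2 * Real.exp ((1 / (2 * c) + 1 / 4) * (c * X))) = K2 *
          Real.exp (-((c + 1 / 2 - δ * c) * X) + (1 / (2 * c) + 1 / 4) * (c * X)) := by
          rw [Real.exp_add]; ring
        rw [e6]
        apply mul_le_mul_of_nonneg_left _ hK2.le
        apply Real.exp_le_exp.mpr
        have e7 : (1 / (2 * c) + 1 / 4) * (c * X) = X / 2 + c * X / 4 := by field_simp
        rw [e7]
        have e8 : δ * c * X ≤ 1 / 2 * (c * X) := by
          have : 0 < c * X := by positivity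
          nlinarith only [this, hδ1]
        nlinarith only [e8]
      have e6 : 0 ≤ z * CW := by positivity
      calc 4 * z * (hp c t D) * CW / ε = 4 * ((hp c t D) * (z * CW)) / ε := by ring
        _ ≤ 4 * ((16 * X / t ^ 2 + 1) * (K2 * Real.exp (-(c / 4 * X)))) / ε := by
            apply div_le_div_of_nonneg_right _ hε.le
            apply mul_le_mul_of_nonneg_left _ (by norm_num)
            exact mul_le_mul e4 e5 e6 (by positivity)
        _ = (4 * 16 / t ^ 2 * K2 / ε * X + 4 * K2 / ε) * Real.exp (-(c / 4 * X)) := by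
            field_simp
    linarith only [e1, e2, e3]
  -- step A4
  set h := ⌊(1 - 2 * t ^ 2) * X⌋₊ with hh
  set κ := (1 - t ^ 2 / 8) ^ 2 with hκ
  set B := ε / 2 * κ ^ h * Real.exp ((1 - t ^ 2 / 8) / X * (h * (h - 1) / 2)) *
      (t ^ 2 / 2 / (Real.exp 1 * h)) with hB
  have hA4 : ∀ i, D ≤ 2 * i → i + h + hp c t D ≤ D → B ≤ W (fw c) D z T (i + h) 0 := by
    intro i hi hih
    apply stepA4 ht ht1 hL w2 w3 hc hz3 hε (by positivity) hT hh hi hih
      (hA2 i hi (by omega))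
    intro k hk1 hk2 s hs hs2
    have e1 := hA3 k (by omega) (by omega) s hs hs2
    have e2 : 1 - t ^ 2 / 8 ≤ 1 - z := by linarith only [hz1]
    have e3 : 0 ≤ 1 - t ^ 2 / 8 := by linarith only [htt]
    calc κ = (1 - t ^ 2 / 8) * (1 - t ^ 2 / 8) := by rw [hκ]; ring
      _ ≤ _ := mul_le_mul e2 e1 e3 (by linarith only [hz3])
  -- counting
  have hh1 : (h:ℝ) ≤ X := by
    have e1 : (h:ℝ) ≤ (1 - 2 * t ^ 2) * X := by
      rw [hh]; apply Nat.floor_le; nlinarith only [htt, hXp]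
    nlinarith only [e1, http, hXp]
  have hhpb : ((hp c t D : ℕ) : ℝ) ≤ 16 * X / t ^ 2 + 1 := by
    have := Nat.ceil_lt_add_one (show 0 ≤ 16 * XX c D / t ^ 2 by rw [← hX]; positivity)
    rw [← hX] at this
    unfold hp
    rw [← hX]; linarith only [this]
  have hcount : 4 * X + 64 * X / t ^ 2 + 8 ≤ (D:ℝ) + 2 := by
    rw [Real.exp_neg, ← div_eq_mul_inv, div_le_one (Real.exp_pos _), hexpcX] at w8
    refine le_trans (le_of_eq ?_) w8
    ring
  have h16 : 64 * X / t ^ 2 = 4 * (16 * X / t ^ 2) := by ring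
  have hsum4 : 4 * ((h:ℝ) + (hp c t D : ℕ)) + 2 ≤ D := by
    rw [h16] at hcount
    linarith only [hcount, hh1, hhpb]
  have hsum4' : 4 * (h + hp c t D) + 2 ≤ D := by exact_mod_cast hsum4
  set i0 := (D + 1) / 2 with hi0
  set i1 := D - h - hp c t D with hi1
  have hi01 : i0 ≤ i1 := by omega
  have hcard : (D:ℝ) / 4 ≤ ((i1 - i0 : ℕ) : ℝ) := by
    have e1 : D ≤ 4 * (i1 - i0) := by omega
    have e2 : (D:ℝ) ≤ 4 * ((i1 - i0 : ℕ) : ℝ) := by exact_mod_cast e1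
    linarith only [e2]
  have hT0 : 0 ≤ T := (R_nonneg (fw_pos c) _ _).trans hT
  have hB0 : 0 ≤ B := by rw [hB]; positivity
  have hsum : ((i1 - i0 : ℕ) : ℝ) * B ≤ ∑ k ∈ Finset.Ico 0 D, W (fw c) D z T (k + 1) 0 := by
    have e1 : ∑ i ∈ Finset.Ico i0 i1, B ≤ ∑ i ∈ Finset.Ico i0 i1, W (fw c) D z T (i + h) 0 := by
      apply Finset.sum_le_sum
      intro i hi
      rw [Finset.mem_Ico] at hi
      exact hA4 i (by omega) (by omega)
    rw [Finset.sum_const, Nat.card_Ico, nsmul_eq_mul] at e1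
    have hhpos : 1 ≤ h := by
      rw [hh]; apply Nat.le_floor; push_cast; nlinarith only [htt, w3]
    obtain ⟨h', hh'⟩ : ∃ h', h = h' + 1 := ⟨h - 1, by omega⟩
    have e2 : ∑ i ∈ Finset.Ico i0 i1, W (fw c) D z T (i + h) 0 =
        ∑ k ∈ Finset.Ico (i0 + h') (i1 + h'), W (fw c) D z T (k + 1) 0 := by
      rw [← Finset.sum_Ico_add' (fun k => W (fw c) D z T (k + 1) 0) i0 i1 h']
      apply Finset.sum_congr rfl
      intro i _
      rw [hh', add_assoc]
    rw [e2] at e1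
    refine e1.trans (Finset.sum_le_sum_of_subset_of_nonneg ?_ ?_)
    · intro k hk
      rw [Finset.mem_Ico] at hk ⊢
      omega
    · intro k _ _
      exact W_nonneg (fw_pos c) hz3.le _ _ hT0
  have hcs := c_sum (f := fw c) (D := D) (z := z) (T := T) (Nat.zero_le D) le_rfl hz3
  rw [c_zero] at hcs
  have hA0 := A_nonneg (f := fw c) (D := D) (z := z) 0 T
  have hzz : z ≤ z / (1 - z) := by
    rw [le_div_iff₀ (by linarith only [hz3])]
    nlinarith only [hz0]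
  have hfin := final_exponent (c := c) (δ := δ) (t := t) (X := X) w3 ht ht1 ht2 hh hε
    (κ := κ) (z := z) (D4 := (D:ℝ) / 4) (by
      have e1 := one_sub_ge_exp (x := t ^ 2 / 8) (by positivity) (by linarith only [htt])
      calc Real.exp (-(t ^ 2 / 2)) = Real.exp (-(2 * (t ^ 2 / 8))) ^ 2 := by
            rw [← Real.exp_nat_mul]; congr 1; push_cast; ring
        _ ≤ κ := pow_le_pow_left₀ (Real.exp_pos _).le e1 2) hz (by
      rw [hexpcX]
      have : (1:ℝ) ≤ D := by exact_mod_cast hD1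
      linarith only [this]) w9
  rw [← hB] at hfin
  have h1 : z * ((D:ℝ) / 4 * B) ≤ z / (1 - z) *
      ∑ k ∈ Finset.Ico 0 D, W (fw c) D z T (k + 1) 0 := by
    apply mul_le_mul hzz _ (by positivity) (le_trans hz0.le hzz)
    exact (mul_le_mul_of_nonneg_right hcard hB0).trans hsum
  linarith only [h1, hfin, hcs, hA0, hcon, hε]

end

end Pool.Agent.Lib.MP_bb6489_pr
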