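import Pool.Agent.Lib.MP_bb6489_pr.LemmaL

/-!
Upper bounds for the forward first moments.
-/

open MeasureTheory intervalIntegral Set Filter Topology
open scoped Nat

namespace Pool.Agent.Lib.MP_bb6489_pr

variable {f : ℕ → ℝ} {D : ℕ} {z T : ℝ}

theorem integral_exp_aux (K lam ρ a b : ℝ) (hlam : lam ≠ 0) :
    ∫ s in a..b, K * Real.exp (lam * (ρ - s)) =
      K / lam * (Real.exp (lam * (ρ - a)) - Real.exp (lam * (ρ - b))) := by
  have h : ∀ x ∈ uIcc a b, HasDerivAt (fun s => -(K / lam) * Real.exp (lam * (ρ - s)))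
      (K * Real.exp (lam * (ρ - x))) x := by
    intro x _
    have h0 : HasDerivAt (fun s => lam * (ρ - s)) (-lam) x := by
      have := ((hasDerivAt_id x).const_sub ρ).const_mul lam
      simpa using this
    have h1 := (h0.exp).const_mul (-(K / lam))
    have e : -(K / lam) * (Real.exp (lam * (ρ - x)) * -lam) =
        K * Real.exp (lam * (ρ - x)) := by field_simp
    rw [← e]
    exact h1
  rw [intervalIntegral.integral_eq_sub_of_hasDerivAt h]
  · ring
  · apply Continuous.intervalIntegrable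
    fun_prop

theorem W_step_le (hf : ∀ k, 0 < f k) (hz : 0 ≤ z) (hz1 : z < 1) {C : ℝ} (hC0 : 0 < C)
    (hC : ∀ i, i ≤ D → Real.exp 1 / C ≤ 1 - A f D z i (R f D i)) (hT : R f D 0 ≤ T)
    {i : ℕ} (hi : i < D) {K lam ρ : ℝ} (hlam : 0 < lam)
    (hb : ∀ s, 0 ≤ s → s ≤ R f D i → W f D z T i s ≤ K * Real.exp (lam * (ρ - s)))
    {u : ℝ} (hu : 0 ≤ u) (hu2 : u ≤ R f D i) :
    W f D z T (i + 1) u ≤ f i * K / lam * (Real.exp (lam * (ρ - u)) -
      Real.exp (lam * (ρ - R f D i))) + C / Real.exp 1 := by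
  have hRT : R f D i ≤ T := (R_anti hf (Nat.zero_le i) hi.le).trans hT
  have hR0 : 0 ≤ R f D i := R_nonneg hf D i
  have hc := W_integrand_cont (f := f) (D := D) (z := z) (T := T) i
  rw [W_succ, ← intervalIntegral.integral_add_adjacent_intervals
    (hc.intervalIntegrable u (R f D i)) (hc.intervalIntegrable (R f D i) T), ← W_succ]
  have h1 : ∫ s in u..(R f D i), (1 - z) * f i * A f D z i s * W f D z T i s ≤
      ∫ s in u..(R f D i), (f i * K) * Real.exp (lam * (ρ - s)) := by
    apply intervalIntegral.integral_mono_on hu2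
    · exact hc.intervalIntegrable _ _
    · apply Continuous.intervalIntegrable; fun_prop
    · intro s hs
      have hs0 : 0 ≤ s := hu.trans hs.1
      have h2 := hb s hs0 hs.2
      have h3 := W_nonneg (D := D) hf hz1.le i s (hs.2.trans hRT)
      have h4 := A_nonneg (f := f) (D := D) (z := z) i s
      have h5 := A_le_one (D := D) hf hz hz1.le i hs0
      have h6 := (hf i).le
      have h7 : (1 - z) * f i * A f D z i s ≤ f i := by
        have h8 : (1 - z) * A f D z i s ≤ 1 := by nlinarith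
        nlinarith
      calc (1 - z) * f i * A f D z i s * W f D z T i s ≤ f i * W f D z T i s :=
            mul_le_mul_of_nonneg_right h7 h3
        _ ≤ f i * (K * Real.exp (lam * (ρ - s))) := mul_le_mul_of_nonneg_left h2 h6
        _ = _ := by ring
  rw [integral_exp_aux _ _ _ _ _ hlam.ne'] at h1
  have h2 : W f D z T (i + 1) (R f D i) ≤ C / Real.exp 1 := by
    have h3 := hC (i + 1) hi
    have h4 := R_anti (f := f) hf (Nat.le_succ i) (show i + 1 ≤ D from hi)
    have h5 := A_anti (D := D) hf hz hz1.le (i + 1) (show 0 ≤ R f D (i + 1) from R_nonneg hf _ _)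
      (show 0 ≤ R f D i from hR0) h4
    have h6 := W_mul_le (D := D) hf hz hz1 (k := i + 1) hi hR0 hRT
    have h7 := W_nonneg (D := D) hf hz1.le (i + 1) (R f D i) hRT
    have h8 : W f D z T (i + 1) (R f D i) * (Real.exp 1 / C) ≤ 1 := by
      refine le_trans (mul_le_mul_of_nonneg_left ?_ h7) h6
      linarith
    have he := Real.exp_pos 1
    rw [le_div_iff₀ he]
    rw [mul_div_assoc', div_le_iff₀ hC0, one_mul] at h8
    exact h8
  linarith

theorem W_bound (hf : ∀ k, 0 < f k) (hm : Monotone f) (hz : 0 ≤ z) (hz1 : z < 1) {C : ℝ}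
    (hC0 : 0 < C)
    (hC : ∀ i, i ≤ D → Real.exp 1 / C ≤ 1 - A f D z i (R f D i)) (hT : R f D 0 ≤ T)
    {i : ℕ} (hi : i ≤ D) : ∀ u, 0 ≤ u → u ≤ R f D i →
    W f D z T i u ≤ C * Real.exp (Real.exp 1 * f i * (R f D i - u)) := by
  have he := Real.exp_pos 1
  induction i with
  | zero =>
    intro u hu hu2
    rw [W_zero]
    have h1 : 1 ≤ C := by
      have h2 := hC 0 (Nat.zero_le _)
      have h3 := A_nonneg (f := f) (D := D) (z := z) 0 (R f D 0)
      have h4 : Real.exp 1 / C ≤ 1 := by linarith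
      rw [div_le_one hC0] at h4
      exact (Real.one_le_exp zero_le_one).trans h4
    have h2 : 1 ≤ Real.exp (Real.exp 1 * f 0 * (R f D 0 - u)) := by
      apply Real.one_le_exp
      have := hf 0
      have : 0 ≤ R f D 0 - u := by linarith
      positivity
    nlinarith
  | succ i ih =>
    intro u hu hu2
    have hiD : i < D := hi
    have h4 := R_anti (f := f) hf (Nat.le_succ i) (show i + 1 ≤ D from hi)
    have hfi := hf i
    have h1 := W_step_le hf hz hz1 hC0 hC hT hiD (K := C) (lam := Real.exp 1 * f i)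
      (ρ := R f D i) (by positivity) (ih hiD.le) hu (hu2.trans h4)
    refine h1.trans ?_
    have h2 : f i * C / (Real.exp 1 * f i) = C / Real.exp 1 := by field_simp
    rw [h2, sub_self, mul_zero, Real.exp_zero]
    have h3 : Real.exp 1 * f i * (R f D i - u) ≤ 1 + Real.exp 1 * f (i + 1) *
        (R f D (i + 1) - u) := by
      rw [R_succ hiD]
      have h5 : Real.exp 1 * f i * (1 / (Real.exp 1 * f i)) = 1 := by field_simp
      have h6 : f i ≤ f (i + 1) := hm (Nat.le_succ i)
      have h7 : f i * (R f D (i+1) - u) ≤ f (i+1) * (R f D (i+1) - u) :=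
        mul_le_mul_of_nonneg_right h6 (by linarith)
      nlinarith [mul_le_mul_of_nonneg_left h7 he.le]
    have h5 : Real.exp (Real.exp 1 * f i * (R f D i - u)) ≤
        Real.exp 1 * Real.exp (Real.exp 1 * f (i + 1) * (R f D (i + 1) - u)) := by
      rw [← Real.exp_add]; exact Real.exp_le_exp.mpr h3
    have h6 := mul_le_mul_of_nonneg_left h5 (show 0 ≤ C / Real.exp 1 by positivity)
    have h7 : C / Real.exp 1 * (Real.exp 1 * Real.exp (Real.exp 1 * f (i + 1) *
        (R f D (i + 1) - u))) = C * Real.exp (Real.exp 1 * f (i + 1) *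
        (R f D (i + 1) - u)) := by field_simp
    rw [h7] at h6
    linarith

theorem mul_exp_inv_ge {a lam : ℝ} (ha : 0 < a) (hlam : 0 < lam) :
    1 ≤ a / lam * Real.exp (lam * (1 / (Real.exp 1 * a))) := by
  have he := Real.exp_pos 1
  have h1 := Real.add_one_le_exp (lam * (1 / (Real.exp 1 * a)) - 1)
  rw [sub_add_cancel, Real.exp_sub, le_div_iff₀ he] at h1
  have h2 : a / lam * (lam * (1 / (Real.exp 1 * a)) * Real.exp 1) = 1 := by field_simp
  have h3 := mul_le_mul_of_nonneg_left h1 (show 0 ≤ a / lam by positivity)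
  rw [h2] at h3
  exact h3

theorem prod_exp_ge (hf : ∀ k, 0 < f k) {lam : ℝ} (hlam : 0 < lam) (i n : ℕ) :
    1 ≤ (∏ j ∈ Finset.Ico i (i + n), f j / lam) *
      Real.exp (lam * ∑ j ∈ Finset.Ico i (i + n), 1 / (Real.exp 1 * f j)) := by
  induction n with
  | zero => simp
  | succ n ih =>
    rw [← add_assoc, Finset.prod_Ico_succ_top (by omega), Finset.sum_Ico_succ_top (by omega),
      mul_add, Real.exp_add]
    have h1 := mul_exp_inv_ge (hf (i + n)) hlam
    calc (1:ℝ) = 1 * 1 := (one_mul 1).symm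
      _ ≤ _ := mul_le_mul ih h1 zero_le_one (zero_le_one.trans ih)
      _ = _ := by ring

theorem W_boundQ (hf : ∀ k, 0 < f k) (hm : Monotone f) (hz : 0 ≤ z) (hz1 : z < 1) {C : ℝ}
    (hC0 : 0 < C)
    (hC : ∀ i, i ≤ D → Real.exp 1 / C ≤ 1 - A f D z i (R f D i)) (hT : R f D 0 ≤ T)
    (i0 n : ℕ) : i0 + n ≤ D → ∀ u, 0 ≤ u → u ≤ R f D (i0 + n) →
    W f D z T (i0 + n) u ≤ C * (∏ j ∈ Finset.Ico i0 (i0 + n), f j / (Real.exp 1 * f i0)) *
      Real.exp (Real.exp 1 * f i0 * (R f D i0 - u)) := by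
  have he := Real.exp_pos 1
  induction n with
  | zero =>
    intro hi u hu hu2
    have := W_bound hf hm hz hz1 hC0 hC hT (i := i0) hi u hu hu2
    simpa using this
  | succ n ih =>
    intro hi u hu hu2
    have hiD : i0 + n < D := by omega
    have h4 := R_anti (f := f) hf (Nat.le_succ (i0 + n)) (show i0 + n + 1 ≤ D from hiD)
    have hfi0 := hf i0
    have hfi := hf (i0 + n)
    have h1 := W_step_le hf hz hz1 hC0 hC hT hiD
      (K := C * (∏ j ∈ Finset.Ico i0 (i0 + n), f j / (Real.exp 1 * f i0)))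
      (lam := Real.exp 1 * f i0)
      (ρ := R f D i0) (by positivity) (ih hiD.le) hu (hu2.trans h4)
    rw [← add_assoc]
    refine h1.trans ?_
    rw [Finset.prod_Ico_succ_top (by omega)]
    have h5 := prod_exp_ge hf (show 0 < Real.exp 1 * f i0 by positivity) i0 n
    rw [R_split (i := i0) (show i0 ≤ i0 + n by omega) hiD.le]
    rw [add_sub_cancel_right]
    have h6 : C / Real.exp 1 ≤ f (i0 + n) * (C * (∏ j ∈ Finset.Ico i0 (i0 + n),
        f j / (Real.exp 1 * f i0))) / (Real.exp 1 * f i0) * Real.exp (Real.exp 1 * f i0 *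
        ∑ j ∈ Finset.Ico i0 (i0 + n), 1 / (Real.exp 1 * f j)) := by
      have h7 : 1 ≤ f (i0 + n) / f i0 := by
        rw [one_le_div hfi0]; exact hm (by omega)
      calc C / Real.exp 1 = C / Real.exp 1 * 1 * 1 := by ring
        _ ≤ C / Real.exp 1 * (f (i0 + n) / f i0) * ((∏ j ∈ Finset.Ico i0 (i0 + n),
        f j / (Real.exp 1 * f i0)) * Real.exp (Real.exp 1 * f i0 *
        ∑ j ∈ Finset.Ico i0 (i0 + n), 1 / (Real.exp 1 * f j))) := by
            apply mul_le_mul _ h5 zero_le_one (by positivity)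
            exact mul_le_mul_of_nonneg_left h7 (by positivity)
        _ = _ := by field_simp
    have h8 : f (i0 + n) * (C * (∏ j ∈ Finset.Ico i0 (i0 + n),
        f j / (Real.exp 1 * f i0))) / (Real.exp 1 * f i0) =
        C * ((∏ j ∈ Finset.Ico i0 (i0 + n), f j / (Real.exp 1 * f i0)) *
        (f (i0 + n) / (Real.exp 1 * f i0))) := by ring
    rw [h8] at h6 ⊢
    nlinarith [h6]

/-- the bound at time zero -/
theorem W_zero_le (hf : ∀ k, 0 < f k) (hm : Monotone f) (hz : 0 ≤ z) (hz1 : z < 1) {C : ℝ}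
    (hC0 : 0 < C)
    (hC : ∀ i, i ≤ D → Real.exp 1 / C ≤ 1 - A f D z i (R f D i)) (hT : R f D 0 ≤ T)
    {i0 k : ℕ} (h : i0 ≤ k) (hk : k ≤ D) :
    W f D z T k 0 ≤ C * (∏ j ∈ Finset.Ico i0 k, f j / (Real.exp 1 * f i0)) *
      Real.exp (Real.exp 1 * f i0 * R f D i0) := by
  obtain ⟨n, rfl⟩ := Nat.exists_eq_add_of_le h
  have := W_boundQ hf hm hz hz1 hC0 hC hT i0 n hk 0 le_rfl (R_nonneg hf _ _)
  simpa using this

end Pool.Agent.Lib.MP_bb6489_pr
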