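import Pool.Agent.Lib.MP_bb6489_pr.Asymp
import Pool.Agent.Lib.MP_bb6489_pr.WBound
import Pool.Agent.Lib.MP_bb6489_pr.Chain

/-!
The lower bound for the depth of the tree.
-/

open MeasureTheory intervalIntegral Set Filter Topology
open scoped Nat ENNReal

namespace Pool.Agent.Lib.MP_bb6489_pr

noncomputable section

theorem exists_CC {c : ℝ} (hc : 0 < c) {δ : ℝ} (hδ : 0 < δ) : ∃ K : ℝ, 0 < K ∧
    ∀ (D : ℕ) (z : ℝ), 0 ≤ z → z ≤ 1 → ∀ i, i ≤ D →
      Real.exp 1 / (K * Real.exp (δ * Real.log (D + 2))) ≤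
        1 - A (fw c) D z i (R (fw c) D i) := by
  obtain ⟨C, hC0, hC⟩ := Lam_le hc
  have he := Real.exp_pos 1
  have he1 : 1 ≤ Real.exp 1 := Real.one_le_exp zero_le_one
  set M := Real.log (4 * Real.exp 1) with hM
  have hMp : 0 < M := Real.log_pos (by linarith)
  have hMe : Real.exp M = 4 * Real.exp 1 := Real.exp_log (by positivity)
  set d := min 1 (δ * c / (2 * M)) with hd
  have hdp : 0 < d := lt_min one_pos (by positivity)
  have hd1 : d ≤ 1 := min_le_left _ _
  have hd2 : d ≤ δ * c / (2 * M) := min_le_right _ _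
  obtain ⟨b, hb0, hb⟩ := exists_block hdp hd1
  set κ := (d / 4) * Real.exp (-((1 + d) * b / Real.exp 1)) with hκ
  have hκp : 0 < κ := by positivity
  set K0 := 2 * M * d * C + 2 * M * (1 + d) * b + M with hK0
  refine ⟨Real.exp 1 * Real.exp K0 / κ, by positivity, ?_⟩
  intro D z hz hz1 i hi
  set l := Real.log ((D:ℝ) + 2) with hl
  have hlp : 0 < l := log_two_pos D
  have hΛ : ∀ i, i < D → Real.exp 1 * fw c i * R (fw c) D i ≤ l / c + C := by
    intro i hi
    refine (hC D i hi.le).trans ?_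
    have h1 : Real.log ((i:ℝ) + 2) ≤ l := by
      apply Real.log_le_log (by positivity)
      have : (i:ℝ) ≤ D := by exact_mod_cast hi.le
      linarith
    have := div_le_div_of_nonneg_right h1 hc.le
    linarith
  set h := ⌈2 * (d * (l / c + C) + (1 + d) * b)⌉₊ with hh
  have hh1 : d * (l / c + C) + (1 + d) * b ≤ (h:ℝ) / 2 := by
    have := Nat.le_ceil (2 * (d * (l / c + C) + (1 + d) * b))
    rw [← hh] at this
    linarith
  have hh2 : (h:ℝ) ≤ 2 * (d * (l / c + C) + (1 + d) * b) + 1 := by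
    have := Nat.ceil_lt_add_one (show 0 ≤ 2 * (d * (l / c + C) + (1 + d) * b) by positivity)
    rw [← hh] at this
    linarith
  have key := lemmaL (D := D) (f := fw c) (fw_pos c) (fw_mono hc) hz hz1 hdp.le
    (by positivity : (0:ℝ) ≤ d / 4) (by linarith) hb hb0 hΛ hh1 hi
  rw [← hκ] at key
  refine le_trans ?_ key
  have h4 : (4 * Real.exp 1) ^ h ≤ Real.exp K0 * Real.exp (δ * l) := by
    rw [← hMe, ← Real.exp_nat_mul, ← Real.exp_add]
    apply Real.exp_le_exp.mpr
    have h5 := mul_le_mul_of_nonneg_right hh2 hMp.le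
    have h6 : d * (2 * M) / c ≤ δ := by
      rw [div_le_iff₀ hc]
      rw [le_div_iff₀ (by positivity)] at hd2
      linarith
    have h7 := mul_le_mul_of_nonneg_right h6 hlp.le
    have h8 : d * (2 * M) / c * l = 2 * M * d * (l / c) := by ring
    rw [h8] at h7
    rw [hK0]
    nlinarith
  rw [div_le_div_iff₀ (by positivity) (by positivity)]
  calc Real.exp 1 * (4 * Real.exp 1) ^ h ≤ Real.exp 1 * (Real.exp K0 * Real.exp (δ * l)) :=
        mul_le_mul_of_nonneg_left h4 he.le
    _ = κ * (Real.exp 1 * Real.exp K0 / κ * Real.exp (δ * l)) := by field_simp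

theorem prod_le_aux {c : ℝ} (hc : 0 < c) (i h : ℕ) :
    (∏ j ∈ Finset.Ico i (i + h), fw c j / (Real.exp 1 * fw c i)) ≤
      Real.exp (c * h ^ 2 / (2 * Real.log (i + 2)) - h) := by
  have hx := log_two_pos i
  induction h with
  | zero => simp
  | succ h ih =>
    rw [← add_assoc, Finset.prod_Ico_succ_top (by omega)]
    have h1 : fw c (i + h) / (Real.exp 1 * fw c i) ≤
        Real.exp (c * h / Real.log (i + 2) - 1) := by
      have h2 := phi_diff_le hc i h
      unfold fw
      rw [← Real.exp_add, ← Real.exp_sub]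
      apply Real.exp_le_exp.mpr
      linarith
    have h0 : 0 ≤ fw c (i + h) / (Real.exp 1 * fw c i) := by
      have := fw_pos c (i + h); have := fw_pos c i; positivity
    refine (mul_le_mul ih h1 h0 (Real.exp_pos _).le).trans ?_
    rw [← Real.exp_add]
    apply Real.exp_le_exp.mpr
    push_cast
    have h2 : c * ((h:ℝ) + 1) ^ 2 / (2 * Real.log (i + 2)) =
      c * h ^ 2 / (2 * Real.log (i + 2)) + c * h / Real.log (i + 2) +
        c / (2 * Real.log (i + 2)) := by field_simp; ring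
    have h3 : 0 ≤ c / (2 * Real.log (i + 2)) := by positivity
    linarith

theorem W0_bound {c : ℝ} (hc : 0 < c) : ∃ K : ℝ, 0 < K ∧
    ∀ (D : ℕ) (z T CC : ℝ), 0 ≤ z → z < 1 → 0 < CC →
      (∀ i, i ≤ D → Real.exp 1 / CC ≤ 1 - A (fw c) D z i (R (fw c) D i)) →
      R (fw c) D 0 ≤ T → ∀ k, k ≤ D →
        W (fw c) D z T k 0 ≤ CC * K * Real.exp (Real.log (k + 2) / (2 * c)) := by
  obtain ⟨C, hC0, hC⟩ := Lam_le hc
  set K0 := ⌈36 / c ^ 2⌉₊ + 2 with hK0
  have hl2 := Real.log_two_gt_d9
  refine ⟨Real.exp (Real.log 2 / c + C + 1) + Real.exp (Real.log (K0 + 2) / c + C),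
    by positivity, ?_⟩
  intro D z T CC hz hz1 hCC hhyp hT k hk
  have hpos2 := Real.exp_pos (Real.log (K0 + 2) / c + C)
  have hpos1 := Real.exp_pos (Real.log 2 / c + C + 1)
  set y := Real.log ((k:ℝ) + 2) with hy
  have hyp : 0 < y := log_two_pos k
  rcases Nat.lt_or_ge k K0 with hk0 | hk0
  · -- small levels
    have h1 := W_zero_le (f := fw c) (D := D) (z := z) (T := T) (fw_pos c) (fw_mono hc) hz hz1
      hCC hhyp hT (i0 := k) (k := k) le_rfl hk
    simp only [Finset.Ico_self, Finset.prod_empty, mul_one] at h1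
    refine h1.trans ?_
    have h2 : Real.exp (Real.exp 1 * fw c k * R (fw c) D k) ≤
        Real.exp (Real.log (K0 + 2) / c + C) := by
      apply Real.exp_le_exp.mpr
      refine (hC D k hk).trans ?_
      have h3 : y ≤ Real.log (K0 + 2) := by
        apply Real.log_le_log (by positivity)
        have : (k:ℝ) ≤ K0 := by exact_mod_cast hk0.le
        linarith
      have := div_le_div_of_nonneg_right h3 hc.le
      linarith
    have h3 : 1 ≤ Real.exp (y / (2 * c)) := Real.one_le_exp (by positivity)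
    rw [mul_assoc CC]
    apply mul_le_mul_of_nonneg_left _ hCC.le
    calc _ ≤ Real.exp (Real.log (K0 + 2) / c + C) := h2
      _ ≤ (Real.exp (Real.log 2 / c + C + 1) + Real.exp (Real.log (K0 + 2) / c + C)) * 1 := by
          linarith
      _ ≤ _ := mul_le_mul_of_nonneg_left h3 (by positivity)
  · -- large levels
    have hkr : 36 / c ^ 2 ≤ (k:ℝ) := by
      have h1 := Nat.le_ceil (36 / c ^ 2)
      have h2 : ((⌈36 / c ^ 2⌉₊ + 2 : ℕ) : ℝ) ≤ k := by exact_mod_cast hk0
      push_cast at h2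
      linarith
    have hk2 : (2:ℝ) ≤ k := by
      have : 2 ≤ k := by omega
      exact_mod_cast this
    have hy2 : 2 * Real.log 2 ≤ y := by
      have h3 : Real.log 4 = 2 * Real.log 2 := by
        rw [show (4:ℝ) = 2 ^ 2 by norm_num, Real.log_pow]; norm_num
      rw [← h3]
      apply Real.log_le_log (by norm_num); linarith
    have hsk : 0 < Real.sqrt k := Real.sqrt_pos.mpr (by linarith)
    have hsq : Real.sqrt k * Real.sqrt k = k := Real.mul_self_sqrt (by linarith)
    have hck : 6 ≤ c * Real.sqrt k := by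
      rw [div_le_iff₀ (by positivity)] at hkr
      have h1 : (6:ℝ) ^ 2 ≤ (c * Real.sqrt k) ^ 2 := by nlinarith
      exact (pow_le_pow_iff_left₀ (by norm_num) (by positivity) (by norm_num)).mp h1
    have hyk : y / c ≤ k / 2 := by
      have h1 : y ≤ 3 * Real.sqrt k := by
        have h2 : y ≤ Real.log ((1.5 * Real.sqrt k) ^ 2) := by
          apply Real.log_le_log (by positivity)
          nlinarith
        rw [Real.log_pow] at h2
        have h3 := Real.log_le_sub_one_of_pos (show 0 < 1.5 * Real.sqrt k by positivity)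
        push_cast at h2
        linarith
      rw [div_le_iff₀ hc]
      nlinarith
    set h := ⌊y / c⌋₊ with hh
    have hh1 : (h:ℝ) ≤ y / c := Nat.floor_le (by positivity)
    have hh2 : y / c - 1 ≤ h := by
      have := Nat.lt_floor_add_one (y / c)
      rw [← hh] at this; linarith
    have hhk : (h:ℝ) ≤ k / 2 := hh1.trans hyk
    obtain ⟨i0, hi0⟩ : ∃ i0, k = i0 + h := by
      have : h ≤ k := by
        have : (h:ℝ) ≤ k := by linarith
        exact_mod_cast this
      exact ⟨k - h, by omega⟩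
    have hi0r : (k:ℝ) = i0 + h := by rw [hi0]; push_cast; ring
    have h1 := W_zero_le (f := fw c) (D := D) (z := z) (T := T) (fw_pos c) (fw_mono hc) hz hz1
      hCC hhyp hT (i0 := i0) (k := k) (by omega) hk
    have h2 := prod_le_aux hc i0 h
    rw [← hi0] at h2
    have h3 := hC D i0 (by omega)
    set x := Real.log ((i0:ℝ) + 2) with hx
    have hxp : 0 < x := log_two_pos i0
    have hxy : x ≤ y := by
      apply Real.log_le_log (by positivity); rw [hi0r]
      have : (0:ℝ) ≤ h := Nat.cast_nonneg h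
      linarith
    have hyx : y - Real.log 2 ≤ x := by
      rw [hy, ← Real.log_div (by positivity) (by norm_num)]
      apply Real.log_le_log (by positivity)
      linarith
    have hyl : 0 < y - Real.log 2 := by linarith
    have h4 : c * (h:ℝ) ^ 2 / (2 * x) - h + (x / c + C) ≤
        y / (2 * c) + (Real.log 2 / c + C + 1) := by
      have h5 : c * (h:ℝ) ^ 2 / (2 * x) ≤ c * (y / c) ^ 2 / (2 * (y - Real.log 2)) := by
        apply div_le_div₀ (by positivity) _ (by positivity) (by linarith)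
        apply mul_le_mul_of_nonneg_left _ hc.le
        exact pow_le_pow_left₀ (Nat.cast_nonneg h) hh1 2
      have h6 : c * (y / c) ^ 2 / (2 * (y - Real.log 2)) = y ^ 2 / (2 * (y - Real.log 2)) / c := by
        field_simp
      have h7 : y ^ 2 / (2 * (y - Real.log 2)) ≤ y / 2 + Real.log 2 := by
        rw [div_le_iff₀ (by positivity)]
        nlinarith
      have h8 := div_le_div_of_nonneg_right h7 hc.le
      have h9 := div_le_div_of_nonneg_right hxy hc.le
      have h10 : (y / 2 + Real.log 2) / c = y / (2 * c) + Real.log 2 / c := by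
        rw [add_div, div_div]
      rw [h10] at h8
      rw [h6] at h5
      have h11 : y / c = y / (2 * c) + y / (2 * c) := by field_simp; norm_num
      linarith
    calc W (fw c) D z T k 0 ≤ CC * (∏ j ∈ Finset.Ico i0 k, fw c j / (Real.exp 1 * fw c i0)) *
          Real.exp (Real.exp 1 * fw c i0 * R (fw c) D i0) := h1
      _ ≤ CC * Real.exp (c * h ^ 2 / (2 * x) - h) * Real.exp (x / c + C) := by
          apply mul_le_mul _ (Real.exp_le_exp.mpr h3) (Real.exp_pos _).le (by positivity)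
          exact mul_le_mul_of_nonneg_left h2 hCC.le
      _ = CC * Real.exp (c * h ^ 2 / (2 * x) - h + (x / c + C)) := by
          rw [mul_assoc, ← Real.exp_add]
      _ ≤ CC * Real.exp (y / (2 * c) + (Real.log 2 / c + C + 1)) :=
          mul_le_mul_of_nonneg_left (Real.exp_le_exp.mpr h4) hCC.le
      _ = CC * Real.exp (Real.log 2 / c + C + 1) * Real.exp (y / (2 * c)) := by
          rw [Real.exp_add]; ring
      _ ≤ _ := by
          apply mul_le_mul_of_nonneg_right _ (Real.exp_pos _).le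
          apply mul_le_mul_of_nonneg_left _ hCC.le
          linarith

/-- the combined bound -/
theorem W0_bound' {c : ℝ} (hc : 0 < c) {δ : ℝ} (hδ : 0 < δ) : ∃ K : ℝ, 0 < K ∧
    ∀ (D : ℕ) (z T : ℝ), 0 ≤ z → z < 1 → R (fw c) D 0 ≤ T → ∀ k, k ≤ D →
        W (fw c) D z T k 0 ≤ K * Real.exp ((1 / (2 * c) + δ) * Real.log (D + 2)) := by
  obtain ⟨K1, hK1, h1⟩ := exists_CC hc hδ
  obtain ⟨K2, hK2, h2⟩ := W0_bound hc
  refine ⟨K1 * K2, by positivity, ?_⟩
  intro D z T hz hz1 hT k hk
  have h3 := h2 D z T (K1 * Real.exp (δ * Real.log (D + 2))) hz hz1 (by positivity)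
    (h1 D z hz hz1.le) hT k hk
  refine h3.trans ?_
  have h4 : Real.exp (Real.log ((k:ℝ) + 2) / (2 * c)) ≤
      Real.exp (Real.log ((D:ℝ) + 2) / (2 * c)) := by
    apply Real.exp_le_exp.mpr
    apply div_le_div_of_nonneg_right _ (by positivity)
    apply Real.log_le_log (by positivity)
    have : (k:ℝ) ≤ D := by exact_mod_cast hk
    linarith
  calc K1 * Real.exp (δ * Real.log (D + 2)) * K2 * Real.exp (Real.log ((k:ℝ) + 2) / (2 * c))
      ≤ K1 * Real.exp (δ * Real.log (D + 2)) * K2 *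
        Real.exp (Real.log ((D:ℝ) + 2) / (2 * c)) :=
        mul_le_mul_of_nonneg_left h4 (by positivity)
    _ = _ := by
        have : (1 / (2 * c) + δ) * Real.log ((D:ℝ) + 2) = δ * Real.log (D + 2) +
          Real.log ((D:ℝ) + 2) / (2 * c) := by ring
        rw [this, Real.exp_add]; ring

theorem partB {c : ℝ} (hc : 0 < c) {δ : ℝ} (hδ : 0 < δ) : ∃ K : ℝ, 0 < K ∧
    ∀ (D : ℕ) (z T : ℝ), 0 ≤ z → z ≤ 1 / 2 → R (fw c) D 0 ≤ T →
      1 - F (fw c) D z D 0 T ≤ A (fw c) D z 0 T +
        z * (K * Real.exp ((1 + 1 / (2 * c) + δ) * Real.log (D + 2))) := by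
  obtain ⟨K, hK, h⟩ := W0_bound' hc hδ
  refine ⟨2 * K, by positivity, ?_⟩
  intro D z T hz hz1 hT
  have hz2 : z < 1 := by linarith
  have h1 := c_sum (f := fw c) (D := D) (T := T) (Nat.zero_le D) le_rfl hz2
  rw [c_zero] at h1
  have h2 : ∑ k ∈ Finset.Ico 0 D, W (fw c) D z T (k + 1) 0 ≤
      D * (K * Real.exp ((1 / (2 * c) + δ) * Real.log (D + 2))) := by
    have : ∑ k ∈ Finset.Ico 0 D, (K * Real.exp ((1 / (2 * c) + δ) * Real.log ((D:ℝ) + 2))) =
      D * (K * Real.exp ((1 / (2 * c) + δ) * Real.log (D + 2))) := by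
      rw [Finset.sum_const, Nat.card_Ico, nsmul_eq_mul]; simp
    rw [← this]
    apply Finset.sum_le_sum
    intro k hk
    rw [Finset.mem_Ico] at hk
    exact h D z T hz hz2 hT (k + 1) hk.2
  have h3 : z / (1 - z) ≤ 2 * z := by
    rw [div_le_iff₀ (by linarith)]; nlinarith
  have hDp : (0:ℝ) < (D:ℝ) + 2 := by positivity
  have h4 : (D:ℝ) ≤ Real.exp (Real.log (D + 2)) := by
    rw [Real.exp_log hDp]; linarith
  have h5 : z / (1 - z) * ∑ k ∈ Finset.Ico 0 D, W (fw c) D z T (k + 1) 0 ≤
      2 * z * (Real.exp (Real.log (D + 2)) *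
        (K * Real.exp ((1 / (2 * c) + δ) * Real.log (D + 2)))) := by
    apply mul_le_mul h3 _ _ (by positivity)
    · refine h2.trans ?_
      exact mul_le_mul_of_nonneg_right h4 (by positivity)
    · exact Finset.sum_nonneg fun k _ => W_nonneg (fw_pos c) hz2.le _ _
        ((R_nonneg (fw_pos c) _ _).trans hT)
  have h6 : 2 * z * (Real.exp (Real.log ((D:ℝ) + 2)) *
        (K * Real.exp ((1 / (2 * c) + δ) * Real.log (D + 2)))) =
      z * (2 * K * Real.exp ((1 + 1 / (2 * c) + δ) * Real.log (D + 2))) := by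
    have : (1 + 1 / (2 * c) + δ) * Real.log ((D:ℝ) + 2) = Real.log (D + 2) +
      (1 / (2 * c) + δ) * Real.log (D + 2) := by ring
    rw [this, Real.exp_add]; ring
  rw [h6] at h5
  linarith

/-- the survival probability decays -/
theorem A_zero_le {f : ℕ → ℝ} {D : ℕ} {z T : ℝ} (hf : ∀ k, 0 < f k) (hz : 0 ≤ z) (hz1 : z ≤ 1)
    (hD : 0 < D) (hT : 0 ≤ T) : A f D z 0 T ≤ Real.exp (-(f 0 * (T * z))) := by
  rw [A_of_lt hD]
  apply Real.exp_le_exp.mpr
  apply neg_le_neg
  apply mul_le_mul_of_nonneg_left _ (hf 0).le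
  have hc : Continuous (fun s => (1 - (1 - z) * A f D z (0 + 1) s)) := by
    have := A_cont (f := f) (D := D) (z := z) (0 + 1)
    fun_prop
  have h1 : ∫ s in (0:ℝ)..T, z ≤ ∫ s in (0:ℝ)..T, (1 - (1 - z) * A f D z (0 + 1) s) := by
    apply intervalIntegral.integral_mono_on hT
    · exact continuous_const.intervalIntegrable _ _
    · exact hc.intervalIntegrable _ _
    · intro s hs
      have := A_le_one (D := D) hf hz hz1 (0 + 1) hs.1
      nlinarith
  rw [intervalIntegral.integral_const] at h1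
  simpa using h1

theorem A_zero_small {c : ℝ} {D : ℕ} {z T : ℝ} (hz : 0 < z) (hz1 : z ≤ 1)
    (hD : 0 < D) (hT : 1 / z ^ 2 ≤ T) : A (fw c) D z 0 T ≤ z := by
  have hT0 : 0 ≤ T := le_trans (by positivity) hT
  refine (A_zero_le (fw_pos c) hz.le hz1 hD hT0).trans ?_
  have h0 : fw c 0 = 1 := by simp [fw, phi]
  rw [h0, one_mul]
  have h1 : 1 / z ≤ T * z := by
    have := mul_le_mul_of_nonneg_right hT hz.le
    refine le_trans (le_of_eq ?_) this
    field_simp
  have h2 : Real.exp (-(T * z)) ≤ Real.exp (-(1 / z)) := Real.exp_le_exp.mpr (by linarith)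
  refine h2.trans ?_
  rw [Real.exp_neg, inv_le_comm₀ (Real.exp_pos _) hz]
  have := Real.add_one_le_exp (1 / z)
  rw [← one_div]; linarith

theorem treeB {c : ℝ} (hc : 0 < c) {δ : ℝ} (hδ : 0 < δ) : ∃ K : ℝ, 0 < K ∧
    ∀ (D n : ℕ), 0 < D → 0 < n →
      EE (fw c) (fw_pos c) n (fun t => if height t < D then 1 else 0) ≤
        ENNReal.ofReal (K * Real.exp ((1 + 1 / (2 * c) + δ) * Real.log (D + 2)) / n) := by
  obtain ⟨K, hK, h⟩ := partB hc hδ
  refine ⟨2 * (1 + K), by positivity, ?_⟩
  intro D n hD hn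
  have hnp : (0:ℝ) < n := by exact_mod_cast hn
  have hn1 : (1:ℝ) ≤ n := by exact_mod_cast hn
  set z : ℝ := 1 / ((n:ℝ) + 1) with hz
  have hzp : 0 < z := by positivity
  have hz2 : z ≤ 1 / 2 := by
    rw [hz]; apply one_div_le_one_div_of_le (by norm_num); linarith
  set T := max (R (fw c) D 0) (1 / z ^ 2) with hT
  have hT1 : R (fw c) D 0 ≤ T := le_max_left _ _
  have hT2 : 1 / z ^ 2 ≤ T := le_max_right _ _
  have hT0 : 0 ≤ T := (R_nonneg (fw_pos c) _ _).trans hT1
  have h1 := chainB (f := fw c) (T := T) (fw_pos c) hzp.le (by linarith : z ≤ 1) hT0 hD n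
  have h2 := h D z T hzp.le hz2 hT1
  have h3 := A_zero_small (c := c) hzp (by linarith : z ≤ 1) hD hT2
  set E := Real.exp ((1 + 1 / (2 * c) + δ) * Real.log ((D:ℝ) + 2)) with hE
  have hE1 : 1 ≤ E := by
    apply Real.one_le_exp
    have := log_two_pos D
    positivity
  have h4 : 1 - F (fw c) D z D 0 T ≤ z * ((1 + K) * E) := by nlinarith
  have h5 : (1 - z) ^ n ≤ 1 / 2 := by
    have e1 : 1 - z = (1 + 1 / (n:ℝ))⁻¹ := by rw [hz]; field_simp; ring
    rw [e1, inv_pow, inv_eq_one_div]
    apply one_div_le_one_div_of_le (by norm_num)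
    have h6 := one_add_mul_le_pow (show (-2:ℝ) ≤ 1 / (n:ℝ) by
      have : (0:ℝ) ≤ 1 / n := by positivity
      linarith) n
    have h7 : (n:ℝ) * (1 / n) = 1 := by field_simp
    rw [h7] at h6
    linarith
  have h6 : ENNReal.ofReal (1 / 2) * EE (fw c) (fw_pos c) n
      (fun t => if height t < D then 1 else 0) ≤ ENNReal.ofReal (z * ((1 + K) * E)) := by
    refine le_trans (mul_le_mul' (ENNReal.ofReal_le_ofReal (by linarith)) le_rfl)
      (h1.trans (ENNReal.ofReal_le_ofReal h4))
  have h7 : EE (fw c) (fw_pos c) n (fun t => if height t < D then 1 else 0) =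
      ENNReal.ofReal 2 * (ENNReal.ofReal (1 / 2) * EE (fw c) (fw_pos c) n
      (fun t => if height t < D then 1 else 0)) := by
    rw [← mul_assoc, ← ENNReal.ofReal_mul (by norm_num)]
    norm_num
  rw [h7]
  refine (mul_le_mul' le_rfl h6).trans ?_
  rw [← ENNReal.ofReal_mul (by norm_num)]
  apply ENNReal.ofReal_le_ofReal
  rw [le_div_iff₀ hnp]
  have h8 : z * n ≤ 1 := by
    rw [hz, one_div, inv_mul_le_iff₀ (by positivity)]; linarith
  have h9 : 0 ≤ 2 * ((1 + K) * E) := by positivity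
  nlinarith [mul_le_mul_of_nonneg_right h8 h9]

end

end Pool.Agent.Lib.MP_bb6489_pr
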