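import Mathlib

/-!
The deterministic system attached to a depth weighted tree with target depth `D` and
marking probability `z`.
-/

open MeasureTheory intervalIntegral Set Filter Topology

namespace Pool.Agent.Lib.MP_bb6489_pr

noncomputable section

/-- Survival functions, indexed by the number of remaining levels. -/
def Bs (f : ℕ → ℝ) (D : ℕ) (z : ℝ) : ℕ → ℝ → ℝ
  | 0, _ => 0
  | j + 1, u => Real.exp (-(f (D - (j + 1)) * ∫ s in (0:ℝ)..u, (1 - (1 - z) * Bs f D z j s)))

/-- The probability that a lone vertex of depth `k` sees no event by time `u`. -/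
def A (f : ℕ → ℝ) (D : ℕ) (z : ℝ) (k : ℕ) (u : ℝ) : ℝ := Bs f D z (D - k) u

/-- The forward first moments. -/
def W (f : ℕ → ℝ) (D : ℕ) (z T : ℝ) : ℕ → ℝ → ℝ
  | 0, _ => 1
  | k + 1, u => ∫ s in u..T, (1 - z) * f k * A f D z k s * W f D z T k s

/-- Backward functions with intermediate target `q`, indexed by remaining levels. -/
def Fs (f : ℕ → ℝ) (D : ℕ) (z : ℝ) (q : ℕ) : ℕ → ℝ → ℝ
  | 0, u => 1 - A f D z q u
  | j + 1, u => ∫ s in (0:ℝ)..u,
      (1 - z) * f (q - (j + 1)) * A f D z (q - (j + 1)) s * Fs f D z q j s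

/-- The probability that a lone vertex of depth `k` has by time `u` an event, the first
one being below level `q`. -/
def F (f : ℕ → ℝ) (D : ℕ) (z : ℝ) (q k : ℕ) (u : ℝ) : ℝ := Fs f D z q (q - k) u

variable {f : ℕ → ℝ} {D : ℕ} {z T : ℝ}

theorem Bs_cont (j : ℕ) : Continuous (Bs f D z j) := by
  induction j with
  | zero =>
    have : Bs f D z 0 = fun _ => 0 := by ext u; simp [Bs]
    rw [this]; exact continuous_const
  | succ j ih =>
    have : Bs f D z (j+1) = fun u => Real.exp (-(f (D - (j + 1)) *
        ∫ s in (0:ℝ)..u, (1 - (1 - z) * Bs f D z j s))) := by ext u; simp [Bs]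
    rw [this]
    have hc : Continuous (fun s => (1 - (1 - z) * Bs f D z j s)) := by fun_prop
    have hi : Continuous (fun u => ∫ s in (0:ℝ)..u, (1 - (1 - z) * Bs f D z j s)) :=
      intervalIntegral.continuous_primitive (fun a b => hc.intervalIntegrable a b) 0
    fun_prop

theorem A_cont (k : ℕ) : Continuous (A f D z k) := Bs_cont (D - k)

theorem A_of_ge {k : ℕ} (h : D ≤ k) (u : ℝ) : A f D z k u = 0 := by
  have : D - k = 0 := by omega
  simp [A, this, Bs]

theorem A_of_lt {k : ℕ} (h : k < D) (u : ℝ) :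
    A f D z k u = Real.exp (-(f k * ∫ s in (0:ℝ)..u, (1 - (1 - z) * A f D z (k + 1) s))) := by
  obtain ⟨j, hj⟩ : ∃ j, D - k = j + 1 := ⟨D - k - 1, by omega⟩
  have h2 : D - (j + 1) = k := by omega
  have h3 : D - (k + 1) = j := by omega
  simp [A, hj, Bs, h2, h3]

theorem A_pos {k : ℕ} (h : k < D) (u : ℝ) : 0 < A f D z k u := by
  rw [A_of_lt h]; exact Real.exp_pos _

theorem A_nonneg (k : ℕ) (u : ℝ) : 0 ≤ A f D z k u := by
  rcases lt_or_ge k D with h | h
  · exact (A_pos h u).le
  · rw [A_of_ge h]

theorem A_zero {k : ℕ} (h : k < D) : A f D z k 0 = 1 := by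
  rw [A_of_lt h]; simp

theorem Bs_le_one (hf : ∀ k, 0 < f k) (hz : 0 ≤ z) (hz1 : z ≤ 1) (j : ℕ) :
    ∀ u, 0 ≤ u → 0 ≤ Bs f D z j u ∧ Bs f D z j u ≤ 1 := by
  induction j with
  | zero => intro u _; simp [Bs]
  | succ j ih =>
    intro u hu
    refine ⟨by simp only [Bs]; exact (Real.exp_pos _).le, ?_⟩
    simp only [Bs]
    rw [Real.exp_le_one_iff]
    have : 0 ≤ ∫ s in (0:ℝ)..u, (1 - (1 - z) * Bs f D z j s) := by
      apply intervalIntegral.integral_nonneg hu
      intro s hs
      obtain ⟨h1, h2⟩ := ih s hs.1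
      nlinarith
    have := mul_nonneg (hf (D - (j+1))).le this
    linarith

theorem A_le_one (hf : ∀ k, 0 < f k) (hz : 0 ≤ z) (hz1 : z ≤ 1) (k : ℕ) {u : ℝ} (hu : 0 ≤ u) :
    A f D z k u ≤ 1 := (Bs_le_one hf hz hz1 (D - k) u hu).2

/-- the rate of events of a lone vertex of depth `k` -/
theorem A_hasDeriv {k : ℕ} (h : k < D) (u : ℝ) :
    HasDerivAt (A f D z k) (-(f k * (1 - (1 - z) * A f D z (k + 1) u) * A f D z k u)) u := by
  have e : A f D z k = fun u => Real.exp (-(f k) * ∫ s in (0:ℝ)..u,
      (1 - (1 - z) * A f D z (k + 1) s)) := by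
    ext u; rw [A_of_lt h u, neg_mul]
  have hc : Continuous (fun s => (1 - (1 - z) * A f D z (k + 1) s)) := by
    have := A_cont (f := f) (D := D) (z := z) (k + 1)
    fun_prop
  have h1 : HasDerivAt (fun u => ∫ s in (0:ℝ)..u, (1 - (1 - z) * A f D z (k + 1) s))
      (1 - (1 - z) * A f D z (k + 1) u) u :=
    intervalIntegral.integral_hasDerivAt_right (hc.intervalIntegrable _ _)
      hc.aestronglyMeasurable.stronglyMeasurableAtFilter hc.continuousAt
  have h2 := (h1.const_mul (-(f k))).exp
  rw [e]
  convert h2 using 1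
  ring

theorem A_rate_nonneg (hf : ∀ k, 0 < f k) (hz : 0 ≤ z) (hz1 : z ≤ 1) (k : ℕ) {u : ℝ}
    (hu : 0 ≤ u) : 0 ≤ f k * (1 - (1 - z) * A f D z (k + 1) u) * A f D z k u := by
  have h1 := A_le_one (D := D) hf hz hz1 (k + 1) hu
  have h2 := A_nonneg (f := f) (D := D) (z := z) (k + 1) u
  have h3 := A_nonneg (f := f) (D := D) (z := z) k u
  have h4 := hf k
  have : 0 ≤ 1 - (1 - z) * A f D z (k + 1) u := by nlinarith
  positivity

theorem A_anti (hf : ∀ k, 0 < f k) (hz : 0 ≤ z) (hz1 : z ≤ 1) (k : ℕ) :
    AntitoneOn (A f D z k) (Ici 0) := by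
  rcases lt_or_ge k D with h | h
  · apply antitoneOn_of_deriv_nonpos (convex_Ici 0) (A_cont k).continuousOn
    · intro x _; exact (A_hasDeriv h x).differentiableAt.differentiableWithinAt
    · intro x hx
      rw [interior_Ici] at hx
      rw [(A_hasDeriv h x).deriv]
      have := A_rate_nonneg (D := D) hf hz hz1 k hx.le
      linarith
  · intro x _ y _ _
    rw [A_of_ge h, A_of_ge h]

/-! ### Forward first moments -/

theorem W_cont (k : ℕ) : Continuous (W f D z T k) := by
  induction k with
  | zero =>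
    have : W f D z T 0 = fun _ => 1 := by ext u; simp [W]
    rw [this]; exact continuous_const
  | succ k ih =>
    have e : W f D z T (k+1) = fun u => ∫ s in u..T,
        (1 - z) * f k * A f D z k s * W f D z T k s := by ext u; simp [W]
    have hA := A_cont (f := f) (D := D) (z := z) k
    have hc : Continuous (fun s => (1 - z) * f k * A f D z k s * W f D z T k s) := by
      fun_prop
    have hi : Continuous (fun u => ∫ s in T..u, (1 - z) * f k * A f D z k s * W f D z T k s) :=
      intervalIntegral.continuous_primitive (fun a b => hc.intervalIntegrable a b) T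
    rw [e]
    have e2 : (fun u => ∫ s in u..T, (1 - z) * f k * A f D z k s * W f D z T k s) =
        fun u => -∫ s in T..u, (1 - z) * f k * A f D z k s * W f D z T k s := by
      ext u; rw [intervalIntegral.integral_symm]
    rw [e2]
    exact hi.neg

theorem W_zero (u : ℝ) : W f D z T 0 u = 1 := by simp [W]

theorem W_succ (k : ℕ) (u : ℝ) : W f D z T (k + 1) u =
    ∫ s in u..T, (1 - z) * f k * A f D z k s * W f D z T k s := by simp [W]

theorem W_end (k : ℕ) : W f D z T (k + 1) T = 0 := by
  rw [W_succ]; simp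

theorem W_integrand_cont (k : ℕ) :
    Continuous (fun s => (1 - z) * f k * A f D z k s * W f D z T k s) := by
  have hA := A_cont (f := f) (D := D) (z := z) k
  have hW := W_cont (f := f) (D := D) (z := z) (T := T) k
  fun_prop

theorem W_hasDeriv (k : ℕ) (u : ℝ) :
    HasDerivAt (W f D z T (k + 1)) (-((1 - z) * f k * A f D z k u * W f D z T k u)) u := by
  have e : W f D z T (k+1) = fun u => ∫ s in u..T,
      (1 - z) * f k * A f D z k s * W f D z T k s := by ext u; simp [W]
  rw [e]
  have hc := W_integrand_cont (f := f) (D := D) (z := z) (T := T) k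
  exact intervalIntegral.integral_hasDerivAt_left (hc.intervalIntegrable _ _)
    hc.aestronglyMeasurable.stronglyMeasurableAtFilter hc.continuousAt

theorem W_nonneg (hf : ∀ k, 0 < f k) (hz1 : z ≤ 1) (k : ℕ) :
    ∀ u, u ≤ T → 0 ≤ W f D z T k u := by
  induction k with
  | zero => intro u _; simp [W]
  | succ k ih =>
    intro u hu
    rw [W_succ]
    apply intervalIntegral.integral_nonneg hu
    intro s hs
    have h1 := ih s hs.2
    have h2 := A_nonneg (f := f) (D := D) (z := z) k s
    have h3 := (hf k).le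
    have : 0 ≤ 1 - z := by linarith
    positivity

theorem W_anti (hf : ∀ k, 0 < f k) (hz1 : z ≤ 1) (k : ℕ) :
    AntitoneOn (W f D z T k) (Iic T) := by
  cases k with
  | zero => intro x _ y _ _; simp [W]
  | succ k =>
    apply antitoneOn_of_deriv_nonpos (convex_Iic T) (W_cont _).continuousOn
    · intro x _; exact (W_hasDeriv k x).differentiableAt.differentiableWithinAt
    · intro x hx
      rw [interior_Iic] at hx
      rw [(W_hasDeriv k x).deriv]
      have h1 := W_nonneg (D := D) hf hz1 k x hx.le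
      have h2 := A_nonneg (f := f) (D := D) (z := z) k x
      have h3 := (hf k).le
      have : 0 ≤ 1 - z := by linarith
      have : 0 ≤ (1 - z) * f k * A f D z k x * W f D z T k x := by positivity
      linarith

/-! ### Backward functions -/

theorem Fs_cont (q j : ℕ) : Continuous (Fs f D z q j) := by
  induction j with
  | zero =>
    have : Fs f D z q 0 = fun u => 1 - A f D z q u := by ext u; simp [Fs]
    rw [this]
    have hA := A_cont (f := f) (D := D) (z := z) q
    fun_prop
  | succ j ih =>
    have e : Fs f D z q (j+1) = fun u => ∫ s in (0:ℝ)..u,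
      (1 - z) * f (q - (j + 1)) * A f D z (q - (j + 1)) s * Fs f D z q j s := by
      ext u; simp [Fs]
    rw [e]
    have hA := A_cont (f := f) (D := D) (z := z) (q - (j+1))
    have hc : Continuous (fun s => (1 - z) * f (q - (j + 1)) * A f D z (q - (j + 1)) s *
        Fs f D z q j s) := by fun_prop
    exact intervalIntegral.continuous_primitive (fun a b => hc.intervalIntegrable a b) 0

theorem F_cont (q k : ℕ) : Continuous (F f D z q k) := Fs_cont q (q - k)

theorem F_self (q : ℕ) (u : ℝ) : F f D z q q u = 1 - A f D z q u := by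
  simp [F, Fs]

theorem F_of_lt {q k : ℕ} (h : k < q) (u : ℝ) : F f D z q k u =
    ∫ s in (0:ℝ)..u, (1 - z) * f k * A f D z k s * F f D z q (k + 1) s := by
  obtain ⟨j, hj⟩ : ∃ j, q - k = j + 1 := ⟨q - k - 1, by omega⟩
  have h2 : q - (j + 1) = k := by omega
  have h3 : q - (k + 1) = j := by omega
  simp [F, hj, Fs, h2, h3]

theorem F_integrand_cont (q k : ℕ) :
    Continuous (fun s => (1 - z) * f k * A f D z k s * F f D z q (k + 1) s) := by
  have hA := A_cont (f := f) (D := D) (z := z) k
  have hF := F_cont (f := f) (D := D) (z := z) q (k + 1)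
  fun_prop

theorem F_hasDeriv {q k : ℕ} (h : k < q) (u : ℝ) :
    HasDerivAt (F f D z q k) ((1 - z) * f k * A f D z k u * F f D z q (k + 1) u) u := by
  have e : F f D z q k = fun u => ∫ s in (0:ℝ)..u,
      (1 - z) * f k * A f D z k s * F f D z q (k + 1) s := by
    ext u; exact F_of_lt h u
  rw [e]
  have hc := F_integrand_cont (f := f) (D := D) (z := z) q k
  exact intervalIntegral.integral_hasDerivAt_right (hc.intervalIntegrable _ _)
    hc.aestronglyMeasurable.stronglyMeasurableAtFilter hc.continuousAt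

theorem F_zero {q k : ℕ} (h : k < q) : F f D z q k 0 = 0 := by
  rw [F_of_lt h]; simp

theorem F_self_zero {q : ℕ} (h : q < D) : F f D z q q 0 = 0 := by
  rw [F_self, A_zero h]; simp

/-- `F` vanishes at time zero unless the target has been reached. -/
theorem F_zero' {q k : ℕ} (h : k ≤ q) (hk : k < D) : F f D z q k 0 = 0 := by
  rcases h.lt_or_eq with h | h
  · exact F_zero h
  · subst h; exact F_self_zero hk

theorem F_nonneg (hf : ∀ k, 0 < f k) (hz : 0 ≤ z) (hz1 : z ≤ 1) (q k : ℕ) (hk : k ≤ q) :
    ∀ u, 0 ≤ u → 0 ≤ F f D z q k u := by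
  induction hk using Nat.decreasingInduction with
  | self =>
    intro u hu; rw [F_self]
    have := A_le_one (D := D) hf hz hz1 q hu
    linarith
  | of_succ k hk ih =>
    intro u hu
    rw [F_of_lt hk]
    apply intervalIntegral.integral_nonneg hu
    intro s hs
    have h1 := ih s hs.1
    have h2 := A_nonneg (f := f) (D := D) (z := z) k s
    have h3 := (hf k).le
    have : 0 ≤ 1 - z := by linarith
    positivity

/-- comparison lemma: two functions with ordered derivatives -/
theorem le_of_deriv_le {g h g' h' : ℝ → ℝ} {a : ℝ} (ha : 0 ≤ a)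
    (hg : ∀ x, HasDerivAt g (g' x) x) (hh : ∀ x, HasDerivAt h (h' x) x)
    (h0 : g 0 ≤ h 0) (hd : ∀ x, 0 < x → x < a → g' x ≤ h' x) : g a ≤ h a := by
  have hmono : MonotoneOn (fun x => h x - g x) (Icc 0 a) := by
    apply monotoneOn_of_deriv_nonneg (convex_Icc 0 a)
    · exact fun x _ => ((hh x).sub (hg x)).continuousAt.continuousWithinAt
    · exact fun x _ => ((hh x).sub (hg x)).differentiableAt.differentiableWithinAt
    · intro x hx
      rw [interior_Icc] at hx
      have := ((hh x).sub (hg x)).deriv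
      have e : deriv (fun x => h x - g x) x = h' x - g' x := this
      rw [e]
      linarith [hd x hx.1 hx.2]
  have := hmono (left_mem_Icc.mpr ha) (right_mem_Icc.mpr ha) ha
  simp only at this
  linarith

theorem F_le (hf : ∀ k, 0 < f k) (hz : 0 ≤ z) (hz1 : z ≤ 1) (q k : ℕ) (hq : q ≤ D) (hk : k ≤ q) :
    ∀ u, 0 ≤ u → F f D z q k u ≤ 1 - A f D z k u := by
  induction hk using Nat.decreasingInduction with
  | self => intro u hu; rw [F_self]
  | of_succ k hk ih =>
    intro u hu
    have hkD : k < D := by omega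
    refine le_of_deriv_le (h := fun u => 1 - A f D z k u) hu (fun x => F_hasDeriv hk x)
      (fun x => (A_hasDeriv hkD x).const_sub 1) ?_ ?_
    · simp [F_zero hk, A_zero hkD]
    · intro x hx _
      have h1 := ih x hx.le
      have h2 := A_nonneg (f := f) (D := D) (z := z) k x
      have h3 := (hf k).le
      have h4 : 0 ≤ 1 - z := by linarith
      have h5 : (1 - z) * F f D z q (k+1) x ≤ 1 - (1 - z) * A f D z (k+1) x := by
        nlinarith
      have := mul_le_mul_of_nonneg_left h5 (mul_nonneg h3 h2)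
      nlinarith [this]

theorem F_le_one (hf : ∀ k, 0 < f k) (hz : 0 ≤ z) (hz1 : z ≤ 1) (q k : ℕ) (hq : q ≤ D)
    (hk : k ≤ q) {u : ℝ} (hu : 0 ≤ u) : F f D z q k u ≤ 1 := by
  have := F_le (D := D) hf hz hz1 q k hq hk u hu
  have := A_nonneg (f := f) (D := D) (z := z) k u
  linarith

end

end Pool.Agent.Lib.MP_bb6489_pr
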